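import Pool.Agent.Helper56.RB.Base

namespace Pool.Agent.Helper56.RB

open Complex ComplexConjugate Metric Set

private theorem sp_id (a x : ℂ) :
    ‖1 - conj a * x‖ ^ 2 - ‖x - a‖ ^ 2 = (1 - ‖a‖ ^ 2) * (1 - ‖x‖ ^ 2) := by
  simp only [Complex.sq_norm, Complex.normSq_apply, sub_re, sub_im, one_re, one_im, mul_re, mul_im,
    conj_re, conj_im]
  ring

private theorem sp_lt {a x : ℂ} (ha : ‖a‖ < 1) (hx : ‖x‖ < 1) : ‖x - a‖ < ‖1 - conj a * x‖ := by
  have h1 := sp_id a x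
  have h2 : 0 < (1 - ‖a‖ ^ 2) * (1 - ‖x‖ ^ 2) := by
    have := norm_nonneg a
    have := norm_nonneg x
    refine mul_pos ?_ ?_ <;> nlinarith
  refine lt_of_pow_lt_pow_left₀ 2 (norm_nonneg _) ?_
  linarith

private theorem sp_pos {a x : ℂ} (ha : ‖a‖ < 1) (hx : ‖x‖ < 1) : 0 < ‖1 - conj a * x‖ :=
  (norm_nonneg _).trans_lt (sp_lt ha hx)

private theorem sp_strict {f : ℂ → ℂ} (hd : DifferentiableOn ℂ f (ball 0 1))
    (hm : ∀ z, ‖z‖ < 1 → ‖f z‖ < 1) {z w : ℂ} (hz : ‖z‖ < 1) (hw : ‖w‖ < 1) :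
    ‖f z - f w‖ * ‖1 - conj w * z‖ ≤ ‖z - w‖ * ‖1 - conj (f w) * f z‖ := by
  set b := f w with hb
  set m : ℂ → ℂ := fun x => (x - (-w)) / (1 - conj (-w) * x) with hmdef
  have hnw : ‖-w‖ < 1 := by rwa [norm_neg]
  have hmne : ∀ x : ℂ, ‖x‖ < 1 → (1 - conj (-w) * x) ≠ 0 := fun x hx =>
    norm_pos_iff.1 (sp_pos hnw hx)
  have hm1 : ∀ x : ℂ, ‖x‖ < 1 → ‖m x‖ < 1 := by
    intro x hx
    rw [hmdef]
    simp only [norm_div]
    rw [div_lt_one (sp_pos hnw hx)]
    exact sp_lt hnw hx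
  have hmd : DifferentiableOn ℂ m (ball 0 1) := by
    intro x hx
    have hx' : ‖x‖ < 1 := mem_ball_zero_iff.1 hx
    refine DifferentiableAt.differentiableWithinAt ?_
    refine DifferentiableAt.div ?_ ?_ (hmne x hx')
    · fun_prop
    · fun_prop
  set F : ℂ → ℂ := fun x => (f (m x) - b) / (1 - conj b * f (m x)) with hF
  have hbn : ‖b‖ < 1 := hm w hw
  have hfm : DifferentiableOn ℂ (fun x => f (m x)) (ball 0 1) :=
    hd.comp hmd fun x hx => mem_ball_zero_iff.2 (hm1 x (mem_ball_zero_iff.1 hx))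
  have hFd : DifferentiableOn ℂ F (ball 0 1) := by
    refine DifferentiableOn.div (hfm.sub_const b) ?_ ?_
    · exact (differentiableOn_const (1 : ℂ)).sub (hfm.const_mul (conj b))
    · intro x hx
      exact norm_pos_iff.1 (sp_pos hbn (hm _ (hm1 x (mem_ball_zero_iff.1 hx))))
  have hFm : MapsTo F (ball 0 1) (closedBall 0 1) := by
    intro x hx
    rw [mem_closedBall_zero_iff, hF]
    simp only [norm_div]
    have h1 : ‖f (m x)‖ < 1 := hm _ (hm1 x (mem_ball_zero_iff.1 hx))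
    exact (div_le_one (sp_pos hbn h1)).2 (sp_lt hbn h1).le
  have hm0 : m 0 = w := by simp [hmdef]
  have hF0 : F 0 = 0 := by
    simp only [hF, hm0, ← hb, sub_self, zero_div]
  set x : ℂ := (z - w) / (1 - conj w * z) with hx
  have hden := sp_pos hw hz
  have hxn : ‖x‖ < 1 := by
    rw [hx, norm_div, div_lt_one hden]
    exact sp_lt hw hz
  have hmx : m x = z := by
    have h1 : (1 - conj w * z) ≠ 0 := norm_pos_iff.1 hden
    have h2 : (1 - conj w * w) ≠ 0 := norm_pos_iff.1 (sp_pos hw hw)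
    have h3 : x - (-w) = z * (1 - conj w * w) / (1 - conj w * z) := by
      rw [hx, eq_div_iff h1, sub_neg_eq_add, add_mul, div_mul_cancel₀ _ h1]
      ring
    have h4 : 1 - conj (-w) * x = (1 - conj w * w) / (1 - conj w * z) := by
      rw [hx, map_neg, eq_div_iff h1, neg_mul, sub_neg_eq_add, add_mul, mul_assoc (conj w),
        div_mul_cancel₀ _ h1]
      ring
    simp only [hmdef]
    rw [h3, h4, div_div_div_cancel_right₀ h1, mul_div_assoc, div_self h2, mul_one]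
  have h5 := Complex.norm_le_norm_of_mapsTo_ball hFd hFm hF0 hxn
  have h6 : F x = (f z - b) / (1 - conj b * f z) := by
    simp only [hF, hmx]
  rw [h6, norm_div, hx, norm_div, div_le_div_iff₀ (sp_pos hbn (hm z hz)) hden] at h5
  exact h5

/-- Schwarz-Pick lemma for maps of the unit disc into the closed unit disc -/
theorem schwarz_pick {f : ℂ → ℂ} (hd : DifferentiableOn ℂ f (ball 0 1))
    (hm : ∀ z, ‖z‖ < 1 → ‖f z‖ ≤ 1) {z w : ℂ} (hz : ‖z‖ < 1) (hw : ‖w‖ < 1) :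
    ‖f z - f w‖ * ‖1 - conj w * z‖ ≤ ‖z - w‖ * ‖1 - conj (f w) * f z‖ := by
  have key : ∀ t ∈ Ico (0 : ℝ) 1, ‖(t : ℂ) * f z - t * f w‖ * ‖1 - conj w * z‖ ≤
      ‖z - w‖ * ‖1 - conj ((t : ℂ) * f w) * (t * f z)‖ := by
    intro t ht
    refine sp_strict (f := fun x => (t : ℂ) * f x) (hd.const_mul _) (fun x hx => ?_) hz hw
    rw [norm_mul, Complex.norm_real, Real.norm_of_nonneg ht.1]
    have h1 := hm x hx
    have h2 := norm_nonneg (f x)
    nlinarith [ht.1, ht.2]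
  have hcl : (1 : ℝ) ∈ closure (Ico (0 : ℝ) 1) := by
    rw [closure_Ico (by norm_num)]
    exact right_mem_Icc.2 zero_le_one
  have h3 := ContinuousWithinAt.closure_le (s := Ico (0 : ℝ) 1)
    (f := fun t : ℝ => ‖(t : ℂ) * f z - t * f w‖ * ‖1 - conj w * z‖)
    (g := fun t : ℝ => ‖z - w‖ * ‖1 - conj ((t : ℂ) * f w) * (t * f z)‖) hcl
    (by
      refine Continuous.continuousWithinAt ?_
      fun_prop)
    (by
      refine Continuous.continuousWithinAt ?_
      simp only [map_mul, conj_ofReal]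
      fun_prop) key
  simpa using h3

end Pool.Agent.Helper56.RB
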