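import Pool.Agent.Helper56.RB.Base

namespace Pool.Agent.Helper56.RB

variable {c : ℝ} {p : ℕ} {r : ℝ} {e s : ℕ → ℝ}

/-- a real point of the disc is sent into the next disc -/
theorem fb_real (h : Feas c p r e s) (j : ℕ) {x : ℝ} (hx : |x - e j| ≤ s j) :
    |x ^ 2 + c - e (j + 1)| + r ≤ s (j + 1) := by
  have h1 := h.step j (x : ℂ) (by
    rw [← Complex.ofReal_sub, Complex.norm_real, Real.norm_eq_abs]
    exact hx)
  have h2 : ((x : ℂ) ^ 2 + c - e (j + 1)) = ((x ^ 2 + c - e (j + 1) : ℝ) : ℂ) := by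
    push_cast
    ring
  rwa [h2, Complex.norm_real, Real.norm_eq_abs] at h1

theorem feas_bound (hp : 1 ≤ p) (hc : |c| ≤ 2) (hr : 0 ≤ r) (h : Feas c p r e s) (j : ℕ) :
    |e j| + s j ≤ 2 := by
  have hper : Function.Periodic (fun j => |e j| + s j) p := by
    intro j
    show |e (j + p)| + s (j + p) = |e j| + s j
    rw [h.pe, h.ps]
  obtain ⟨j₀, _, hmax⟩ := Finset.exists_max_image (Finset.range p) (fun j => |e j| + s j)
    ⟨0, Finset.mem_range.2 hp⟩
  have hall : ∀ i, |e i| + s i ≤ |e j₀| + s j₀ := by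
    intro i
    have h1 : |e (i % p)| + s (i % p) = |e i| + s i := hper.map_mod_nat i
    rw [← h1]
    exact hmax _ (Finset.mem_range.2 (Nat.mod_lt _ hp))
  have hs0 := h.nn j₀
  obtain ⟨x, hx1, hx2⟩ : ∃ x : ℝ, |x - e j₀| ≤ s j₀ ∧ |x| = |e j₀| + s j₀ := by
    rcases le_total 0 (e j₀) with he | he
    · refine ⟨e j₀ + s j₀, ?_, ?_⟩
      · rw [add_sub_cancel_left, abs_of_nonneg hs0]
      · rw [abs_of_nonneg (by linarith), abs_of_nonneg he]
    · refine ⟨e j₀ - s j₀, ?_, ?_⟩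
      · rw [sub_sub_cancel_left, abs_neg, abs_of_nonneg hs0]
      · rw [abs_of_nonpos (by linarith), abs_of_nonpos he]
        ring
  have h1 := fb_real h j₀ hx1
  have h2 := hall (j₀ + 1)
  have h3 : |x ^ 2 + c| ≤ |e j₀| + s j₀ := by
    have h4 : |x ^ 2 + c| ≤ |x ^ 2 + c - e (j₀ + 1)| + |e (j₀ + 1)| := by
      have := abs_add_le (x ^ 2 + c - e (j₀ + 1)) (e (j₀ + 1))
      rwa [sub_add_cancel] at this
    linarith
  have h5 : x ^ 2 = (|e j₀| + s j₀) ^ 2 := by rw [← hx2, sq_abs]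
  have h6 : x ^ 2 - |c| ≤ |x ^ 2 + c| := by
    have := neg_abs_le c
    have := le_abs_self (x ^ 2 + c)
    linarith
  have h7 := hall j
  have h8 : 0 ≤ |e j₀| + s j₀ := by positivity
  nlinarith [hall j]

theorem fb_orb0 (h : Feas c p r e s) (hr : 0 ≤ r) (j : ℕ) : |orb c j - e j| ≤ s j := by
  induction j with
  | zero =>
    have := h.z0
    rw [orb, zero_sub, abs_neg]
    exact this
  | succ j ih =>
    have := fb_real h j ih
    rw [orb]
    linarith

theorem feas_orb (hp : 1 ≤ p) (h0 : orb c p = 0) (hr : 0 ≤ r) (h : Feas c p r e s) (j : ℕ) :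
    |orb c j - e j| + r ≤ s j := by
  have hsucc : ∀ j, |orb c (j + 1) - e (j + 1)| + r ≤ s (j + 1) := by
    intro j
    rw [orb]
    exact fb_real h j (fb_orb0 h hr j)
  rcases j with _ | j
  · obtain ⟨q, rfl⟩ : ∃ q, p = q + 1 := ⟨p - 1, by omega⟩
    have h1 := hsucc q
    rw [h0] at h1
    have h2 := h.pe 0
    have h3 := h.ps 0
    rw [zero_add] at h2 h3
    rw [h2, h3] at h1
    exact h1
  · exact hsucc j

theorem feas_spos (hp : 1 ≤ p) (h0 : orb c p = 0) (hr : 0 < r) (h : Feas c p r e s) (j : ℕ) :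
    0 < s j := by
  have h1 := feas_orb hp h0 hr.le h j
  have h2 := abs_nonneg (orb c j - e j)
  linarith

theorem feas_gap (hp : 1 ≤ p) (h0 : orb c p = 0) (hr : 0 < r) (h : Feas c p r e s) (j : ℕ) :
    0 < s (j + 1) - r := by
  by_contra hcon
  have hs := feas_spos hp h0 hr h j
  have key : ∀ z : ℂ, ‖z - e j‖ ≤ s j → z ^ 2 + c - e (j + 1) = 0 := by
    intro z hz
    have h1 := h.step j z hz
    have h2 : ‖z ^ 2 + c - e (j + 1)‖ ≤ 0 := by linarith
    exact norm_le_zero_iff.1 h2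
  have hsn : ‖((s j : ℝ) : ℂ)‖ = s j := by
    rw [Complex.norm_real, Real.norm_eq_abs, abs_of_pos hs]
  have k1 := key (e j + s j) (by rw [add_sub_cancel_left, hsn])
  have k2 := key (e j - s j) (by rw [sub_sub_cancel_left, norm_neg, hsn])
  have k3 := key (e j + s j * Complex.I) (by
    rw [add_sub_cancel_left, norm_mul, hsn, Complex.norm_I, mul_one])
  have hs' : ((s j : ℝ) : ℂ) ≠ 0 := by
    exact_mod_cast hs.ne'
  have h4 : ((e j : ℝ) : ℂ) * s j = 0 := by
    linear_combination (k1 - k2) / 4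
  have h5 : ((e j : ℝ) : ℂ) = 0 := by
    rcases mul_eq_zero.1 h4 with h5 | h5
    · exact h5
    · exact absurd h5 hs'
  rw [h5] at k1 k3
  have h6 : ((s j : ℝ) : ℂ) ^ 2 = 0 := by
    linear_combination (k1 - k3) / 2 + ((s j : ℝ) : ℂ) ^ 2 / 2 * Complex.I_sq
  exact hs' (pow_eq_zero_iff (two_ne_zero) |>.1 h6)

theorem fb_fold (h : Feas c p r e s) (l : List ℂ) : ∀ (j : ℕ) (z : ℂ), (∀ a ∈ l, ‖a - c‖ ≤ r) →
    ‖z - e j‖ ≤ s j →
      ‖l.foldl (fun z a => z ^ 2 + a) z - e (j + l.length)‖ ≤ s (j + l.length) := by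
  induction l with
  | nil =>
    intro j z _ hz
    simpa using hz
  | cons a l ih =>
    intro j z hl hz
    have h1 := h.step j z hz
    have h2 := hl a (List.mem_cons_self ..)
    have h3 : ‖z ^ 2 + a - e (j + 1)‖ ≤ s (j + 1) := by
      have h4 : z ^ 2 + a - e (j + 1) = (z ^ 2 + c - e (j + 1)) + (a - c) := by ring
      rw [h4]
      refine le_trans (norm_add_le _ _) ?_
      linarith
    have h5 := ih (j + 1) (z ^ 2 + a) (fun b hb => hl b (List.mem_cons_of_mem _ hb)) h3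
    rw [List.foldl_cons, List.length_cons]
    have h6 : j + (l.length + 1) = j + 1 + l.length := by ring
    rw [h6]
    exact h5

theorem reach_bounded (hp : 1 ≤ p) (hc : |c| ≤ 2) (hr : 0 ≤ r) (h : Feas c p r e s) :
    Bornology.IsBounded (reach c r) := by
  rw [isBounded_iff_forall_norm_le]
  refine ⟨2, ?_⟩
  rintro w ⟨l, _, hl, rfl⟩
  have h1 := fb_fold h l 0 0 hl (by
    rw [zero_sub, norm_neg, Complex.norm_real, Real.norm_eq_abs]
    exact h.z0)
  have h2 := feas_bound hp hc hr h (0 + l.length)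
  have h3 : ‖l.foldl (fun z a => z ^ 2 + a) (0 : ℂ)‖ ≤
      ‖l.foldl (fun z a => z ^ 2 + a) (0 : ℂ) - ((e (0 + l.length) : ℝ) : ℂ)‖ +
        ‖((e (0 + l.length) : ℝ) : ℂ)‖ := by
    have := norm_add_le (l.foldl (fun z a => z ^ 2 + a) 0 - ((e (0 + l.length) : ℝ) : ℂ))
      ((e (0 + l.length) : ℝ) : ℂ)
    rwa [sub_add_cancel] at this
  rw [Complex.norm_real, Real.norm_eq_abs] at h3
  linarith

end Pool.Agent.Helper56.RB
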