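import Pool.Agent.Helper56.RB.SP

namespace Pool.Agent.Helper56.RB

open Complex ComplexConjugate Metric Set Filter Topology

theorem jul_id (a b : ℂ) :
    ‖1 - conj a * b‖ ^ 2 - ‖a - b‖ ^ 2 = (1 - ‖a‖ ^ 2) * (1 - ‖b‖ ^ 2) := by
  simp only [Complex.sq_norm, Complex.normSq_apply, sub_re, sub_im, mul_re, mul_im, one_re,
    one_im, conj_re, conj_im]
  ring

theorem jul_key {h : ℂ → ℂ} (hd : Differentiable ℂ h) (hm : ∀ z, ‖z‖ ≤ 1 → ‖h z‖ ≤ 1)
    {z : ℂ} (hz : ‖z‖ < 1) {t : ℝ} (ht : |t| < 1) :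
    (1 - t ^ 2) * ((1 - ‖z‖ ^ 2) * ‖1 - conj (h t) * h z‖ ^ 2) ≤
      (1 - ‖h t‖ ^ 2) * ((1 - ‖h z‖ ^ 2) * ‖1 - t * z‖ ^ 2) := by
  have ht' : ‖(t : ℂ)‖ < 1 := by rwa [Complex.norm_real, Real.norm_eq_abs]
  have h1 := schwarz_pick (f := h) hd.differentiableOn (fun z hz => hm z hz.le) hz ht'
  rw [Complex.conj_ofReal] at h1
  have h2 : (‖h z - h t‖ * ‖1 - t * z‖) ^ 2 ≤ (‖z - t‖ * ‖1 - conj (h t) * h z‖) ^ 2 :=
    pow_le_pow_left₀ (by positivity) h1 2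
  have e1 := jul_id (h t) (h z)
  have e2 := jul_id (t : ℂ) z
  rw [Complex.conj_ofReal, Complex.norm_real, Real.norm_eq_abs, sq_abs] at e2
  rw [norm_sub_rev (h t) (h z)] at e1
  rw [norm_sub_rev (t : ℂ) z] at e2
  rw [mul_pow, mul_pow] at h2
  have e3 : ‖h z - h t‖ ^ 2 = ‖1 - conj (h t) * h z‖ ^ 2 -
      (1 - ‖h t‖ ^ 2) * (1 - ‖h z‖ ^ 2) := by linarith
  have e4 : ‖z - t‖ ^ 2 = ‖1 - t * z‖ ^ 2 - (1 - t ^ 2) * (1 - ‖z‖ ^ 2) := by linarith
  rw [e3, e4] at h2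
  nlinarith [h2]

theorem jul_deriv {h : ℂ → ℂ} (h1 : h 1 = 1) (hd1 : HasDerivAt h 1 1) :
    HasDerivAt (fun t : ℝ => ‖h t‖ ^ 2) 2 1 := by
  have a1 : HasDerivAt (fun t : ℝ => h t) 1 1 := by
    have : HasDerivAt h 1 ((1 : ℝ) : ℂ) := by simpa using hd1
    exact this.comp_ofReal
  have a2 : HasDerivAt (fun t : ℝ => (h t).re) 1 1 := by
    exact (Complex.reCLM.hasFDerivAt (x := h ((1 : ℝ) : ℂ))).comp_hasDerivAt (1 : ℝ) a1
  have a3 : HasDerivAt (fun t : ℝ => (h t).im) 0 1 := by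
    exact (Complex.imCLM.hasFDerivAt (x := h ((1 : ℝ) : ℂ))).comp_hasDerivAt (1 : ℝ) a1
  have a4 := (a2.mul a2).add (a3.mul a3)
  have e1 : (fun t : ℝ => ‖h t‖ ^ 2) =
      (fun t : ℝ => (h t).re) * (fun t : ℝ => (h t).re) +
        (fun t : ℝ => (h t).im) * (fun t : ℝ => (h t).im) := by
    funext t
    simp only [Pi.add_apply, Pi.mul_apply]
    rw [Complex.sq_norm, Complex.normSq_apply]
  rw [e1]
  refine a4.congr_deriv ?_
  have : h ((1 : ℝ) : ℂ) = 1 := by simpa using h1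
  rw [this]
  norm_num

theorem jul_weak {h : ℂ → ℂ} (hd : Differentiable ℂ h) (hm : ∀ z, ‖z‖ ≤ 1 → ‖h z‖ ≤ 1)
    (h1 : h 1 = 1) (hd1 : HasDerivAt h 1 1) {z : ℂ} (hz : ‖z‖ < 1) :
    (1 - ‖z‖ ^ 2) * ‖1 - h z‖ ^ 2 ≤ (1 - ‖h z‖ ^ 2) * ‖1 - z‖ ^ 2 := by
  have hder := jul_deriv h1 hd1
  have hs := (hasDerivAt_iff_tendsto_slope.1 hder).mono_left
    (nhdsWithin_mono (1 : ℝ) (fun x (hx : x < 1) => (ne_of_lt hx : x ∈ ({1} : Set ℝ)ᶜ)))
  have hcont : Continuous fun t : ℝ => h t := hd.continuous.comp Complex.continuous_ofReal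
  have hL : Tendsto (fun t : ℝ => (1 + t) * ((1 - ‖z‖ ^ 2) * ‖1 - conj (h t) * h z‖ ^ 2))
      (𝓝[<] 1) (𝓝 (2 * ((1 - ‖z‖ ^ 2) * ‖1 - h z‖ ^ 2))) := by
    have hc : Continuous fun t : ℝ =>
        (1 + t) * ((1 - ‖z‖ ^ 2) * ‖1 - conj (h t) * h z‖ ^ 2) := by
      have hcj : Continuous fun t : ℝ => conj (h t) := Complex.continuous_conj.comp hcont
      exact (continuous_const.add continuous_id).mul (continuous_const.mul
        ((continuous_const.sub (hcj.mul continuous_const)).norm.pow 2))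
    have := hc.tendsto 1
    have e : h ((1 : ℝ) : ℂ) = 1 := by simpa using h1
    rw [e, map_one, one_mul] at this
    norm_num at this
    exact this.mono_left nhdsWithin_le_nhds
  have hR : Tendsto (fun t : ℝ => slope (fun t : ℝ => ‖h t‖ ^ 2) 1 t *
      ((1 - ‖h z‖ ^ 2) * ‖1 - t * z‖ ^ 2))
      (𝓝[<] 1) (𝓝 (2 * ((1 - ‖h z‖ ^ 2) * ‖1 - z‖ ^ 2))) := by
    have hc : Continuous fun t : ℝ => (1 - ‖h z‖ ^ 2) * ‖1 - t * z‖ ^ 2 := by fun_prop
    have := (hc.tendsto 1).mono_left (nhdsWithin_le_nhds (s := Set.Iio (1 : ℝ)))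
    rw [Complex.ofReal_one, one_mul] at this
    exact hs.mul this
  have hle : ∀ᶠ t : ℝ in 𝓝[<] 1, (1 + t) * ((1 - ‖z‖ ^ 2) * ‖1 - conj (h t) * h z‖ ^ 2) ≤
      slope (fun t : ℝ => ‖h t‖ ^ 2) 1 t * ((1 - ‖h z‖ ^ 2) * ‖1 - t * z‖ ^ 2) := by
    have h0 : ∀ᶠ t : ℝ in 𝓝[<] 1, t ∈ Set.Ioo (0 : ℝ) 1 := Ioo_mem_nhdsLT one_pos
    filter_upwards [h0] with t ht
    have hk := jul_key hd hm hz (t := t) (by rw [abs_of_pos ht.1]; exact ht.2)
    have e : h ((1 : ℝ) : ℂ) = 1 := by simpa using h1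
    have e2 : slope (fun t : ℝ => ‖h t‖ ^ 2) 1 t = (1 - ‖h t‖ ^ 2) / (1 - t) := by
      rw [slope_def_field, e, norm_one, one_pow, ← neg_sub (1 : ℝ) (‖h t‖ ^ 2),
        ← neg_sub (1 : ℝ) t, neg_div_neg_eq]
    have hpos : 0 < 1 - t := by linarith [ht.2]
    rw [e2, div_mul_eq_mul_div, le_div_iff₀ hpos]
    calc (1 + t) * ((1 - ‖z‖ ^ 2) * ‖1 - conj (h t) * h z‖ ^ 2) * (1 - t) =
        (1 - t ^ 2) * ((1 - ‖z‖ ^ 2) * ‖1 - conj (h t) * h z‖ ^ 2) := by ring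
      _ ≤ _ := hk
  have := le_of_tendsto_of_tendsto hL hR hle
  linarith

theorem jul_lt {h : ℂ → ℂ} (hd : Differentiable ℂ h) (hm : ∀ z, ‖z‖ ≤ 1 → ‖h z‖ ≤ 1)
    (hd1 : HasDerivAt h 1 1) {z : ℂ} (hz : ‖z‖ < 1) : ‖h z‖ < 1 := by
  refine lt_of_le_of_ne (hm z hz.le) fun hcon => ?_
  have hmax : IsLocalMax (norm ∘ h) z := by
    have hn : ball (0 : ℂ) 1 ∈ 𝓝 z := isOpen_ball.mem_nhds (by simpa using hz)
    filter_upwards [hn] with y hy
    simp only [Function.comp_apply]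
    rw [hcon]
    exact hm y (by simpa using (mem_ball_zero_iff.1 hy).le)
  have hev := Complex.eventually_eq_of_isLocalMax_norm
    (Eventually.of_forall fun y => hd y) hmax
  have han : AnalyticOnNhd ℂ h univ := hd.differentiableOn.analyticOnNhd isOpen_univ
  have heq : h = fun _ => h z := han.eq_of_eventuallyEq analyticOnNhd_const hev
  have h0 : HasDerivAt h 0 1 := by
    rw [heq]
    exact hasDerivAt_const _ _
  exact one_ne_zero (hd1.unique h0)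

theorem jul_re {u : ℂ} (hu : u ≠ 1) : ((1 + u) / (1 - u)).re = (1 - ‖u‖ ^ 2) / ‖1 - u‖ ^ 2 := by
  have h1 : (1 - u) ≠ 0 := sub_ne_zero.2 (Ne.symm hu)
  have h2 : normSq (1 - u) ≠ 0 := by rwa [Ne, normSq_eq_zero]
  rw [Complex.sq_norm, Complex.sq_norm, Complex.div_re, ← add_div]
  congr 1
  simp only [Complex.normSq_apply, sub_re, sub_im, add_re, add_im, one_re, one_im]
  ring

/-- strict Julia inequality at a boundary fixed point with derivative `1` -/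
theorem julia_strict {h : ℂ → ℂ} (hd : Differentiable ℂ h) (hm : ∀ z, ‖z‖ ≤ 1 → ‖h z‖ ≤ 1)
    (h1 : h 1 = 1) (hd1 : HasDerivAt h 1 1) (hne : ∃ z, h z ≠ z) {z : ℂ} (hz : ‖z‖ < 1) :
    (1 - ‖z‖ ^ 2) * ‖1 - h z‖ ^ 2 < (1 - ‖h z‖ ^ 2) * ‖1 - z‖ ^ 2 := by
  refine lt_of_le_of_ne (jul_weak hd hm h1 hd1 hz) fun heq => ?_
  have hz1 : ∀ y : ℂ, ‖y‖ < 1 → y ≠ 1 := by
    rintro y hy rfl
    simp at hy
  have hh1 : ∀ y : ℂ, ‖y‖ < 1 → h y ≠ 1 := fun y hy => hz1 _ (jul_lt hd hm hd1 hy)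
  let Φ : ℂ → ℂ := fun y => (1 + h y) / (1 - h y) - (1 + y) / (1 - y)
  have hre : ∀ y : ℂ, ‖y‖ < 1 → (Φ y).re =
      (1 - ‖h y‖ ^ 2) / ‖1 - h y‖ ^ 2 - (1 - ‖y‖ ^ 2) / ‖1 - y‖ ^ 2 := by
    intro y hy
    rw [Complex.sub_re, jul_re (hh1 y hy), jul_re (hz1 y hy)]
  have hpos : ∀ y : ℂ, ‖y‖ < 1 → 0 < ‖1 - h y‖ ^ 2 ∧ 0 < ‖1 - y‖ ^ 2 := by
    intro y hy
    have a1 : 0 < ‖1 - h y‖ := norm_pos_iff.2 (sub_ne_zero.2 (hh1 y hy).symm)
    have a2 : 0 < ‖1 - y‖ := norm_pos_iff.2 (sub_ne_zero.2 (hz1 y hy).symm)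
    exact ⟨by positivity, by positivity⟩
  have hnn : ∀ y : ℂ, ‖y‖ < 1 → 0 ≤ (Φ y).re := by
    intro y hy
    obtain ⟨p1, p2⟩ := hpos y hy
    rw [hre y hy, sub_nonneg, div_le_div_iff₀ p2 p1]
    exact jul_weak hd hm h1 hd1 hy
  have hzero : (Φ z).re = 0 := by
    obtain ⟨p1, p2⟩ := hpos z hz
    rw [hre z hz, sub_eq_zero, div_eq_div_iff p1.ne' p2.ne']
    exact heq.symm
  have hΦ : AnalyticOnNhd ℂ Φ (ball 0 1) := by
    refine DifferentiableOn.analyticOnNhd (fun y hy => ?_) isOpen_ball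
    have hy' : ‖y‖ < 1 := by simpa using hy
    refine DifferentiableAt.differentiableWithinAt ?_
    refine DifferentiableAt.sub ?_ ?_
    · exact ((differentiableAt_const _).add (hd y)).div ((differentiableAt_const _).sub (hd y))
        (sub_ne_zero.2 (hh1 y hy').symm)
    · exact ((differentiableAt_const _).add differentiableAt_id).div
        ((differentiableAt_const _).sub differentiableAt_id) (sub_ne_zero.2 (hz1 y hy').symm)
  rcases hΦ.is_constant_or_isOpen (convex_ball (0 : ℂ) 1).isPreconnected with ⟨w, hw⟩ | hop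
  · -- constant
    have hball : ∀ y : ℂ, ‖y‖ < 1 → 2 * (h y - y) = w * ((1 - h y) * (1 - y)) := by
      intro y hy
      have e1 := hw y (by simpa using hy)
      have n1 : (1 - h y) ≠ 0 := sub_ne_zero.2 (hh1 y hy).symm
      have n2 : (1 - y) ≠ 0 := sub_ne_zero.2 (hz1 y hy).symm
      rw [← e1]
      simp only [Φ]
      field_simp
      ring
    have han1 : AnalyticOnNhd ℂ (fun y => 2 * (h y - y)) univ := by
      refine DifferentiableOn.analyticOnNhd ?_ isOpen_univ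
      exact ((differentiable_const _).mul (hd.sub differentiable_id)).differentiableOn
    have han2 : AnalyticOnNhd ℂ (fun y => w * ((1 - h y) * (1 - y))) univ := by
      refine DifferentiableOn.analyticOnNhd ?_ isOpen_univ
      exact ((differentiable_const _).mul (((differentiable_const _).sub hd).mul
        ((differentiable_const _).sub differentiable_id))).differentiableOn
    have hev : (fun y => 2 * (h y - y)) =ᶠ[𝓝 (0 : ℂ)] fun y => w * ((1 - h y) * (1 - y)) := by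
      filter_upwards [ball_mem_nhds (0 : ℂ) one_pos] with y hy
      exact hball y (by simpa using hy)
    have hall := han1.eq_of_eventuallyEq han2 hev
    by_cases hw0 : w = 0
    · obtain ⟨y, hy⟩ := hne
      have : 2 * (h y - y) = w * ((1 - h y) * (1 - y)) := congrFun hall y
      rw [hw0, zero_mul] at this
      apply hy
      have h2 : h y - y = 0 := by
        rcases mul_eq_zero.1 this with h3 | h3
        · norm_num at h3
        · exact h3
      exact sub_eq_zero.1 h2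
    · have : 2 * (h (1 + 2 / w) - (1 + 2 / w)) =
          w * ((1 - h (1 + 2 / w)) * (1 - (1 + 2 / w))) := congrFun hall (1 + 2 / w)
      have h3 : (4 : ℂ) / w = 0 := by
        have e1 : w * ((1 - h (1 + 2 / w)) * (1 - (1 + 2 / w))) = -2 * (1 - h (1 + 2 / w)) := by
          field_simp
          ring
        rw [e1] at this
        have e2 : (4 : ℂ) / w = 2 * (1 + 2 / w) - 2 := by
          field_simp
          ring
        rw [e2]
        linear_combination -this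
      rw [div_eq_zero_iff] at h3
      rcases h3 with h3 | h3
      · norm_num at h3
      · exact hw0 h3
  · -- open
    have hopen := hop (ball 0 1) subset_rfl isOpen_ball
    have hmem : Φ z ∈ Φ '' ball 0 1 := ⟨z, by simpa using hz, rfl⟩
    obtain ⟨ε, hε, hb⟩ := Metric.isOpen_iff.1 hopen _ hmem
    have hin : Φ z - ((ε / 2 : ℝ) : ℂ) ∈ ball (Φ z) ε := by
      rw [mem_ball, dist_eq_norm, sub_sub_cancel_left, norm_neg, Complex.norm_real,
        Real.norm_eq_abs, abs_of_pos (by positivity)]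
      linarith
    obtain ⟨y, hy, hy'⟩ := hb hin
    have h2 := hnn y (by simpa using hy)
    rw [hy', Complex.sub_re, hzero, Complex.ofReal_re] at h2
    linarith

end Pool.Agent.Helper56.RB
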