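import Pool.Agent.Helper56.RB.Gm
import Pool.Agent.Helper56.RB.Jul
import Pool.Agent.Helper56.RB.FB

namespace Pool.Agent.Helper56.RB

variable {c : ℝ} {p : ℕ} {r : ℝ} {e s : ℕ → ℝ} {w ν : ℕ → ℂ}

/-- abstract form on the unit disc -/
theorem acc_abs {h : ℂ → ℂ} (hd : Differentiable ℂ h) (hm : ∀ z, ‖z‖ ≤ 1 → ‖h z‖ ≤ 1)
    (h1 : h 1 = 1) (hd1 : HasDerivAt h 1 1) (hne : ∃ z, h z ≠ z)
    (hb : ∀ z, ‖z‖ ≤ 1 → ‖h z‖ = 1 → h z = 1) {x : ℂ} (hx : ‖x‖ ≤ 1) {ε : ℝ} (hε : 0 < ε) :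
    ∃ m : ℕ, ‖h^[m + 1] x - 1‖ < ε := by
  by_contra hcon
  push Not at hcon
  have hit : ∀ m : ℕ, ‖h^[m] x‖ ≤ 1 := by
    intro m
    induction m with
    | zero => exact hx
    | succ m ih =>
      rw [Function.iterate_succ_apply']
      exact hm _ ih
  set A : Set ℂ := Set.range fun m : ℕ => h^[m + 1] x with hA
  set K : Set ℂ := closure A with hK
  have hcl : IsClosed (h '' Metric.closedBall (0 : ℂ) 1) :=
    ((isCompact_closedBall (0 : ℂ) 1).image hd.continuous).isClosed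
  have hAim : A ⊆ h '' Metric.closedBall (0 : ℂ) 1 := by
    rintro _ ⟨m, rfl⟩
    refine ⟨h^[m] x, ?_, ?_⟩
    · rw [mem_closedBall_zero_iff]
      exact hit m
    · simp only
      rw [Function.iterate_succ_apply']
  have hKim : K ⊆ h '' Metric.closedBall (0 : ℂ) 1 := closure_minimal hAim hcl
  have hKc : IsCompact K :=
    ((isCompact_closedBall (0 : ℂ) 1).image hd.continuous).of_isClosed_subset isClosed_closure hKim
  have hKe : ∀ y ∈ K, ε ≤ ‖y - 1‖ := by
    have hc : IsClosed {y : ℂ | ε ≤ ‖y - 1‖} :=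
      isClosed_le continuous_const (continuous_id.sub continuous_const).norm
    have : K ⊆ {y : ℂ | ε ≤ ‖y - 1‖} := by
      refine closure_minimal ?_ hc
      rintro _ ⟨m, rfl⟩
      exact hcon m
    exact this
  have hK1 : ∀ y ∈ K, ‖y‖ < 1 := by
    intro y hy
    obtain ⟨z, hz, rfl⟩ := hKim hy
    rw [mem_closedBall_zero_iff] at hz
    refine lt_of_le_of_ne (hm z hz) fun heq => ?_
    have h2 := hKe _ hy
    rw [hb z hz heq, sub_self, norm_zero] at h2
    linarith
  have hKK : ∀ y ∈ K, h y ∈ K := by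
    have hmaps : Set.MapsTo h A A := by
      rintro _ ⟨m, rfl⟩
      refine ⟨m + 1, ?_⟩
      simp only
      rw [Function.iterate_succ_apply' h (m + 1)]
    exact hmaps.closure hd.continuous
  have hKn : K.Nonempty := ⟨h^[0 + 1] x, subset_closure ⟨0, rfl⟩⟩
  have hpos : ∀ y ∈ K, 0 < ‖1 - y‖ ^ 2 := by
    intro y hy
    have h2 := hKe y hy
    rw [norm_sub_rev] at h2
    have : 0 < ‖1 - y‖ := lt_of_lt_of_le hε h2
    positivity
  have hcont : ContinuousOn (fun y : ℂ => (1 - ‖y‖ ^ 2) / ‖1 - y‖ ^ 2) K := by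
    refine ContinuousOn.div ?_ ?_ ?_
    · exact (continuous_const.sub (continuous_norm.pow 2)).continuousOn
    · exact ((continuous_const.sub continuous_id).norm.pow 2).continuousOn
    · intro y hy
      exact (hpos y hy).ne'
  obtain ⟨q, hq, hmax⟩ := hKc.exists_isMaxOn hKn hcont
  have h2 : (1 - ‖h q‖ ^ 2) / ‖1 - h q‖ ^ 2 ≤ (1 - ‖q‖ ^ 2) / ‖1 - q‖ ^ 2 := hmax (hKK q hq)
  have h3 := julia_strict hd hm h1 hd1 hne (hK1 q hq)
  rw [div_le_div_iff₀ (hpos _ (hKK q hq)) (hpos q hq)] at h2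
  linarith

/-- the critical orbit accumulates at the parabolic boundary point -/
theorem acc (hp : 1 ≤ p) (h0 : orb c p = 0) (hr : 0 < r) (h : Feas c p r e s)
    (hO : Orb c r e s p w ν) (ε : ℝ) (hε : 0 < ε) :
    ∃ m : ℕ, ‖(Gm c r ν (2 * p))^[m + 1] 0 - w 0‖ < ε := by
  have hs : 0 < s 0 := feas_spos hp h0 hr h 0
  have he0 : |e 0| ≤ s 0 := h.z0
  have hper : e (2 * p) = e 0 := by
    have h1 := h.pe 0
    have h2 := h.pe (0 + p)
    rw [two_mul]
    rw [zero_add] at h1 h2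
    rw [h2, h1]
  have hsper : s (2 * p) = s 0 := by
    have h1 := h.ps 0
    have h2 := h.ps (0 + p)
    rw [two_mul]
    rw [zero_add] at h1 h2
    rw [h2, h1]
  set g : ℂ → ℂ := Gm c r ν (2 * p) with hg
  have hgD : ∀ z : ℂ, ‖z - e 0‖ ≤ s 0 → ‖g z - e 0‖ ≤ s 0 := by
    intro z hz
    have := gm_mem hr.le h hO.nν (2 * p) hz
    rwa [hper, hsper] at this
  have hgw : g (w 0) = w 0 := by
    rw [hg, gm_w hO, w_per h hO]
  obtain ⟨P, hPdeg, hP⟩ := gm_poly c r ν (2 * p)
  have hgd : Differentiable ℂ g := by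
    have : g = fun z => P.eval z := funext hP
    rw [this]
    exact P.differentiable
  -- the rescaling
  set a : ℂ := s 0 * ν 0 with ha
  have hna : ‖a‖ = s 0 := by
    rw [ha, norm_mul, Complex.norm_real, Real.norm_of_nonneg hs.le, hO.nν, mul_one]
  have ha0 : a ≠ 0 := by
    intro h1
    rw [h1, norm_zero] at hna
    linarith
  have hw0 : w 0 = e 0 + a := hO.hw 0
  let φ : ℂ → ℂ := fun x => e 0 + a * x
  let k : ℂ → ℂ := fun x => (g (φ x) - e 0) / a
  have hφk : ∀ x, g (φ x) = φ (k x) := by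
    intro x
    simp only [φ, k]
    rw [mul_div_cancel₀ _ ha0]
    ring
  have hφn : ∀ x, ‖φ x - e 0‖ = s 0 * ‖x‖ := by
    intro x
    simp only [φ]
    rw [add_sub_cancel_left, norm_mul, hna]
  have hφD : Differentiable ℂ φ := (differentiable_const _).add (differentiable_id.const_mul a)
  have hkd : Differentiable ℂ k := ((hgd.comp hφD).sub_const _).div_const _
  have hkn : ∀ x, ‖k x‖ = ‖g (φ x) - e 0‖ / s 0 := by
    intro x
    simp only [k]
    rw [norm_div, hna]
  have hkm : ∀ x, ‖x‖ ≤ 1 → ‖k x‖ ≤ 1 := by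
    intro x hx
    rw [hkn, div_le_one hs]
    apply hgD
    rw [hφn]
    exact mul_le_of_le_one_right hs.le hx
  have hφ1 : φ 1 = w 0 := by
    simp only [φ]
    rw [mul_one, hw0]
  have hk1 : k 1 = 1 := by
    simp only [k]
    rw [hφ1, hgw, hw0, add_sub_cancel_left, div_self ha0]
  have hkd1 : HasDerivAt k 1 1 := by
    have h1 : HasDerivAt φ a 1 := by
      have := ((hasDerivAt_id (1 : ℂ)).const_mul a).const_add (e 0 : ℂ)
      rw [mul_one] at this
      exact this
    have h2 : HasDerivAt g 1 (φ 1) := by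
      rw [hφ1]
      exact gm_deriv hO
    have h3 := ((h2.comp (1 : ℂ) h1).sub_const (e 0 : ℂ)).div_const a
    have h4 : 1 * a / a = 1 := by rw [one_mul, div_self ha0]
    rw [h4] at h3
    exact h3
  have hkne : ∃ z, k z ≠ z := by
    by_contra hcon
    push Not at hcon
    have h1 : ∀ y, P.eval y = y := by
      intro y
      have h2 : φ ((y - e 0) / a) = y := by
        simp only [φ]
        rw [mul_div_cancel₀ _ ha0]
        ring
      have h3 := hφk ((y - e 0) / a)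
      rw [hcon, h2] at h3
      rw [← hP]
      exact h3
    have h2 : P = Polynomial.X := by
      apply Polynomial.funext
      intro y
      rw [h1, Polynomial.eval_X]
    rw [h2, Polynomial.natDegree_X] at hPdeg
    have h3 : 2 ^ 1 ≤ 2 ^ (2 * p) := Nat.pow_le_pow_right (by norm_num) (by omega)
    omega
  have hkb : ∀ z, ‖z‖ ≤ 1 → ‖k z‖ = 1 → k z = 1 := by
    intro z hz hz1
    rw [hkn, div_eq_one_iff_eq hs.ne'] at hz1
    have h1 : ‖φ z - e 0‖ ≤ s 0 := by
      rw [hφn]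
      exact mul_le_of_le_one_right hs.le hz
    have h2 := gm_bdry hp hr h hO h1 hz1
    simp only [k]
    change (Gm c r ν (2 * p) (φ z) - e 0) / a = 1
    rw [h2, hw0, add_sub_cancel_left, div_self ha0]
  set x0 : ℂ := (0 - e 0) / a with hx0
  have hφx0 : φ x0 = 0 := by
    simp only [φ, hx0]
    rw [mul_div_cancel₀ _ ha0]
    ring
  have hx0n : ‖x0‖ ≤ 1 := by
    rw [hx0, norm_div, hna, div_le_one hs, zero_sub, norm_neg, Complex.norm_real, Real.norm_eq_abs]
    exact he0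
  obtain ⟨m, hm⟩ := acc_abs hkd hkm hk1 hkd1 hkne hkb hx0n (ε := ε / s 0) (by positivity)
  refine ⟨m, ?_⟩
  have hit : ∀ n : ℕ, g^[n] 0 = φ (k^[n] x0) := by
    intro n
    induction n with
    | zero => simp only [Function.iterate_zero, id]; rw [hφx0]
    | succ n ih => rw [Function.iterate_succ_apply', Function.iterate_succ_apply', ih, hφk]
  rw [hit, ← hφ1]
  have h1 : φ (k^[m + 1] x0) - φ 1 = a * (k^[m + 1] x0 - 1) := by
    simp only [φ]
    ring
  rw [h1, norm_mul, hna]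
  calc s 0 * ‖k^[m + 1] x0 - 1‖ < s 0 * (ε / s 0) := mul_lt_mul_of_pos_left hm hs
    _ = ε := by field_simp

end Pool.Agent.Helper56.RB
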