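import Pool.Agent.Helper56.RB.Der

namespace Pool.Agent.Helper56.RB

theorem alg_step {D : Derivation ℚ ℝ ℝ} {c r e s e' s' X Y X' Y' W : ℝ} (hc : D c = 0)
    (hW : W ≠ 0) (h1 : X * X + Y * Y = 1) (h1' : X' * X' + Y' * Y' = 1)
    (ha : (e + s * X) * (e + s * X) - (s * Y) * (s * Y) + c - e' = (s' - r) * X')
    (hb : (e + s * X) * (s * Y) + (e + s * X) * (s * Y) = (s' - r) * Y')
    (hd1 : (e + s * X) * X - (s * Y) * Y = W * X')
    (hd2 : (e + s * X) * Y + (s * Y) * X = W * Y')
    (hW2 : W * W = (e + s * X) * (e + s * X) + (s * Y) * (s * Y)) :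
    D s' + D e' * X' = 2 * W * (D s + D e * X) + D r := by
  have d1 := congrArg D h1
  have d1' := congrArg D h1'
  have da := congrArg D ha
  have db := congrArg D hb
  simp only [map_add, map_sub, Derivation.leibniz, smul_eq_mul, Derivation.map_one_eq_zero, hc,
    add_zero] at d1 d1' da db
  have k1 : (e + s * X) * X' + (s * Y) * Y' = W * X := by
    have : W * ((e + s * X) * X' + (s * Y) * Y') = W * (W * X) := by
      have e1 : W * ((e + s * X) * X' + (s * Y) * Y')
          = (e + s * X) * (W * X') + (s * Y) * (W * Y') := by ring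
      rw [e1, ← hd1, ← hd2, ← mul_assoc, hW2]
      ring
    exact mul_left_cancel₀ hW this
  have k2 : (e + s * X) * Y' - (s * Y) * X' = W * Y := by
    have : W * ((e + s * X) * Y' - (s * Y) * X') = W * (W * Y) := by
      have e1 : W * ((e + s * X) * Y' - (s * Y) * X')
          = (e + s * X) * (W * Y') - (s * Y) * (W * X') := by ring
      rw [e1, ← hd1, ← hd2, ← mul_assoc, hW2]
      ring
    exact mul_left_cancel₀ hW this
  have q1 : X * D X + Y * D Y = 0 := by linarith
  have q1' : X' * D X' + Y' * D Y' = 0 := by linarith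
  -- abbreviations
  set DU := D e + (s * D X + X * D s) with hDU
  set DV := s * D Y + Y * D s with hDV
  have L : X' * (2 * (e + s * X) * DU - 2 * (s * Y) * DV - D e')
      + Y' * (2 * (e + s * X) * DV + 2 * (s * Y) * DU) = D s' - D r := by
    have r1 : 2 * (e + s * X) * DU - 2 * (s * Y) * DV - D e'
        = (s' - r) * D X' + X' * (D s' - D r) := by linarith
    have r2 : 2 * (e + s * X) * DV + 2 * (s * Y) * DU
        = (s' - r) * D Y' + Y' * (D s' - D r) := by linarith
    rw [r1, r2]
    calc X' * ((s' - r) * D X' + X' * (D s' - D r)) + Y' * ((s' - r) * D Y' + Y' * (D s' - D r))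
        = (s' - r) * (X' * D X' + Y' * D Y') + (D s' - D r) * (X' * X' + Y' * Y') := by ring
      _ = D s' - D r := by rw [q1', h1']; ring
  have L2 : 2 * W * (X * DU + Y * DV) - X' * D e' = D s' - D r := by
    calc 2 * W * (X * DU + Y * DV) - X' * D e'
        = 2 * DU * (W * X) + 2 * DV * (W * Y) - X' * D e' := by ring
      _ = 2 * DU * ((e + s * X) * X' + (s * Y) * Y')
          + 2 * DV * ((e + s * X) * Y' - (s * Y) * X') - X' * D e' := by rw [k1, k2]
      _ = X' * (2 * (e + s * X) * DU - 2 * (s * Y) * DV - D e')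
          + Y' * (2 * (e + s * X) * DV + 2 * (s * Y) * DU) := by ring
      _ = D s' - D r := L
  have L3 : X * DU + Y * DV = D s + D e * X := by
    calc X * DU + Y * DV = D e * X + D s * (X * X + Y * Y) + s * (X * D X + Y * D Y) := by
          rw [hDU, hDV]; ring
      _ = D s + D e * X := by rw [q1, h1]; ring
  rw [L3] at L2
  linarith

/-- the radius of a chain with a closed critical orbit is algebraic -/
theorem alg_of_orb {c r : ℝ} {e s : ℕ → ℝ} {p : ℕ} {w ν : ℕ → ℂ} (hp : 1 ≤ p)
    (hc : IsAlgebraic ℚ c) (pe : ∀ j, e (j + p) = e j) (ps : ∀ j, s (j + p) = s j)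
    (hs : ∀ j, 0 < s j) (hsr : ∀ j, 0 < s (j + 1) - r) (hO : Orb c r e s p w ν) :
    IsAlgebraic ℚ r := by
  by_contra hr
  obtain ⟨D, hD⟩ := exists_derivation hr
  have hDc : D c = 0 := derivation_algebraic hc D
  -- norms of `w j` are nonzero for `j < 2 p`
  have hw0 : ∀ j, j < 2 * p → ‖w j‖ ≠ 0 := by
    intro j hj h0
    have : ∏ j ∈ Finset.range (2 * p), (2 * ‖w j‖) = 0 :=
      Finset.prod_eq_zero (Finset.mem_range.2 hj) (by rw [h0, mul_zero])
    rw [hO.prod] at this
    exact one_ne_zero this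
  have hnν : ∀ j, (ν j).re * (ν j).re + (ν j).im * (ν j).im = 1 := by
    intro j
    have h := hO.nν j
    have h2 : Complex.normSq (ν j) = 1 := by
      rw [Complex.normSq_eq_norm_sq, h]; norm_num
    rwa [Complex.normSq_apply] at h2
  have step : ∀ j, j < 2 * p →
      D (s (j + 1)) + D (e (j + 1)) * (ν (j + 1)).re
        = 2 * ‖w j‖ * (D (s j) + D (e j) * (ν j).re) + D r := by
    intro j hj
    have hwre : (w j).re = e j + s j * (ν j).re := by
      rw [hO.hw j]; simp
    have hwim : (w j).im = s j * (ν j).im := by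
      rw [hO.hw j]; simp
    have h1 := congrArg Complex.re (hO.hs j)
    have h2 := congrArg Complex.im (hO.hs j)
    have h3 := congrArg Complex.re (hO.tan j)
    have h4 := congrArg Complex.im (hO.tan j)
    have h5 : ‖w j‖ * ‖w j‖ = (w j).re * (w j).re + (w j).im * (w j).im := by
      have := Complex.normSq_eq_norm_sq (w j)
      rw [Complex.normSq_apply] at this
      nlinarith [this]
    rw [hwre, hwim] at h5
    have hsub : ((s (j + 1) : ℂ) - (r : ℂ)) = ((s (j + 1) - r : ℝ) : ℂ) := by push_cast; rfl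
    rw [hsub] at h1 h2
    simp only [pow_two, Complex.add_re, Complex.sub_re, Complex.mul_re, Complex.mul_im,
      Complex.add_im, Complex.sub_im, Complex.ofReal_re, Complex.ofReal_im, hwre, hwim,
      zero_mul, sub_zero, add_zero] at h1 h2 h3 h4
    exact alg_step hDc (hw0 j hj) (hnν j) (hnν (j + 1)) h1 (by linarith) h3 (by linarith) h5
  -- iterate
  have iter : ∀ n, n ≤ 2 * p → ∃ S : ℝ, 0 ≤ S ∧ (1 ≤ n → 1 ≤ S) ∧
      D (s n) + D (e n) * (ν n).re
        = (∏ j ∈ Finset.range n, (2 * ‖w j‖)) * (D (s 0) + D (e 0) * (ν 0).re) + S * D r := by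
    intro n
    induction n with
    | zero => intro _; exact ⟨0, le_refl _, by omega, by simp⟩
    | succ n ih =>
      intro hn
      obtain ⟨S, hS, -, hE⟩ := ih (by omega)
      refine ⟨2 * ‖w n‖ * S + 1, by positivity, fun _ => ?_, ?_⟩
      · have : 0 ≤ 2 * ‖w n‖ * S := by positivity
        linarith
      · rw [step n (by omega), hE, Finset.prod_range_succ]
        ring
  obtain ⟨S, -, hS, hE⟩ := iter (2 * p) (le_refl _)
  have hS1 : 1 ≤ S := hS (by omega)
  have e2 : e (2 * p) = e 0 := by
    have h1 := pe p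
    have h2 := pe 0
    rw [zero_add] at h2
    rw [two_mul, h1, h2]
  have s2 : s (2 * p) = s 0 := by
    have h1 := ps p
    have h2 := ps 0
    rw [zero_add] at h2
    rw [two_mul, h1, h2]
  have n2 : ν (2 * p) = ν 0 := by
    have h2 := hO.per 0
    rwa [zero_add] at h2
  rw [e2, s2, n2, hO.prod, one_mul] at hE
  have : S * D r = 0 := by linarith
  rcases mul_eq_zero.1 this with h | h
  · linarith
  · exact hD h

end Pool.Agent.Helper56.RB
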