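import Pool.Agent.Helper56.RB.Defs

/-!
# Working definitions

`c` is a real parameter, `p` its period. A chain of discs is given by `p`-periodic sequences of
real centres `e j` and radii `s j`.
-/

namespace Pool.Agent.Helper56.RB

/-- the critical orbit `0, c, c ^ 2 + c, …` of a real parameter -/
def orb (c : ℝ) : ℕ → ℝ
  | 0 => 0
  | j + 1 => orb c j ^ 2 + c

/-- the leftmost real parameters of period `p` -/
structure Tip (c : ℝ) (p : ℕ) : Prop where
  two_le : 2 ≤ p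
  ge : -2 ≤ c
  neg : c < 0
  zero : orb c p = 0
  posj : ∀ j, 2 ≤ j → j < p → 0 < orb c j

/-- `(e, s)` is a cyclic chain of `p` discs (real centres `e j`, radii `s j`) with `0` in the first
disc, such that every map `z ^ 2 + c'`, `|c' - c| ≤ r`, sends each disc into the next one -/
structure Feas (c : ℝ) (p : ℕ) (r : ℝ) (e s : ℕ → ℝ) : Prop where
  pe : ∀ j, e (j + p) = e j
  ps : ∀ j, s (j + p) = s j
  nn : ∀ j, 0 ≤ s j
  z0 : |e 0| ≤ s 0
  step : ∀ j, ∀ z : ℂ, ‖z - e j‖ ≤ s j → ‖z ^ 2 + c - e (j + 1)‖ + r ≤ s (j + 1)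

/-- a chain with the largest possible `r` -/
structure Opt (c : ℝ) (p : ℕ) (r : ℝ) (e s : ℕ → ℝ) : Prop where
  feas : Feas c p r e s
  pos : 0 < r
  max : ∀ (r' : ℝ) (e' s' : ℕ → ℝ), Feas c p r' e' s' → r' ≤ r

/-- `z` is a touching point: `z` on the circle `j`, with outer normal `ν`, and `z ^ 2 + c` is
exactly at distance `r` from the circle `j + 1`, in the direction `ν'` -/
structure Tch (c r : ℝ) (e s : ℕ → ℝ) (j : ℕ) (z ν ν' : ℂ) : Prop where
  nν : ‖ν‖ = 1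
  nν' : ‖ν'‖ = 1
  hz : z = e j + s j * ν
  hz' : z ^ 2 + c - e (j + 1) = (s (j + 1) - r) * ν'
  tan : z * ν = ‖z‖ * ν'

/-- first order optimality of the chain -/
def KKT (c : ℝ) (p : ℕ) (r : ℝ) (e s : ℕ → ℝ) : Prop :=
  ∀ u v : ℕ → ℝ, (∀ j, u (j + p) = u j) → (∀ j, v (j + p) = v j) →
    ∃ j, ∃ z ν ν' : ℂ, Tch c r e s j z ν ν' ∧
      u (j + 1) + v (j + 1) * ν'.re ≤ 2 * ‖z‖ * (u j + v j * ν.re)

/-- a closed critical orbit through the touching points -/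
structure Orb (c r : ℝ) (e s : ℕ → ℝ) (p : ℕ) (w ν : ℕ → ℂ) : Prop where
  nν : ∀ j, ‖ν j‖ = 1
  hw : ∀ j, w j = e j + s j * ν j
  hs : ∀ j, w j ^ 2 + c - e (j + 1) = (s (j + 1) - r) * ν (j + 1)
  tan : ∀ j, w j * ν j = ‖w j‖ * ν (j + 1)
  per : ∀ j, ν (j + 2 * p) = ν j
  prod : ∏ j ∈ Finset.range (2 * p), (2 * ‖w j‖) = 1

/-- the composition of the first `n` maps along the closed orbit -/
noncomputable def Gm (c r : ℝ) (ν : ℕ → ℂ) : ℕ → ℂ → ℂ
  | 0, z => z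
  | n + 1, z => Gm c r ν n z ^ 2 + (c + r * ν (n + 1))

end Pool.Agent.Helper56.RB
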