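import Pool.Agent.Helper56.RB.Base

namespace Pool.Agent.Helper56.RB

open Polynomial

/-- Cartan uniqueness: bounded iterates near a fixed point with multiplier `1` -/
theorem cartan (P : ℂ[X]) (a : ℂ) (ρ B : ℝ) (hρ : 0 < ρ) (ha : P.eval a = a)
    (hd : P.derivative.eval a = 1)
    (hB : ∀ (n : ℕ) (z : ℂ), ‖z - a‖ ≤ ρ → ‖(fun w => P.eval w)^[n] z‖ ≤ B) : P = X := by
  by_contra hne
  have hR : P - X ≠ 0 := sub_ne_zero.2 hne
  obtain ⟨q, hq, hqd⟩ := Polynomial.exists_eq_pow_rootMultiplicity_mul_and_not_dvd (P - X) hR a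
  set k := (P - X).rootMultiplicity a with hk
  have hqa : q.eval a ≠ 0 := by
    intro h
    exact hqd (Polynomial.dvd_iff_isRoot.2 h)
  have hdvd : X - C a ∣ P - C a := by
    rw [Polynomial.dvd_iff_isRoot, Polynomial.IsRoot, eval_sub, eval_C, ha, sub_self]
  obtain ⟨t, ht⟩ := hdvd
  have hta : t.eval a = 1 := by
    have h1 : (P - C a).derivative.eval a = 1 := by
      rw [derivative_sub, derivative_C, sub_zero, hd]
    rw [ht, derivative_mul, eval_add, eval_mul, eval_mul] at h1
    simpa using h1
  let Q : ℕ → ℂ[X] := fun n => Nat.rec 0 (fun _ r => t ^ k * r.comp P + q) n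
  have hQs : ∀ n, Q (n + 1) = t ^ k * (Q n).comp P + q := fun n => rfl
  have hev : ∀ n z, (fun w => P.eval w)^[n] z - z = (z - a) ^ k * (Q n).eval z := by
    intro n
    induction n with
    | zero =>
        intro z
        have h0 : Q 0 = 0 := rfl
        rw [h0]
        simp
    | succ n ih =>
        intro z
        rw [Function.iterate_succ_apply, hQs]
        have h1 := ih (P.eval z)
        have h2 : P.eval z - z = (z - a) ^ k * q.eval z := by
          have h3 := congrArg (Polynomial.eval z) hq
          simpa using h3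
        have h3 : P.eval z - a = (z - a) * t.eval z := by
          have h4 := congrArg (Polynomial.eval z) ht
          simpa using h4
        rw [h3] at h1
        have h5 : (fun w => P.eval w)^[n] (P.eval z) - z =
            ((fun w => P.eval w)^[n] (P.eval z) - P.eval z) + (P.eval z - z) := by ring
        rw [h5, h1, h2, eval_add, eval_mul, eval_pow, eval_comp, mul_pow]
        ring
  have hQa : ∀ n, (Q n).eval a = n * q.eval a := by
    intro n
    induction n with
    | zero =>
        have h0 : Q 0 = 0 := rfl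
        rw [h0]; simp
    | succ n ih =>
        rw [hQs, eval_add, eval_mul, eval_pow, eval_comp, ha, hta, ih]
        push_cast
        ring
  have hmax : ∀ n, ‖(Q n).eval a‖ ≤ (B + (‖a‖ + ρ)) / ρ ^ k := by
    intro n
    have hd' : DiffContOnCl ℂ (fun z => (Q n).eval z) (Metric.ball a ρ) :=
      (Polynomial.differentiable (Q n)).diffContOnCl
    refine Complex.norm_le_of_forall_mem_frontier_norm_le Metric.isBounded_ball hd' ?_
      (subset_closure (Metric.mem_ball_self hρ))
    intro z hz
    rw [frontier_ball a hρ.ne', mem_sphere_iff_norm] at hz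
    have h1 := hev n z
    have h2 : ‖(z - a) ^ k * (Q n).eval z‖ ≤ B + (‖a‖ + ρ) := by
      rw [← h1]
      refine (norm_sub_le _ _).trans (add_le_add (hB n z hz.le) ?_)
      have h3 : z = a + (z - a) := by ring
      rw [h3]
      refine (norm_add_le _ _).trans ?_
      rw [hz]
    rw [norm_mul, norm_pow, hz] at h2
    rw [le_div_iff₀ (by positivity), mul_comm]
    exact h2
  obtain ⟨n, hn⟩ := exists_nat_gt ((B + (‖a‖ + ρ)) / ρ ^ k / ‖q.eval a‖)
  have h1 := hmax n
  rw [hQa, norm_mul, Complex.norm_natCast] at h1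
  rw [div_lt_iff₀ (norm_pos_iff.2 hqa)] at hn
  linarith

end Pool.Agent.Helper56.RB
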