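import Mathlib

/-!
# The bifurcation radius of random iteration of quadratic polynomials: definitions
-/

namespace Pool.Agent.Helper56.RB

/-- The set `P(c, r)`: all values `g(0)`, where `g = f_{c_n} ∘ ⋯ ∘ f_{c_1}` is a finite composition
(`n ≥ 1`) of quadratic polynomials `f_{c_i}(z) = z ^ 2 + c_i` with every `c_i` in the closed disc
of centre `c` and radius `r`. The list `l` is `[c_1, …, c_n]`. -/
def reach (c : ℂ) (r : ℝ) : Set ℂ :=
  {w | ∃ l : List ℂ, l ≠ [] ∧ (∀ a ∈ l, ‖a - c‖ ≤ r) ∧ l.foldl (fun z a => z ^ 2 + a) 0 = w}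

/-- The bifurcation radius: the supremum of all `r ≥ 0` for which `P(c, r)` is bounded. -/
noncomputable def rbif (c : ℂ) : ℝ := sSup {r : ℝ | 0 ≤ r ∧ Bornology.IsBounded (reach c r)}

end Pool.Agent.Helper56.RB
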