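import Pool.Agent.Helper56.RB.Base

namespace Pool.Agent.Helper56.RB

variable {c : ℝ} {p : ℕ} {r : ℝ} {e s : ℕ → ℝ}

private theorem deg_mod {f : ℕ → ℝ} (hf : ∀ j, f (j + p) = f j) (j : ℕ) : f (j % p) = f j := by
  have h : ∀ k i, f (i + p * k) = f i := by
    intro k
    induction k with
    | zero => intro i; simp
    | succ k ih =>
      intro i
      rw [show i + p * (k + 1) = (i + p * k) + p by ring, hf, ih]
  conv_rhs => rw [← Nat.mod_add_div j p]
  rw [h]

private theorem deg_mod' {f : ℕ → ℝ} (hf : ∀ j, f (j + p) = f j) (j : ℕ) :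
    f (j % p + 1) = f (j + 1) :=
  deg_mod (f := fun i => f (i + 1)) (fun i => by
    show f (i + p + 1) = f (i + 1)
    rw [show i + p + 1 = (i + 1) + p by ring, hf]) j

/-- the degenerate case: the disc `0` is centred at `0` and the disc `1` is centred at `c` -/
theorem matching_deg (hp : 2 ≤ p) (pe : ∀ j, e (j + p) = e j) (ps : ∀ j, s (j + p) = s j)
    (hK : KKT c p r e s)
    (hb : ∀ (j : ℕ) (z ν ν' : ℂ), Tch c r e s j z ν ν' → 2 * ‖z‖ ≤ 4) (κ₀ : ℝ) (hκ₀ : 0 < κ₀)
    (h0 : ∀ z ν ν' : ℂ, Tch c r e s 0 z ν ν' → 2 * ‖z‖ = κ₀ ∧ ν'.re = 2 * ν.re ^ 2 - 1)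
    (x₁ ε : ℝ) (h1 : ∀ z ν ν' : ℂ, Tch c r e s 1 z ν ν' → ν.re = x₁) (hε : ε ^ 2 = 1)
    (hε' : ∀ z ν ν' : ℂ, Tch c r e s (p - 1) z ν ν' → ν'.re = ε) : 1 ≤ x₁ := by
  by_contra hx
  push Not at hx
  obtain ⟨w, hw⟩ : ∃ w : ℝ, w * (1 - x₁) = 8 * 5 ^ p :=
    ⟨8 * 5 ^ p / (1 - x₁), by field_simp [show (1 - x₁) ≠ 0 by linarith]⟩
  have h5 : (0 : ℝ) < 5 ^ p := by positivity
  have hwpos : 0 < w := by
    by_contra hcon
    push Not at hcon
    have : w * (1 - x₁) ≤ 0 := mul_nonpos_of_nonpos_of_nonneg hcon (by linarith)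
    linarith
  set u0 : ℕ → ℝ := fun k => if k = 0 then -w * (3 + x₁) / 4 - w * (1 - x₁) / 8
    else if k = 1 then -κ₀ * w * x₁ / 4 else 5 ^ (k - 2) with hu0
  set v0 : ℕ → ℝ := fun k => if k = 0 then ε * w else if k = 1 then κ₀ * w / 4 else 0 with hv0
  obtain ⟨j, z, ν, ν', hT, hle⟩ := hK (fun j => u0 (j % p)) (fun j => v0 (j % p))
    (fun j => by simp) (fun j => by simp)
  have hT' : Tch c r e s (j % p) z ν ν' := by
    obtain ⟨a1, a2, a3, a4, a5⟩ := hT
    refine ⟨a1, a2, ?_, ?_, a5⟩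
    · rw [deg_mod pe, deg_mod ps]; exact a3
    · rw [deg_mod' pe, deg_mod' ps]; exact a4
  have hm : j % p < p := Nat.mod_lt _ (by omega)
  have hmj : (j + 1) % p = (j % p + 1) % p := by rw [Nat.mod_add_mod]
  simp only [hmj] at hle
  generalize j % p = m at hT' hle hm
  have hzb := hb m z ν ν' hT'
  have hzn : 0 ≤ 2 * ‖z‖ := by positivity
  rcases Nat.eq_zero_or_pos m with hm0 | hm0
  · subst hm0
    obtain ⟨g1, g2⟩ := h0 z ν ν' hT'
    rw [Nat.zero_add, Nat.mod_eq_of_lt (by omega : 1 < p), g1, g2] at hle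
    simp only [hu0, hv0, if_true, one_ne_zero, if_false] at hle
    have h6 : 0 ≤ κ₀ * w * (1 - ε * ν.re) ^ 2 := by positivity
    have h7 : (1 - ε * ν.re) ^ 2 = 1 - 2 * ε * ν.re + ν.re ^ 2 := by
      have : (1 - ε * ν.re) ^ 2 = 1 - 2 * ε * ν.re + ε ^ 2 * ν.re ^ 2 := by ring
      rw [this, hε]; ring
    rw [h7] at h6
    have h8 : 0 < κ₀ * (w * (1 - x₁)) := by rw [hw]; positivity
    nlinarith
  · rcases Nat.lt_or_ge (m + 1) p with hmp | hmp
    · rw [Nat.mod_eq_of_lt hmp] at hle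
      have hn1 : m + 1 ≠ 0 := by omega
      have hn2 : m + 1 ≠ 1 := by omega
      simp only [hu0, hv0, if_neg hn1, if_neg hn2, zero_mul, add_zero] at hle
      rcases Nat.lt_or_ge 1 m with hm1 | hm1
      · rw [if_neg (by omega), if_neg (by omega), if_neg (by omega), if_neg (by omega), zero_mul,
          add_zero] at hle
        obtain ⟨k, rfl⟩ : ∃ k, m = k + 2 := ⟨m - 2, by omega⟩
        have e1 : k + 2 + 1 - 2 = k + 1 := by omega
        have e2 : k + 2 - 2 = k := by omega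
        rw [e1, e2, pow_succ] at hle
        have h6 : (0 : ℝ) < 5 ^ k := by positivity
        nlinarith
      · have : m = 1 := by omega
        subst this
        rw [h1 z ν ν' hT'] at hle
        simp only [one_ne_zero, if_false, if_true] at hle
        have e1 : -κ₀ * w * x₁ / 4 + κ₀ * w / 4 * x₁ = 0 := by ring
        rw [e1, mul_zero] at hle
        norm_num at hle
    · have hmp' : m + 1 = p := by omega
      rw [hmp', Nat.mod_self] at hle
      have hTp : Tch c r e s (p - 1) z ν ν' := by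
        have : p - 1 = m := by omega
        rw [this]; exact hT'
      rw [hε' z ν ν' hTp] at hle
      simp only [hu0, hv0, if_true] at hle
      have e0 : -w * (3 + x₁) / 4 - w * (1 - x₁) / 8 + ε * w * ε = 5 ^ p := by
        have : -w * (3 + x₁) / 4 - w * (1 - x₁) / 8 + ε * w * ε
          = (w * (1 - x₁)) / 8 + w * (ε ^ 2 - 1) := by ring
        rw [this, hw, hε]; ring
      rw [e0] at hle
      rcases Nat.lt_or_ge 1 m with hm1 | hm1
      · rw [if_neg (by omega), if_neg (by omega), if_neg (by omega), if_neg (by omega), zero_mul,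
          add_zero] at hle
        have h6 : (0 : ℝ) < 5 ^ (m - 2) := by positivity
        have h7 : (5 : ℝ) ^ p = 5 ^ (m - 2) * 125 := by
          rw [show p = (m - 2) + 3 by omega, pow_add]
          norm_num
        rw [h7] at hle
        nlinarith
      · have : m = 1 := by omega
        subst this
        rw [h1 z ν ν' hT'] at hle
        simp only [one_ne_zero, if_false, if_true] at hle
        have e1 : -κ₀ * w * x₁ / 4 + κ₀ * w / 4 * x₁ = 0 := by ring
        rw [e1, mul_zero] at hle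
        linarith

end Pool.Agent.Helper56.RB
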