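import Pool.Agent.Helper56.RB.Base

namespace Pool.Agent.Helper56.RB

open scoped IntermediateField.algebraAdjoinAdjoin in
private theorem der_etale {ι : Type*} {v : ι → ℝ} (hb : IsTranscendenceBasis ℚ v) :
    Algebra.FormallyEtale (Algebra.adjoin ℚ (Set.range v)) ℝ := by
  have h1 : Algebra.FormallyEtale (Algebra.adjoin ℚ (Set.range v))
      (IntermediateField.adjoin ℚ (Set.range v)) :=
    .of_isLocalization (nonZeroDivisors _)
  have h2 : Algebra.IsAlgebraic (IntermediateField.adjoin ℚ (Set.range v)) ℝ :=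
    hb.isAlgebraic_field
  have h3 : Algebra.IsSeparable (IntermediateField.adjoin ℚ (Set.range v)) ℝ := inferInstance
  have h4 : Algebra.FormallyEtale (IntermediateField.adjoin ℚ (Set.range v)) ℝ :=
    Algebra.FormallyEtale.of_isSeparable _ ℝ
  exact .comp _ (IntermediateField.adjoin ℚ (Set.range v)) _

open TensorProduct in
theorem exists_derivation {x : ℝ} (hx : ¬ IsAlgebraic ℚ x) :
    ∃ D : Derivation ℚ ℝ ℝ, D x ≠ 0 := by
  classical
  have h0 : AlgebraicIndepOn ℚ id ({x} : Set ℝ) := by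
    have h1 : AlgebraicIndependent ℚ (fun i : ({x} : Set ℝ) => (i : ℝ)) := by
      rw [algebraicIndependent_unique_type_iff]
      exact hx
    exact h1
  obtain ⟨t, hxt, ht⟩ := exists_isTranscendenceBasis_superset h0
  have hx' : x ∈ t := hxt rfl
  set v : t → ℝ := fun i => (i : ℝ) with hv
  have het := der_etale ht
  let K0 := Algebra.adjoin ℚ (Set.range v)
  let e : MvPolynomial t ℚ ≃ₐ[ℚ] K0 := ht.1.aevalEquiv
  let L0 : K0 →ₗ[ℚ] K0 := e.toLinearMap ∘ₗ
    (MvPolynomial.pderiv (R := ℚ) (⟨x, hx'⟩ : t) : MvPolynomial t ℚ →ₗ[ℚ] MvPolynomial t ℚ) ∘ₗ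
      e.symm.toLinearMap
  have hL0 : ∀ a, L0 a = e (MvPolynomial.pderiv (⟨x, hx'⟩ : t) (e.symm a)) := fun a => rfl
  let D0 : Derivation ℚ K0 K0 := Derivation.mk' L0 (by
    intro a b
    rw [hL0, hL0, hL0, map_mul, Derivation.leibniz, map_add, smul_eq_mul, smul_eq_mul, map_mul,
      map_mul, AlgEquiv.apply_symm_apply, AlgEquiv.apply_symm_apply, smul_eq_mul, smul_eq_mul])
  let D1 : Derivation ℚ K0 ℝ := (Algebra.linearMap K0 ℝ).compDer D0
  let T : ℝ ⊗[K0] Ω[K0⁄ℚ] →ₗ[ℝ] ℝ := LinearMap.liftBaseChange ℝ D1.liftKaehlerDifferential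
  let E := KaehlerDifferential.tensorKaehlerEquivOfFormallyEtale ℚ K0 ℝ
  let D : Derivation ℚ ℝ ℝ := (T ∘ₗ E.symm.toLinearMap).compDer (KaehlerDifferential.D ℚ ℝ)
  refine ⟨D, ?_⟩
  have hxe : algebraMap K0 ℝ (e (MvPolynomial.X ⟨x, hx'⟩)) = x := by
    have := ht.1.algebraMap_aevalEquiv (MvPolynomial.X ⟨x, hx'⟩)
    rw [MvPolynomial.aeval_X] at this
    exact this
  have h1 : D (algebraMap K0 ℝ (e (MvPolynomial.X ⟨x, hx'⟩))) = 1 := by
    show T (E.symm (KaehlerDifferential.D ℚ ℝ _)) = 1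
    rw [KaehlerDifferential.tensorKaehlerEquivOfFormallyEtale_symm_D_algebraMap]
    show LinearMap.liftBaseChange ℝ D1.liftKaehlerDifferential _ = 1
    rw [LinearMap.liftBaseChange_tmul, Derivation.liftKaehlerDifferential_comp_D, one_smul]
    show algebraMap K0 ℝ (e (MvPolynomial.pderiv (⟨x, hx'⟩ : t) (e.symm (e (MvPolynomial.X ⟨x, hx'⟩))))) = 1
    rw [AlgEquiv.symm_apply_apply, MvPolynomial.pderiv_X_self, map_one, map_one]
  rw [hxe] at h1
  rw [h1]
  exact one_ne_zero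

theorem derivation_algebraic {x : ℝ} (hx : IsAlgebraic ℚ x) (D : Derivation ℚ ℝ ℝ) :
    D x = 0 := by
  have h1 : D (Polynomial.aeval x (minpoly ℚ x)) = 0 := by
    rw [minpoly.aeval, map_zero]
  rw [Derivation.map_aeval] at h1
  rcases mul_eq_zero.1 h1 with h | h
  · exfalso
    exact (minpoly.irreducible hx.isIntegral).separable.aeval_derivative_ne_zero (minpoly.aeval ℚ x) h
  · exact h

end Pool.Agent.Helper56.RB
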