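import Pool.Agent.Helper56.RB.Base

namespace Pool.Agent.Helper56.RB

theorem Fam_iter (x : ℝ) (n : ℕ) :
    (fun z : ℂ => z ^ 2 + (x : ℂ))^[n] 0 = ((orb x n : ℝ) : ℂ) := by
  induction n with
  | zero => simp [orb]
  | succ n ih =>
    rw [Function.iterate_succ_apply', ih]
    simp [orb]

theorem Fam_cont (n : ℕ) : Continuous fun x : ℝ => orb x n := by
  induction n with
  | zero => simpa [orb] using continuous_const
  | succ n ih =>
    simp only [orb]
    exact (ih.pow 2).add continuous_id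

theorem Fam_zero (n : ℕ) : orb 0 n = 0 := by
  induction n with
  | zero => rfl
  | succ n ih => simp [orb, ih]

/-- for `x ≤ -2` the orbit stays above `-x` -/
theorem Fam_big {x : ℝ} (hx : x ≤ -2) (n : ℕ) : -x ≤ orb x (n + 2) := by
  induction n with
  | zero =>
    have : orb x 2 = x ^ 2 + x := by simp [orb]
    rw [this]
    nlinarith
  | succ n ih =>
    have : orb x (n + 1 + 2) = orb x (n + 2) ^ 2 + x := rfl
    rw [this]
    nlinarith

theorem Fam_pos {x : ℝ} (hx : x ≤ -2) {n : ℕ} (hn : 2 ≤ n) : 0 < orb x n := by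
  obtain ⟨k, rfl⟩ := Nat.exists_eq_add_of_le hn
  have := Fam_big hx k
  rw [add_comm] at this
  linarith

/-- the polynomial of the orbit -/
noncomputable def FamP : ℕ → Polynomial ℚ
  | 0 => 0
  | n + 1 => FamP n ^ 2 + Polynomial.X

theorem Fam_aeval (x : ℝ) (n : ℕ) : Polynomial.aeval x (FamP n) = orb x n := by
  induction n with
  | zero => simp [FamP, orb]
  | succ n ih => simp [FamP, orb, ih]

/-- the leftmost root -/
noncomputable def famC (n : ℕ) : ℝ := sInf {x : ℝ | orb x n = 0}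

theorem Fam_least {n : ℕ} (hn : 2 ≤ n) : IsLeast {x : ℝ | orb x n = 0} (famC n) := by
  have hne : {x : ℝ | orb x n = 0}.Nonempty := ⟨0, Fam_zero n⟩
  have hbd : BddBelow {x : ℝ | orb x n = 0} := by
    refine ⟨-2, fun x hx => ?_⟩
    by_contra h
    push Not at h
    have := Fam_pos h.le hn
    have h2 : orb x n = 0 := hx
    linarith
  have hcl : IsClosed {x : ℝ | orb x n = 0} := isClosed_eq (Fam_cont n) continuous_const
  exact ⟨hcl.csInf_mem hne hbd, fun x hx => csInf_le hbd hx⟩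

theorem Fam_gt {n : ℕ} (hn : 2 ≤ n) : -2 < famC n := by
  by_contra h
  push Not at h
  have h1 := Fam_pos h hn
  have h2 : orb (famC n) n = 0 := (Fam_least hn).1
  linarith

theorem Fam_two : famC 2 = -1 := by
  have h := Fam_least (le_refl 2)
  have h1 : orb (famC 2) 2 = 0 := h.1
  have h2 : (-1 : ℝ) ∈ {x : ℝ | orb x 2 = 0} := by simp [orb]
  have h3 := h.2 h2
  have h4 : orb (famC 2) 2 = famC 2 ^ 2 + famC 2 := by simp [orb]
  rw [h4] at h1
  have h5 : famC 2 * (famC 2 + 1) = 0 := by nlinarith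
  rcases mul_eq_zero.1 h5 with h6 | h6
  · rw [h6] at h3
    norm_num at h3
  · linarith

theorem Fam_step {n : ℕ} (hn : 2 ≤ n) (h0 : famC n < 0) : famC (n + 1) < famC n := by
  have h1 : orb (famC n) n = 0 := (Fam_least hn).1
  have h2 : orb (famC n) (n + 1) = famC n := by simp [orb, h1]
  have h3 : 0 < orb (-2) (n + 1) := Fam_pos (le_refl _) (by omega)
  have h4 := Fam_gt hn
  have hiv := intermediate_value_Icc' h4.le (Fam_cont (n + 1)).continuousOn
  have h5 : (0 : ℝ) ∈ Set.Icc (orb (famC n) (n + 1)) (orb (-2) (n + 1)) :=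
    ⟨by rw [h2]; exact h0.le, h3.le⟩
  obtain ⟨x, hx, hx0⟩ := hiv h5
  have h6 : famC (n + 1) ≤ x := (Fam_least (by omega : 2 ≤ n + 1)).2 hx0
  rcases hx.2.lt_or_eq with h7 | h7
  · linarith
  · exfalso
    rw [h7] at hx0
    simp only at hx0
    rw [h2] at hx0
    linarith

theorem Fam_neg {n : ℕ} (hn : 2 ≤ n) : famC n < 0 := by
  induction n, hn using Nat.le_induction with
  | base => rw [Fam_two]; norm_num
  | succ n hn ih => exact (Fam_step hn ih).trans ih

theorem Fam_anti {m n : ℕ} (hm : 2 ≤ m) (hmn : m < n) : famC n < famC m := by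
  induction n, hmn using Nat.le_induction with
  | base => exact Fam_step hm (Fam_neg hm)
  | succ n hn ih =>
    have h2 : 2 ≤ n := by have : m + 1 ≤ n := hn; omega
    exact (Fam_step h2 (Fam_neg h2)).trans ih

theorem Fam_orb_pos {j n : ℕ} (hj : 2 ≤ j) (hjn : j < n) : 0 < orb (famC n) j := by
  by_contra h
  push Not at h
  have hn : 2 ≤ n := by omega
  have h3 : 0 < orb (-2) j := Fam_pos (le_refl _) hj
  have h4 := Fam_gt hn
  have hiv := intermediate_value_Icc' h4.le (Fam_cont j).continuousOn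
  obtain ⟨x, hx, hx0⟩ := hiv (show (0 : ℝ) ∈ Set.Icc (orb (famC n) j) (orb (-2) j) from
    ⟨h, h3.le⟩)
  have h6 : famC j ≤ x := (Fam_least hj).2 hx0
  have h7 := Fam_anti hj hjn
  have h8 := hx.2
  linarith

/-- the leftmost real superattracting parameters -/
theorem tip_family : ∃ c : ℕ → ℝ, StrictAntiOn c (Set.Ici 2) ∧ c 2 = -1 ∧
    ∀ n : ℕ, 2 ≤ n → Tip (c n) n ∧ IsAlgebraic ℚ (c n) ∧
      IsLeast {x : ℝ | (fun z : ℂ => z ^ 2 + (x : ℂ))^[n] 0 = 0} (c n) := by
  refine ⟨famC, fun m hm n _ hmn => Fam_anti hm hmn, Fam_two, fun n hn => ⟨?_, ?_, ?_⟩⟩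
  · exact ⟨hn, (Fam_gt hn).le, Fam_neg hn, (Fam_least hn).1, fun j hj hjn => Fam_orb_pos hj hjn⟩
  · refine ⟨FamP n, ?_, ?_⟩
    · intro h0
      have h1 := Fam_aeval (-2) n
      rw [h0, map_zero] at h1
      have h2 := Fam_pos (le_refl (-2 : ℝ)) hn
      linarith
    · rw [Fam_aeval]
      exact (Fam_least hn).1
  · have h : {x : ℝ | (fun z : ℂ => z ^ 2 + (x : ℂ))^[n] 0 = 0} = {x : ℝ | orb x n = 0} := by
      ext x
      simp only [Set.mem_ofPred_eq, Fam_iter]
      exact Complex.ofReal_eq_zero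
    rw [h]
    exact Fam_least hn

end Pool.Agent.Helper56.RB
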