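import Pool.Agent.Helper56.RB.Base

namespace Pool.Agent.Helper56.RB

/-- the radii of a small chain -/
private noncomputable def smallSig (c t : ℝ) : ℕ → ℝ
  | 0 => t
  | k + 1 => smallSig c t k ^ 2 + 2 * |orb c k| * smallSig c t k + t ^ 2

private theorem smallSig_nonneg {c t : ℝ} (ht : 0 ≤ t) : ∀ k, 0 ≤ smallSig c t k
  | 0 => ht
  | k + 1 => by
    have h := smallSig_nonneg (c := c) ht k
    have h2 : 0 ≤ 2 * |orb c k| * smallSig c t k := by positivity
    show 0 ≤ smallSig c t k ^ 2 + 2 * |orb c k| * smallSig c t k + t ^ 2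
    positivity

private theorem smallSig_le (c : ℝ) : ∀ k, ∃ C : ℝ, 1 ≤ C ∧ ∀ t : ℝ, 0 ≤ t → t ≤ 1 →
    smallSig c t (k + 1) ≤ C * t ^ 2
  | 0 => by
    refine ⟨2, by norm_num, fun t _ _ => ?_⟩
    show t ^ 2 + 2 * |orb c 0| * t + t ^ 2 ≤ 2 * t ^ 2
    have : orb c 0 = 0 := rfl
    rw [this, abs_zero]
    linarith
  | k + 1 => by
    obtain ⟨C, hC, h⟩ := smallSig_le c k
    refine ⟨C ^ 2 + 2 * |orb c (k + 1)| * C + 1, ?_, fun t ht0 ht1 => ?_⟩
    · have : 0 ≤ 2 * |orb c (k + 1)| * C := by positivity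
      nlinarith [sq_nonneg C]
    · have h1 := h t ht0 ht1
      have h0 := smallSig_nonneg (c := c) ht0 (k + 1)
      show smallSig c t (k + 1) ^ 2 + 2 * |orb c (k + 1)| * smallSig c t (k + 1) + t ^ 2 ≤ _
      have h2 : smallSig c t (k + 1) ^ 2 ≤ C ^ 2 * t ^ 2 := by
        have h3 : smallSig c t (k + 1) ^ 2 ≤ (C * t ^ 2) ^ 2 := pow_le_pow_left₀ h0 h1 2
        have h4 : (C * t ^ 2) ^ 2 = C ^ 2 * t ^ 2 * t ^ 2 := by ring
        have h5 : t ^ 2 ≤ 1 := pow_le_one₀ ht0 ht1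
        rw [h4] at h3
        have h6 : C ^ 2 * t ^ 2 * t ^ 2 ≤ C ^ 2 * t ^ 2 * 1 :=
          mul_le_mul_of_nonneg_left h5 (by positivity)
        linarith
      have h7 : 2 * |orb c (k + 1)| * smallSig c t (k + 1) ≤
          2 * |orb c (k + 1)| * (C * t ^ 2) :=
        mul_le_mul_of_nonneg_left h1 (by positivity)
      linarith

private theorem small_step {c a a' s r s' : ℝ} (ha : a' = a ^ 2 + c)
    (hs : s ^ 2 + 2 * |a| * s + r ≤ s') (z : ℂ) (hz : ‖z - a‖ ≤ s) :
    ‖z ^ 2 + c - a'‖ + r ≤ s' := by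
  have e : z ^ 2 + (c : ℂ) - (a' : ℂ) = (z - a) * ((z - a) + 2 * a) := by
    rw [ha]
    push_cast
    ring
  have h1 : ‖(z - a) + 2 * (a : ℂ)‖ ≤ s + 2 * |a| := by
    refine (norm_add_le _ _).trans ?_
    have : ‖(2 : ℂ) * (a : ℂ)‖ = 2 * |a| := by
      rw [norm_mul, Complex.norm_real, Real.norm_eq_abs]
      norm_num
    rw [this]
    linarith
  have h2 : ‖z ^ 2 + (c : ℂ) - (a' : ℂ)‖ ≤ s * (s + 2 * |a|) := by
    rw [e, norm_mul]
    exact mul_le_mul hz h1 (norm_nonneg _) ((norm_nonneg _).trans hz)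
  nlinarith

theorem exists_feas {c : ℝ} {p : ℕ} (hp : 1 ≤ p) (h0 : orb c p = 0) :
    ∃ r : ℝ, 0 < r ∧ ∃ e s : ℕ → ℝ, Feas c p r e s := by
  obtain ⟨C, hC, hb⟩ := smallSig_le c (p - 1)
  rw [Nat.sub_add_cancel hp] at hb
  have hC0 : 0 < C := by linarith
  have ht0 : (0 : ℝ) < 1 / C := by positivity
  have ht1 : 1 / C ≤ 1 := by
    rw [div_le_one hC0]
    exact hC
  set t : ℝ := 1 / C with ht
  have hlast : smallSig c t p ≤ t := by
    refine (hb t ht0.le ht1).trans (le_of_eq ?_)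
    rw [ht]
    field_simp
  refine ⟨t ^ 2, by positivity, fun j => orb c (j % p), fun j => smallSig c t (j % p),
    ?_, ?_, ?_, ?_, ?_⟩
  · intro j
    show orb c ((j + p) % p) = orb c (j % p)
    rw [Nat.add_mod_right]
  · intro j
    show smallSig c t ((j + p) % p) = smallSig c t (j % p)
    rw [Nat.add_mod_right]
  · intro j
    exact smallSig_nonneg ht0.le _
  · show |orb c (0 % p)| ≤ smallSig c t (0 % p)
    rw [Nat.zero_mod]
    show |(0 : ℝ)| ≤ t
    rw [abs_zero]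
    exact ht0.le
  · intro j z hz
    have hk : j % p < p := Nat.mod_lt _ hp
    change ‖z - (orb c (j % p) : ℂ)‖ ≤ smallSig c t (j % p) at hz
    show ‖z ^ 2 + (c : ℂ) - (orb c ((j + 1) % p) : ℂ)‖ + t ^ 2 ≤ smallSig c t ((j + 1) % p)
    by_cases h : j % p + 1 < p
    · have e : (j + 1) % p = j % p + 1 := by
        rw [← Nat.mod_add_mod]
        exact Nat.mod_eq_of_lt h
      rw [e]
      exact small_step rfl le_rfl z hz
    · have e1 : j % p + 1 = p := by omega
      have e : (j + 1) % p = 0 := by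
        have : j + 1 = p * (j / p) + p := by
          have := Nat.div_add_mod j p
          omega
        rw [this]
        simp
      rw [e]
      have h1 : orb c 0 = orb c (j % p) ^ 2 + c := by
        have h2 : orb c (j % p + 1) = orb c (j % p) ^ 2 + c := rfl
        rw [← h2, e1, h0]
        rfl
      have h3 : smallSig c t (j % p) ^ 2 + 2 * |orb c (j % p)| * smallSig c t (j % p) + t ^ 2 ≤
          smallSig c t 0 := by
        have h4 : smallSig c t (j % p + 1) = smallSig c t (j % p) ^ 2 +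
          2 * |orb c (j % p)| * smallSig c t (j % p) + t ^ 2 := rfl
        rw [← h4, e1]
        exact hlast
      exact small_step h1 h3 z hz

end Pool.Agent.Helper56.RB
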