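import Pool.Agent.Helper56.RB.FB
import Pool.Agent.Helper56.RB.Small

namespace Pool.Agent.Helper56.RB

/-- the step condition, written with the unit disc -/
theorem opt_step_iff {c r : ℝ} {e s : ℕ → ℝ} (hs : ∀ j, 0 ≤ s j) (j : ℕ) :
    (∀ z : ℂ, ‖z - e j‖ ≤ s j → ‖z ^ 2 + c - e (j + 1)‖ + r ≤ s (j + 1)) ↔
      ∀ ζ : ℂ, ‖ζ‖ ≤ 1 →
        ‖((e j : ℂ) + s j * ζ) ^ 2 + c - e (j + 1)‖ + r ≤ s (j + 1) := by
  constructor
  · intro h ζ hζ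
    refine h _ ?_
    rw [add_sub_cancel_left, norm_mul, Complex.norm_real, Real.norm_of_nonneg (hs j)]
    exact mul_le_of_le_one_right (hs j) hζ
  · intro h z hz
    rcases (hs j).eq_or_lt with h0 | h0
    · have h1 := h 0 (by simp)
      rw [mul_zero, add_zero] at h1
      rw [← h0] at hz
      have h2 : z = e j := sub_eq_zero.1 (norm_le_zero_iff.1 hz)
      rw [h2]
      exact h1
    · have hne : (s j : ℂ) ≠ 0 := by exact_mod_cast h0.ne'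
      have h1 := h ((z - e j) / s j) (by
        rw [norm_div, Complex.norm_real, Real.norm_of_nonneg (hs j)]
        exact (div_le_one h0).2 hz)
      have h2 : (e j : ℂ) + s j * ((z - e j) / s j) = z := by
        field_simp
        ring
      rwa [h2] at h1

theorem opt_feas_iff {c : ℝ} {p : ℕ} {r : ℝ} {e s : ℕ → ℝ} :
    Feas c p r e s ↔ (∀ j, e (j + p) = e j) ∧ (∀ j, s (j + p) = s j) ∧ (∀ j, 0 ≤ s j) ∧
      |e 0| ≤ s 0 ∧ ∀ j, ∀ ζ : ℂ, ‖ζ‖ ≤ 1 →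
        ‖((e j : ℂ) + s j * ζ) ^ 2 + c - e (j + 1)‖ + r ≤ s (j + 1) := by
  constructor
  · intro h
    exact ⟨h.pe, h.ps, h.nn, h.z0, fun j => (opt_step_iff h.nn j).1 (h.step j)⟩
  · rintro ⟨h1, h2, h3, h4, h5⟩
    exact ⟨h1, h2, h3, h4, fun j => (opt_step_iff h3 j).2 (h5 j)⟩

theorem opt_closed (c : ℝ) (p : ℕ) :
    IsClosed {x : ℝ × (ℕ → ℝ) × (ℕ → ℝ) | Feas c p x.1 x.2.1 x.2.2} := by
  have e1 : {x : ℝ × (ℕ → ℝ) × (ℕ → ℝ) | Feas c p x.1 x.2.1 x.2.2} =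
      {x | ∀ j, x.2.1 (j + p) = x.2.1 j} ∩ ({x | ∀ j, x.2.2 (j + p) = x.2.2 j} ∩
        ({x | ∀ j, 0 ≤ x.2.2 j} ∩ ({x | |x.2.1 0| ≤ x.2.2 0} ∩
        {x | ∀ j, ∀ ζ : ℂ, ‖ζ‖ ≤ 1 → ‖((x.2.1 j : ℂ) + x.2.2 j * ζ) ^ 2 + c - x.2.1 (j + 1)‖ + x.1 ≤
          x.2.2 (j + 1)}))) := by
    ext x
    exact opt_feas_iff
  rw [e1]
  refine IsClosed.inter ?_ (IsClosed.inter ?_ (IsClosed.inter ?_ (IsClosed.inter ?_ ?_)))
  · simp only [Set.ofPred_forall]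
    exact isClosed_iInter fun j => isClosed_eq (by fun_prop) (by fun_prop)
  · simp only [Set.ofPred_forall]
    exact isClosed_iInter fun j => isClosed_eq (by fun_prop) (by fun_prop)
  · simp only [Set.ofPred_forall]
    exact isClosed_iInter fun j => isClosed_le (by fun_prop) (by fun_prop)
  · exact isClosed_le (by fun_prop) (by fun_prop)
  · simp only [Set.ofPred_forall]
    refine isClosed_iInter fun j => isClosed_iInter fun ζ => isClosed_iInter fun _ => ?_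
    refine isClosed_le ?_ (by fun_prop)
    have h1 : Continuous fun x : ℝ × (ℕ → ℝ) × (ℕ → ℝ) => ((x.2.1 j : ℝ) : ℂ) :=
      Complex.continuous_ofReal.comp (by fun_prop)
    have h2 : Continuous fun x : ℝ × (ℕ → ℝ) × (ℕ → ℝ) => ((x.2.2 j : ℝ) : ℂ) :=
      Complex.continuous_ofReal.comp (by fun_prop)
    have h3 : Continuous fun x : ℝ × (ℕ → ℝ) × (ℕ → ℝ) => ((x.2.1 (j + 1) : ℝ) : ℂ) :=
      Complex.continuous_ofReal.comp (by fun_prop)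
    fun_prop

theorem opt_mem {c : ℝ} {p : ℕ} (hp : 1 ≤ p) (hc : |c| ≤ 2) {r : ℝ} (hr : 0 ≤ r) {e s : ℕ → ℝ}
    (h : Feas c p r e s) : (r, e, s) ∈ Set.Icc (0 : ℝ) 2 ×ˢ
      ((Set.univ.pi fun _ : ℕ => Set.Icc (-2 : ℝ) 2) ×ˢ
        (Set.univ.pi fun _ : ℕ => Set.Icc (0 : ℝ) 2)) := by
  have hb := feas_bound hp hc hr h
  have hs : ∀ j, s j ≤ 2 := fun j => by
    have := hb j
    have := abs_nonneg (e j)
    linarith
  have he : ∀ j, |e j| ≤ 2 := fun j => by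
    have := hb j
    have := h.nn j
    linarith
  have h1 := h.step 0 (e 0) (by rw [sub_self, norm_zero]; exact h.nn 0)
  refine ⟨⟨hr, ?_⟩, fun j _ => abs_le.1 (he j), fun j _ => ⟨h.nn j, hs j⟩⟩
  show r ≤ 2
  have h2 := norm_nonneg ((e 0 : ℂ) ^ 2 + c - e (0 + 1))
  have h3 := hs (0 + 1)
  linarith

theorem exists_opt {c : ℝ} {p : ℕ} (hp : 1 ≤ p) (hc : |c| ≤ 2) (h0 : orb c p = 0) :
    ∃ (r : ℝ) (e s : ℕ → ℝ), Opt c p r e s := by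
  obtain ⟨r0, hr0, e0, s0, h1⟩ := exists_feas hp h0
  have hK : IsCompact (Set.Icc (0 : ℝ) 2 ×ˢ ((Set.univ.pi fun _ : ℕ => Set.Icc (-2 : ℝ) 2) ×ˢ
        (Set.univ.pi fun _ : ℕ => Set.Icc (0 : ℝ) 2))) :=
    isCompact_Icc.prod ((isCompact_univ_pi fun _ => isCompact_Icc).prod
      (isCompact_univ_pi fun _ => isCompact_Icc))
  have hK' := hK.inter_right (opt_closed c p)
  obtain ⟨⟨r, e, s⟩, ⟨_, hf⟩, hmax⟩ := hK'.exists_isMaxOn
    ⟨(r0, e0, s0), opt_mem hp hc hr0.le h1, h1⟩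
    (f := fun x : ℝ × (ℕ → ℝ) × (ℕ → ℝ) => x.1) (by fun_prop)
  have hle : ∀ (r' : ℝ) (e' s' : ℕ → ℝ), 0 ≤ r' → Feas c p r' e' s' → r' ≤ r :=
    fun r' e' s' hr' h' =>
      hmax (show (r', e', s') ∈ _ from ⟨opt_mem hp hc hr' h', h'⟩)
  have hr : r0 ≤ r := hle r0 e0 s0 hr0.le h1
  refine ⟨r, e, s, hf, hr0.trans_le hr, fun r' e' s' h' => ?_⟩
  rcases le_or_gt 0 r' with h2 | h2
  · exact hle r' e' s' h2 h'
  · linarith

end Pool.Agent.Helper56.RB
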