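import Pool.Agent.Helper56.RB.Acc
import Pool.Agent.Helper56.RB.Car

namespace Pool.Agent.Helper56.RB

variable {c : ℝ} {p : ℕ} {r : ℝ} {e s : ℕ → ℝ} {w ν : ℕ → ℂ}

theorem unbounded_of_orb (hp : 1 ≤ p) (h0 : orb c p = 0) (hr : 0 < r) (h : Feas c p r e s)
    (hO : Orb c r e s p w ν) {r' : ℝ} (hr' : r < r') : ¬ Bornology.IsBounded (reach c r') := by
  intro hB
  obtain ⟨B, hB⟩ := hB.exists_norm_le
  obtain ⟨m, hm⟩ := acc hp h0 hr h hO ((r' - r) / 2) (by linarith)
  obtain ⟨k, hk⟩ : ∃ k, 2 * p = k + 1 := ⟨2 * p - 1, by omega⟩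
  have hstep : ∀ z : ℂ, z = 0 ∨ z ∈ reach c r' → ∀ η : ℂ, ‖η‖ ≤ r' - r →
      Gm c r ν (2 * p) z + η ∈ reach c r' := by
    intro z hz η hη
    rw [hk]
    exact gm_reach_add hr.le hO.nν k hz hη
  have hit : ∀ j : ℕ, (Gm c r ν (2 * p))^[j] 0 = 0 ∨ (Gm c r ν (2 * p))^[j] 0 ∈ reach c r' := by
    intro j
    induction j with
    | zero => exact Or.inl rfl
    | succ j ih =>
      right
      rw [Function.iterate_succ_apply']
      have := hstep _ ih 0 (by rw [norm_zero]; linarith)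
      rwa [add_zero] at this
  have hball : ∀ z : ℂ, ‖z - w 0‖ ≤ (r' - r) / 2 → z ∈ reach c r' := by
    intro z hz
    have h1 := hstep _ (hit m) (z - (Gm c r ν (2 * p))^[m + 1] 0) (by
      have h2 : z - (Gm c r ν (2 * p))^[m + 1] 0 =
          (z - w 0) - ((Gm c r ν (2 * p))^[m + 1] 0 - w 0) := by ring
      rw [h2]
      refine (norm_sub_le _ _).trans ?_
      linarith)
    rw [← Function.iterate_succ_apply' (Gm c r ν (2 * p)) m 0] at h1
    have h3 : (Gm c r ν (2 * p))^[m + 1] 0 + (z - (Gm c r ν (2 * p))^[m + 1] 0) = z := by ring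
    rwa [h3] at h1
  obtain ⟨P, hdeg, hP⟩ := gm_poly c r ν (2 * p)
  have hfun : (fun w => P.eval w) = Gm c r ν (2 * p) := by
    funext z
    exact (hP z).symm
  have hX : P = Polynomial.X := by
    refine cartan P (w 0) ((r' - r) / 2) B (by linarith) ?_ ?_ ?_
    · rw [← hP, gm_w hO, w_per h hO]
    · have h1 := P.hasDerivAt (w 0)
      have h2 := gm_deriv hO
      rw [← hfun] at h2
      exact h1.unique h2
    · intro n z hz
      apply hB
      rw [hfun]
      induction n with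
      | zero => exact hball z hz
      | succ n ih =>
        rw [Function.iterate_succ_apply']
        exact gm_reach hr.le hr'.le hO.nν _ ih
  rw [hX, Polynomial.natDegree_X] at hdeg
  have h4 : 1 < 2 ^ (2 * p) := Nat.one_lt_two_pow (by omega)
  omega

end Pool.Agent.Helper56.RB
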