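import Pool.Agent.Helper56.RB.OrbEx
import Pool.Agent.Helper56.RB.Opt
import Pool.Agent.Helper56.RB.Unb
import Pool.Agent.Helper56.RB.Alg
import Pool.Agent.Helper56.RB.Fam

namespace Pool.Agent.Helper56.RB

theorem reach_mono (c : ℂ) {r r' : ℝ} (h : r ≤ r') : reach c r ⊆ reach c r' := by
  rintro w ⟨l, hl, hl', hw⟩
  exact ⟨l, hl, fun a ha => (hl' a ha).trans h, hw⟩

theorem tip_main {c : ℝ} {p : ℕ} (hT : Tip c p) (hc : IsAlgebraic ℚ c) :
    IsAlgebraic ℚ (rbif c) ∧ 0 < rbif c ∧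
      ∀ r : ℝ, 0 ≤ r → (Bornology.IsBounded (reach c r) ↔ r ≤ rbif c) := by
  have hp : 1 ≤ p := by have := hT.two_le; omega
  have hc2 : |c| ≤ 2 := by rw [abs_of_neg hT.neg]; linarith [hT.ge]
  obtain ⟨r, e, s, hO⟩ := exists_opt hp hc2 hT.zero
  obtain ⟨w, ν, hOrb⟩ := exists_orb hT hO
  have hb : Bornology.IsBounded (reach (c : ℂ) r) := reach_bounded hp hc2 hO.pos.le hO.feas
  have hu : ∀ r' : ℝ, r < r' → ¬ Bornology.IsBounded (reach (c : ℂ) r') := fun r' hr' =>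
    unbounded_of_orb hp hT.zero hO.pos hO.feas hOrb hr'
  have heq : {x : ℝ | 0 ≤ x ∧ Bornology.IsBounded (reach (c : ℂ) x)} = Set.Icc 0 r := by
    ext x
    constructor
    · rintro ⟨h1, h2⟩
      refine ⟨h1, ?_⟩
      by_contra h3
      exact hu x (not_le.1 h3) h2
    · rintro ⟨h1, h2⟩
      exact ⟨h1, hb.subset (reach_mono _ h2)⟩
  have hr : rbif (c : ℂ) = r := by
    rw [rbif, heq, csSup_Icc hO.pos.le]
  refine ⟨?_, ?_, ?_⟩
  · rw [hr]
    exact alg_of_orb hp hc hO.feas.pe hO.feas.ps (feas_spos hp hT.zero hO.pos hO.feas)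
      (feas_gap hp hT.zero hO.pos hO.feas) hOrb
  · rw [hr]
    exact hO.pos
  · intro x hx
    rw [hr]
    have : x ∈ {x : ℝ | 0 ≤ x ∧ Bornology.IsBounded (reach (c : ℂ) x)} ↔ x ∈ Set.Icc 0 r := by
      rw [heq]
    constructor
    · intro h
      exact (this.1 ⟨hx, h⟩).2
    · intro h
      exact (this.2 ⟨hx, h⟩).2

end Pool.Agent.Helper56.RB
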