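import Pool.Agent.Helper56.RB.FB
import Pool.Agent.Helper56.RB.Up

/-!
# Numerical bounds for the bifurcation radius of `-1`
-/

namespace Pool.Agent.Helper56.RB

open Complex

/-! ### The lower bound: an explicit pair of discs -/

/-- a bound for `|z ^ 2 - b|` over a disc with real centre -/
lemma num_disc {δ ρ b M : ℝ} (hB : 0 < b - δ ^ 2) (hM : 0 ≤ M)
    (h : b * (ρ ^ 2 + (b - δ ^ 2)) ^ 2 ≤ M ^ 2 * (b - δ ^ 2)) (z : ℂ) (hz : ‖z - δ‖ ≤ ρ) :
    ‖z ^ 2 - b‖ ≤ M := by
  set B : ℝ := b - δ ^ 2 with hBdef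
  have hb : 0 < b := by nlinarith [sq_nonneg δ]
  set t : ℝ := (z.re - δ) ^ 2 + z.im ^ 2 with ht
  have ht0 : 0 ≤ t := by positivity
  have ht1 : t ≤ ρ ^ 2 := by
    have h1 : ‖z - δ‖ ^ 2 ≤ ρ ^ 2 := by gcongr
    rw [Complex.sq_norm, Complex.normSq_apply] at h1
    simp at h1
    rw [ht]
    nlinarith
  have h2 : ‖z ^ 2 - b‖ ^ 2 * B = b * (t + B) ^ 2 - (2 * B * (z.re - δ) - δ * (t - B)) ^ 2 := by
    rw [Complex.sq_norm, Complex.normSq_apply]
    simp [sq]
    rw [ht, hBdef]
    ring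
  have h3 : ‖z ^ 2 - b‖ ^ 2 * B ≤ M ^ 2 * B := by
    rw [h2]
    have h4 : b * (t + B) ^ 2 ≤ b * (ρ ^ 2 + B) ^ 2 := by gcongr
    nlinarith [sq_nonneg (2 * B * (z.re - δ) - δ * (t - B))]
  have h5 : ‖z ^ 2 - b‖ ^ 2 ≤ M ^ 2 := le_of_mul_le_mul_right h3 hB
  exact abs_le_of_sq_le_sq' h5 hM |>.2

/-- the explicit chain of two discs -/
lemma num_feas : Feas (-1) 2 (39886 / 1000000)
    (fun j => if j % 2 = 0 then 28413691 / 5000000000 else -(124823667 / 125000000))
    (fun j => if j % 2 = 0 then 234481179 / 1000000000 else 96902551 / 1000000000) := by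
  refine ⟨fun j => by simp, fun j => by simp, ?_, ?_, ?_⟩
  · intro j
    split_ifs <;> norm_num
  · simp only [Nat.zero_mod, if_true]
    rw [abs_of_pos (by norm_num)]
    norm_num
  · intro j z hz
    by_cases hj : j % 2 = 0
    · have hj1 : (j + 1) % 2 ≠ 0 := by omega
      simp only [hj, hj1, if_true, if_false] at hz ⊢
      have h1 := num_disc (δ := 28413691 / 5000000000) (ρ := 234481179 / 1000000000)
        (b := 1 - 124823667 / 125000000) (M := 96902551 / 1000000000 - 39886 / 1000000)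
        (by norm_num) (by norm_num) (by norm_num) z hz
      have h2 : z ^ 2 + ((-1 : ℝ) : ℂ) - ((-(124823667 / 125000000) : ℝ) : ℂ) =
          z ^ 2 - ((1 - 124823667 / 125000000 : ℝ) : ℂ) := by
        push_cast
        ring
      rw [h2]
      linarith
    · have hj1 : (j + 1) % 2 = 0 := by omega
      simp only [hj, hj1, if_true, if_false] at hz ⊢
      have h1 := num_disc (δ := -(124823667 / 125000000)) (ρ := 96902551 / 1000000000)
        (b := 1 + 28413691 / 5000000000) (M := 234481179 / 1000000000 - 39886 / 1000000)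
        (by norm_num) (by norm_num) (by norm_num) z hz
      have h2 : z ^ 2 + ((-1 : ℝ) : ℂ) - ((28413691 / 5000000000 : ℝ) : ℂ) =
          z ^ 2 - ((1 + 28413691 / 5000000000 : ℝ) : ℂ) := by
        push_cast
        ring
      rw [h2]
      linarith

theorem num_lower : Bornology.IsBounded (reach (-1) (39886 / 1000000)) := by
  have := reach_bounded (c := -1) (p := 2) (by norm_num) (by norm_num) (by norm_num) num_feas
  have h : (((-1 : ℝ)) : ℂ) = -1 := by push_cast; rfl
  rwa [h] at this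

/-! ### The upper bound: an explicit escaping orbit -/

/-- the coded point -/
noncomputable def upPt (m : ℕ) : ℂ := ⟨(upA m : ℝ) / 1000000000, (upB m : ℝ) / 1000000000⟩

/-- the coded point is `0` or reachable -/
def upGood (m : ℕ) : Prop := upPt m = 0 ∨ upPt m ∈ reach (-1) (39887 / 1000000)

lemma reach_step {c : ℂ} {r : ℝ} {z a : ℂ} (hz : z = 0 ∨ z ∈ reach c r) (ha : ‖a - c‖ ≤ r) :
    z ^ 2 + a ∈ reach c r := by
  rcases hz with rfl | ⟨l, hl, hl', rfl⟩
  · exact ⟨[a], by simp, by simpa using ha, by simp⟩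
  · refine ⟨l ++ [a], by simp, ?_, by simp⟩
    intro b hb
    rw [List.mem_append, List.mem_singleton] at hb
    rcases hb with hb | hb
    · exact hl' b hb
    · rw [hb]
      exact ha

lemma up_good_step (u v : ℕ) (h : upOk u v = true) (hu : upGood u) : upGood v := by
  right
  have h1 := reach_step (a := upPt v - upPt u ^ 2) hu (r := 39887 / 1000000) (c := -1) ?_
  · have h2 : upPt u ^ 2 + (upPt v - upPt u ^ 2) = upPt v := by ring
    rwa [h2] at h1
  · rw [upOk, decide_eq_true_eq] at h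
    have h3 : (1000000000000 * (((upA v : ℝ) * 1000000000 - ((upA u : ℝ) * upA u -
        upB u * upB u) + 1000000000000000000) ^ 2 + ((upB v : ℝ) * 1000000000 -
        2 * ((upA u : ℝ) * upB u)) ^ 2)) ≤ 39887 ^ 2 * 1000000000000000000 ^ 2 := by
      exact_mod_cast h
    have h4 : ‖upPt v - upPt u ^ 2 - -1‖ ^ 2 ≤ (39887 / 1000000 : ℝ) ^ 2 := by
      rw [Complex.sq_norm, Complex.normSq_apply]
      simp [upPt, sq]
      simp only [sq] at h3
      nlinarith
    exact abs_le_of_sq_le_sq' h4 (by norm_num) |>.2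

lemma up_good_chk (n : ℕ) : ∀ (u X w : ℕ), upChk n u X w = true → upGood u → upGood w := by
  induction n with
  | zero =>
    intro u X w h hu
    rw [upChk, beq_iff_eq] at h
    rwa [← h]
  | succ n ih =>
    intro u X w h hu
    rw [upChk, Bool.and_eq_true] at h
    exact ih _ _ _ h.2 (up_good_step _ _ h.1 hu)

lemma unbounded_of_escape {r : ℝ} (hr : 0 ≤ r) {z : ℂ} (hz : z ∈ reach (-1) r) (h2 : 2 ≤ ‖z‖) :
    ¬ Bornology.IsBounded (reach (-1) r) := by
  intro hb
  obtain ⟨C, hC⟩ := isBounded_iff_forall_norm_le.1 hb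
  have key : ∀ n : ℕ, ∃ w ∈ reach (-1) r, 1 + 2 ^ n ≤ ‖w‖ := by
    intro n
    induction n with
    | zero => exact ⟨z, hz, by norm_num; exact h2⟩
    | succ n ih =>
      obtain ⟨w, hw, hw2⟩ := ih
      refine ⟨w ^ 2 + -1, reach_step (Or.inr hw) (by simpa using hr), ?_⟩
      have h3 : ‖w‖ ^ 2 - 1 ≤ ‖w ^ 2 + -1‖ := by
        have := norm_sub_norm_le (w ^ 2) 1
        rw [norm_pow, norm_one] at this
        rwa [← sub_eq_add_neg]
      have h4 : (1 : ℝ) ≤ 2 ^ n := one_le_pow₀ (by norm_num)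
      rw [pow_succ]
      nlinarith
  obtain ⟨n, hn⟩ := pow_unbounded_of_one_lt C (by norm_num : (1 : ℝ) < 2)
  obtain ⟨w, hw, hw2⟩ := key n
  linarith [hC w hw]

theorem num_upper : ¬ Bornology.IsBounded (reach (-1) (39887 / 1000000)) := by
  have h0 : upGood 30000000003000000000 := by
    left
    apply Complex.ext <;> norm_num [upPt, upA, upB]
  have h1 := up_good_chk _ _ _ _ up0 h0
  have h2 := up_good_chk _ _ _ _ up1 h1
  have h3 := up_good_chk _ _ _ _ up2 h2
  have h4 := up_good_chk _ _ _ _ up3 h3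
  have h5 := up_good_chk _ _ _ _ up4 h4
  have h6 := up_good_chk _ _ _ _ up5 h5
  have h7 := up_good_chk _ _ _ _ up6 h6
  have h8 := up_good_chk _ _ _ _ up7 h7
  have h9 := up_good_chk _ _ _ _ up8 h8
  have h10 := up_good_chk _ _ _ _ up9 h9
  have h11 := up_good_chk _ _ _ _ up10 h10
  have h12 := up_good_chk _ _ _ _ up11 h11
  have h13 := up_good_chk _ _ _ _ up12 h12
  have h14 := up_good_chk _ _ _ _ up13 h13
  have h15 := up_good_chk _ _ _ _ up14 h14
  have h16 := up_good_chk _ _ _ _ up15 h15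
  have h17 := up_good_chk _ _ _ _ up16 h16
  have h18 := up_good_chk _ _ _ _ up17 h17
  have h19 := up_good_chk _ _ _ _ up18 h18
  have h20 := up_good_chk _ _ _ _ up19 h19
  have h21 := up_good_chk _ _ _ _ up20 h20
  have h22 := up_good_chk _ _ _ _ up21 h21
  have h23 := up_good_chk _ _ _ _ up22 h22
  have h24 := up_good_chk _ _ _ _ up23 h23
  have h25 := up_good_chk _ _ _ _ up24 h24
  have h26 := up_good_chk _ _ _ _ up25 h25
  have h27 := up_good_chk _ _ _ _ up26 h26
  have h28 := up_good_chk _ _ _ _ up27 h27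
  have h29 := up_good_chk _ _ _ _ up28 h28
  have h30 := up_good_chk _ _ _ _ up29 h29
  have hA : upA 10740762654043343232 = -1925923735 := by norm_num [upA]
  have hB : upB 10740762654043343232 = 1043343232 := by norm_num [upB]
  have hn : ‖upPt 10740762654043343232‖ ^ 2 = (1925923735 ^ 2 + 1043343232 ^ 2) / 1000000000 ^ 2 := by
    rw [Complex.sq_norm, Complex.normSq_apply]
    simp only [upPt, hA, hB]
    norm_num
  have hn2 : 2 ≤ ‖upPt 10740762654043343232‖ := by
    have h1 : (2 : ℝ) ^ 2 ≤ ‖upPt 10740762654043343232‖ ^ 2 := by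
      rw [hn]
      norm_num
    exact abs_le_of_sq_le_sq' h1 (norm_nonneg _) |>.2
  rcases h30 with h | h
  · rw [h, norm_zero] at hn2
    norm_num at hn2
  · exact unbounded_of_escape (by norm_num) h hn2

end Pool.Agent.Helper56.RB
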