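import Pool.Agent.Helper56.RB.Final
import Pool.Agent.Helper56.RB.Num

/-!
# Assembly: the parabolic cycle and the parameter `-1`
-/

namespace Pool.Agent.Helper56.RB

/-- `Gm` as a composition along a list of parameters -/
lemma gm_foldl (c r : ℝ) (ν : ℕ → ℂ) (n : ℕ) (z : ℂ) :
    ((List.range n).map fun i => (c : ℂ) + r * ν (i + 1)).foldl (fun z a => z ^ 2 + a) z =
      Gm c r ν n z := by
  induction n with
  | zero => rfl
  | succ n ih =>
    rw [List.range_succ, List.map_append, List.foldl_append, ih]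
    rfl

/-- The main theorem for one parameter. -/
theorem tip_full {c : ℝ} {p : ℕ} (hT : Tip c p) (hc : IsAlgebraic ℚ c) :
    IsAlgebraic ℚ (rbif c) ∧ 0 < rbif c ∧
      (∀ r : ℝ, 0 ≤ r → (Bornology.IsBounded (reach c r) ↔ r ≤ rbif c)) ∧
      ∃ l : List ℂ, l.length = 2 * p ∧ (∀ a ∈ l, ‖a - c‖ = rbif c) ∧
        ∃ w : ℂ, l.foldl (fun z a => z ^ 2 + a) w = w ∧
          HasDerivAt (fun z => l.foldl (fun z a => z ^ 2 + a) z) 1 w := by
  have hp : 1 ≤ p := by have := hT.two_le; omega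
  have hc2 : |c| ≤ 2 := by rw [abs_of_neg hT.neg]; linarith [hT.ge]
  obtain ⟨h1, h2, h3⟩ := tip_main hT hc
  refine ⟨h1, h2, h3, ?_⟩
  obtain ⟨r, e, s, hO⟩ := exists_opt hp hc2 hT.zero
  obtain ⟨w, ν, hOrb⟩ := exists_orb hT hO
  have hb : Bornology.IsBounded (reach (c : ℂ) r) := reach_bounded hp hc2 hO.pos.le hO.feas
  have hr : rbif (c : ℂ) = r := by
    apply le_antisymm
    · by_contra h4
      exact unbounded_of_orb hp hT.zero hO.pos hO.feas hOrb (not_le.1 h4)
        ((h3 _ h2.le).2 le_rfl)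
    · exact (h3 r hO.pos.le).1 hb
  refine ⟨(List.range (2 * p)).map fun i => (c : ℂ) + r * ν (i + 1), by simp, ?_, w 0, ?_, ?_⟩
  · intro a ha
    rw [List.mem_map] at ha
    obtain ⟨i, -, rfl⟩ := ha
    rw [add_sub_cancel_left, norm_mul, hOrb.nν, mul_one, Complex.norm_real, Real.norm_eq_abs,
      abs_of_pos hO.pos, hr]
  · rw [gm_foldl, gm_w hOrb, w_per hO.feas hOrb]
  · have h5 : (fun z => ((List.range (2 * p)).map fun i => (c : ℂ) + r * ν (i + 1)).foldl
        (fun z a => z ^ 2 + a) z) = Gm c r ν (2 * p) := funext fun z => gm_foldl c r ν (2 * p) z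
    rw [h5]
    exact gm_deriv hOrb

/-- Bounds for the bifurcation radius of `-1`. -/
theorem rbif_neg_one : 39886 / 1000000 ≤ rbif (-1) ∧ rbif (-1) < 39887 / 1000000 := by
  obtain ⟨c, -, hc2, hc⟩ := tip_family
  obtain ⟨hT, halg, -⟩ := hc 2 le_rfl
  rw [hc2] at hT halg
  obtain ⟨-, -, h3⟩ := tip_main hT halg
  have h : (((-1 : ℝ)) : ℂ) = -1 := by push_cast; rfl
  rw [h] at h3
  constructor
  · exact (h3 _ (by norm_num)).1 num_lower
  · by_contra h4
    exact num_upper ((h3 _ (by norm_num)).2 (not_lt.1 h4))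

end Pool.Agent.Helper56.RB
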