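import Pool.Agent.Helper56.RB.Base

namespace Pool.Agent.Helper56.RB

variable {c : ℝ} {p : ℕ} {r : ℝ} {e s : ℕ → ℝ} {w ν : ℕ → ℂ}

theorem gm_mem (hr : 0 ≤ r) (h : Feas c p r e s) (hν : ∀ j, ‖ν j‖ = 1) (n : ℕ) {z : ℂ}
    (hz : ‖z - e 0‖ ≤ s 0) : ‖Gm c r ν n z - e n‖ ≤ s n := by
  induction n with
  | zero => exact hz
  | succ n ih =>
    have h1 := h.step n (Gm c r ν n z) ih
    have h2 : Gm c r ν (n + 1) z - e (n + 1) =
        (Gm c r ν n z ^ 2 + c - e (n + 1)) + r * ν (n + 1) := by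
      change Gm c r ν n z ^ 2 + (c + r * ν (n + 1)) - e (n + 1) = _
      ring
    rw [h2]
    refine (norm_add_le _ _).trans ?_
    rw [norm_mul, hν, mul_one, Complex.norm_real, Real.norm_of_nonneg hr]
    exact h1

theorem gm_w (hO : Orb c r e s p w ν) (n : ℕ) : Gm c r ν n (w 0) = w n := by
  induction n with
  | zero => rfl
  | succ n ih =>
    change Gm c r ν n (w 0) ^ 2 + (c + r * ν (n + 1)) = w (n + 1)
    rw [ih, hO.hw (n + 1)]
    have h1 := hO.hs n
    linear_combination h1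

theorem gm_eper (h : Feas c p r e s) : e (2 * p) = e 0 := by
  have h1 := h.pe 0
  have h2 := h.pe (0 + p)
  rw [two_mul]
  rw [zero_add] at h1 h2
  rw [h2, h1]

theorem gm_sper (h : Feas c p r e s) : s (2 * p) = s 0 := by
  have h1 := h.ps 0
  have h2 := h.ps (0 + p)
  rw [two_mul]
  rw [zero_add] at h1 h2
  rw [h2, h1]

theorem gm_nper (hO : Orb c r e s p w ν) : ν (2 * p) = ν 0 := by
  have := hO.per 0
  rwa [zero_add] at this

theorem w_per (h : Feas c p r e s) (hO : Orb c r e s p w ν) : w (2 * p) = w 0 := by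
  rw [hO.hw, hO.hw 0, gm_eper h, gm_sper h, gm_nper hO]

theorem gm_deriv (hO : Orb c r e s p w ν) : HasDerivAt (Gm c r ν (2 * p)) 1 (w 0) := by
  have h1 : ∀ n, HasDerivAt (Gm c r ν n) (∏ j ∈ Finset.range n, (2 * w j)) (w 0) := by
    intro n
    induction n with
    | zero =>
      simp only [Finset.range_zero, Finset.prod_empty]
      exact hasDerivAt_id (w 0)
    | succ n ih =>
      have h2 := (ih.pow 2).add_const (c + r * ν (n + 1))
      rw [gm_w hO n] at h2
      have h3 : ((2 : ℕ) : ℂ) * w n ^ (2 - 1) * ∏ j ∈ Finset.range n, (2 * w j) =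
          ∏ j ∈ Finset.range (n + 1), (2 * w j) := by
        rw [Finset.prod_range_succ]
        norm_num
        ring
      rw [h3] at h2
      exact h2
  have h2 : ∀ n, (∏ j ∈ Finset.range n, (2 * w j)) * ν 0 =
      (∏ j ∈ Finset.range n, ((2 * ‖w j‖ : ℝ) : ℂ)) * ν n := by
    intro n
    induction n with
    | zero => simp
    | succ n ih =>
      rw [Finset.prod_range_succ, Finset.prod_range_succ]
      have h3 := hO.tan n
      push_cast at ih ⊢
      calc (∏ j ∈ Finset.range n, 2 * w j) * (2 * w n) * ν 0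
          = ((∏ j ∈ Finset.range n, 2 * w j) * ν 0) * (2 * w n) := by ring
        _ = (∏ x ∈ Finset.range n, 2 * (‖w x‖ : ℂ)) * 2 * (w n * ν n) := by rw [ih]; ring
        _ = _ := by rw [h3]; ring
  have h3 := h2 (2 * p)
  rw [← Complex.ofReal_prod, hO.prod, Complex.ofReal_one, one_mul, gm_nper hO] at h3
  have h4 : ν 0 ≠ 0 := by
    intro h5
    have := hO.nν 0
    rw [h5, norm_zero] at this
    exact zero_ne_one this
  have h5 : (∏ j ∈ Finset.range (2 * p), (2 * w j)) = 1 := mul_right_cancel₀ h4 (by rw [h3, one_mul])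
  rw [← h5]
  exact h1 (2 * p)

/-- equality in the triangle inequality -/
theorem gm_eq {A n : ℂ} {S r : ℝ} (hr : 0 < r) (hn : ‖n‖ = 1) (hA : ‖A‖ + r ≤ S)
    (hAn : ‖A + r * n‖ = S) : A = (S - r : ℝ) * n := by
  have h0 : 0 ≤ S - r := by
    have := norm_nonneg A
    linarith
  have h1 : A.re ^ 2 + A.im ^ 2 ≤ (S - r) ^ 2 := by
    have h2 : ‖A‖ ^ 2 ≤ (S - r) ^ 2 := pow_le_pow_left₀ (norm_nonneg _) (by linarith) 2
    rw [Complex.sq_norm, Complex.normSq_apply] at h2
    nlinarith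
  have h2 : (A.re + r * n.re) ^ 2 + (A.im + r * n.im) ^ 2 = S ^ 2 := by
    rw [← hAn, Complex.sq_norm, Complex.normSq_apply]
    simp
    ring
  have h3 : n.re ^ 2 + n.im ^ 2 = 1 := by
    have h4 : ‖n‖ ^ 2 = 1 := by rw [hn, one_pow]
    rw [Complex.sq_norm, Complex.normSq_apply] at h4
    nlinarith
  have h4 : S - r ≤ A.re * n.re + A.im * n.im := by
    have e1 : (A.re + r * n.re) ^ 2 + (A.im + r * n.im) ^ 2 = (A.re ^ 2 + A.im ^ 2) +
        2 * r * (A.re * n.re + A.im * n.im) + r ^ 2 * (n.re ^ 2 + n.im ^ 2) := by ring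
    rw [e1, h3] at h2
    have e2 : (S - r) ^ 2 = S ^ 2 - r ^ 2 - 2 * r * (S - r) := by ring
    have h5 : 2 * r * (S - r) ≤ 2 * r * (A.re * n.re + A.im * n.im) := by
      linarith
    exact le_of_mul_le_mul_left h5 (by positivity)
  have h5 : (A.re - (S - r) * n.re) ^ 2 + (A.im - (S - r) * n.im) ^ 2 ≤ 0 := by
    have h6 := mul_le_mul_of_nonneg_left h4 h0
    nlinarith
  have h6 : A.re - (S - r) * n.re = 0 := by
    have h7 := sq_nonneg (A.im - (S - r) * n.im)
    have h8 := sq_nonneg (A.re - (S - r) * n.re)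
    exact pow_eq_zero_iff (two_ne_zero) |>.mp (le_antisymm (by linarith) h8)
  have h7 : A.im - (S - r) * n.im = 0 := by
    have h7 := sq_nonneg (A.im - (S - r) * n.im)
    have h8 := sq_nonneg (A.re - (S - r) * n.re)
    exact pow_eq_zero_iff (two_ne_zero) |>.mp (le_antisymm (by linarith) h7)
  apply Complex.ext
  · simp
    linarith
  · simp
    linarith

/-- only the orbit point is mapped to the boundary -/
theorem gm_bdry (hp : 1 ≤ p) (hr : 0 < r) (h : Feas c p r e s) (hO : Orb c r e s p w ν) {z : ℂ}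
    (hz : ‖z - e 0‖ ≤ s 0) (hz' : ‖Gm c r ν (2 * p) z - e 0‖ = s 0) :
    Gm c r ν (2 * p) z = w 0 := by
  obtain ⟨n, hn⟩ : ∃ n, 2 * p = n + 1 := ⟨2 * p - 1, by omega⟩
  have h1 := gm_mem hr.le h hO.nν n hz
  have h2 := h.step n _ h1
  rw [← hn, gm_eper h, gm_sper h] at h2
  have h3 : Gm c r ν (2 * p) z = Gm c r ν n z ^ 2 + (c + r * ν (2 * p)) := by
    rw [hn]
    rfl
  rw [h3, gm_nper hO] at hz' ⊢
  have h4 : ‖(Gm c r ν n z ^ 2 + c - e 0) + r * ν 0‖ = s 0 := by
    rw [← hz']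
    congr 1
    ring
  have h5 := gm_eq hr (hO.nν 0) h2 h4
  rw [hO.hw 0]
  push_cast at h5
  linear_combination h5

theorem gm_poly (c r : ℝ) (ν : ℕ → ℂ) (n : ℕ) :
    ∃ P : Polynomial ℂ, P.natDegree = 2 ^ n ∧ ∀ z, Gm c r ν n z = P.eval z := by
  induction n with
  | zero => exact ⟨Polynomial.X, by simp, fun z => by simp [Gm]⟩
  | succ n ih =>
    obtain ⟨P, hP, hPz⟩ := ih
    refine ⟨P ^ 2 + Polynomial.C (c + r * ν (n + 1)), ?_, fun z => ?_⟩
    · rw [Polynomial.natDegree_add_C, Polynomial.natDegree_pow, hP, pow_succ]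
      ring
    · change Gm c r ν n z ^ 2 + (c + r * ν (n + 1)) = _
      rw [hPz]
      simp

theorem gm_reach_step {c : ℂ} {r' : ℝ} {z a : ℂ} (hz : z = 0 ∨ z ∈ reach c r')
    (ha : ‖a - c‖ ≤ r') : z ^ 2 + a ∈ reach c r' := by
  rcases hz with rfl | ⟨l, hl, hla, rfl⟩
  · refine ⟨[a], by simp, ?_, by simp⟩
    intro b hb
    rw [List.mem_singleton] at hb
    rw [hb]
    exact ha
  · refine ⟨l ++ [a], by simp, ?_, ?_⟩
    · intro b hb
      rw [List.mem_append, List.mem_singleton] at hb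
      rcases hb with hb | rfl
      · exact hla b hb
      · exact ha
    · rw [List.foldl_append]
      rfl

theorem gm_param (hr : 0 ≤ r) (hν : ∀ j, ‖ν j‖ = 1) (n : ℕ) :
    ‖((c : ℂ) + r * ν n) - c‖ = r := by
  rw [add_sub_cancel_left, norm_mul, hν, mul_one, Complex.norm_real, Real.norm_of_nonneg hr]

theorem gm_reach_or (hr : 0 ≤ r) {r' : ℝ} (hr' : r ≤ r') (hν : ∀ j, ‖ν j‖ = 1) (n : ℕ) {z : ℂ}
    (hz : z = 0 ∨ z ∈ reach c r') : Gm c r ν n z = 0 ∨ Gm c r ν n z ∈ reach c r' := by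
  induction n with
  | zero => exact hz
  | succ n ih =>
    right
    exact gm_reach_step ih ((gm_param hr hν (n + 1)).le.trans hr')

/-- composition with the maps along the orbit preserves the reachable set -/
theorem gm_reach (hr : 0 ≤ r) {r' : ℝ} (hr' : r ≤ r') (hν : ∀ j, ‖ν j‖ = 1) (n : ℕ) {z : ℂ}
    (hz : z ∈ reach c r') : Gm c r ν n z ∈ reach c r' := by
  induction n with
  | zero => exact hz
  | succ n ih => exact gm_reach_step (Or.inr ih) ((gm_param hr hν (n + 1)).le.trans hr')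

/-- the last parameter can be moved -/
theorem gm_reach_add (hr : 0 ≤ r) {r' : ℝ} (hν : ∀ j, ‖ν j‖ = 1) (n : ℕ) {z η : ℂ}
    (hz : z = 0 ∨ z ∈ reach c r') (hη : ‖η‖ ≤ r' - r) :
    Gm c r ν (n + 1) z + η ∈ reach c r' := by
  have hr' : r ≤ r' := by
    have := norm_nonneg η
    linarith
  have h1 : Gm c r ν (n + 1) z + η = Gm c r ν n z ^ 2 + ((c + r * ν (n + 1)) + η) := by
    change Gm c r ν n z ^ 2 + (c + r * ν (n + 1)) + η = _
    ring
  rw [h1]
  refine gm_reach_step (gm_reach_or hr hr' hν n hz) ?_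
  have h2 : ((c : ℂ) + r * ν (n + 1)) + η - c = (((c : ℂ) + r * ν (n + 1)) - c) + η := by ring
  rw [h2]
  refine (norm_add_le _ _).trans ?_
  rw [gm_param hr hν]
  linarith

end Pool.Agent.Helper56.RB
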