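import Pool.Agent.Helper56.RB.Pert
import Pool.Agent.Helper56.RB.FB

namespace Pool.Agent.Helper56.RB

open Filter Topology

theorem kkt_succ_periodic {f : ℕ → ℝ} {p : ℕ} (h : ∀ j, f (j + p) = f j) (j : ℕ) :
    f (j % p) = f j ∧ f (j % p + 1) = f (j + 1) := by
  constructor
  · exact Function.Periodic.map_mod_nat (f := f) (a := p) h j
  · refine Function.Periodic.map_mod_nat (f := fun n => f (n + 1)) (a := p) ?_ j
    intro n
    change f (n + p + 1) = f (n + 1)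
    rw [show n + p + 1 = n + 1 + p by ring, h]

/-- strict inclusions on a closed disc have a margin -/
theorem kkt_margin (e s b M : ℝ) (hs : 0 < s)
    (h : ∀ z : ℂ, ‖z - (e : ℂ)‖ ≤ s → ‖z ^ 2 - (b : ℂ)‖ < M) :
    ∃ δ : ℝ, 0 < δ ∧ ∀ z : ℂ, ‖z - (e : ℂ)‖ ≤ s → ‖z ^ 2 - (b : ℂ)‖ + δ ≤ M := by
  have hK : IsCompact (Metric.closedBall (e : ℂ) s) := isCompact_closedBall _ _
  have hne : (Metric.closedBall (e : ℂ) s).Nonempty := ⟨e, Metric.mem_closedBall_self hs.le⟩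
  obtain ⟨z₀, hz₀, hmax⟩ := hK.exists_isMaxOn hne
    (f := fun z : ℂ => ‖z ^ 2 - (b : ℂ)‖) (by fun_prop)
  rw [Metric.mem_closedBall, dist_eq_norm] at hz₀
  refine ⟨M - ‖z₀ ^ 2 - (b : ℂ)‖, sub_pos.mpr (h z₀ hz₀), fun z hz => ?_⟩
  have hz' : z ∈ Metric.closedBall (e : ℂ) s := by
    rw [Metric.mem_closedBall, dist_eq_norm]
    exact hz
  have := hmax hz'
  simp only [Set.mem_ofPred_eq] at this
  linarith

theorem kkt_of_opt {c : ℝ} {p : ℕ} {r : ℝ} {e s : ℕ → ℝ} (hp : 1 ≤ p) (hc : |c| ≤ 2)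
    (h0 : orb c p = 0) (hO : Opt c p r e s) : KKT c p r e s := by
  intro u v hu hv
  by_contra hcon
  push Not at hcon
  have hF := hO.feas
  have hr := hO.pos
  -- perturbation of every inclusion
  have hpert : ∀ j, ∀ᶠ t in 𝓝[>] (0 : ℝ), ∀ z : ℂ,
      ‖z - ((e j + t * v j : ℝ) : ℂ)‖ ≤ s j + t * u j →
      ‖z ^ 2 - (((e (j + 1) - c) + t * v (j + 1) : ℝ) : ℂ)‖ <
        (s (j + 1) - r) + t * u (j + 1) := by
    intro j
    refine pert (feas_spos hp h0 hr hF j) (feas_gap hp h0 hr hF j) ?_ ?_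
    · intro z hz
      have h1 := hF.step j z hz
      have h2 : z ^ 2 - ((e (j + 1) - c : ℝ) : ℂ) = z ^ 2 + c - e (j + 1) := by
        push_cast
        ring
      rw [h2]
      linarith
    · intro z ν ν' n1 n2 hz hz' ht
      refine hcon j z ν ν' ⟨n1, n2, hz, ?_, ht⟩
      have h2 : z ^ 2 - ((e (j + 1) - c : ℝ) : ℂ) = z ^ 2 + c - e (j + 1) := by
        push_cast
        ring
      rw [← h2, hz']
      push_cast
      ring
  have hspos : ∀ j, ∀ᶠ t in 𝓝[>] (0 : ℝ), 0 < s j + t * u j := by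
    intro j
    have h1 : Tendsto (fun t : ℝ => s j + t * u j) (𝓝[>] (0 : ℝ)) (𝓝 (s j + 0 * u j)) :=
      tendsto_nhdsWithin_of_tendsto_nhds (Continuous.tendsto (by fun_prop) 0)
    refine h1.eventually (lt_mem_nhds ?_)
    rw [zero_mul, add_zero]
    exact feas_spos hp h0 hr hF j
  have hz0 : ∀ᶠ t in 𝓝[>] (0 : ℝ), 0 < (s 0 + t * u 0) - |e 0 + t * v 0| := by
    have h1 : Tendsto (fun t : ℝ => (s 0 + t * u 0) - |e 0 + t * v 0|) (𝓝[>] (0 : ℝ))
        (𝓝 ((s 0 + 0 * u 0) - |e 0 + 0 * v 0|)) :=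
      tendsto_nhdsWithin_of_tendsto_nhds (Continuous.tendsto (by fun_prop) 0)
    refine h1.eventually (lt_mem_nhds ?_)
    rw [zero_mul, zero_mul, add_zero, add_zero]
    have h2 := feas_orb hp h0 hr.le hF 0
    have h3 : orb c 0 = 0 := rfl
    rw [h3, zero_sub, abs_neg] at h2
    linarith
  have hall : ∀ᶠ t in 𝓝[>] (0 : ℝ), (∀ j ∈ Finset.range p, ∀ z : ℂ,
      ‖z - ((e j + t * v j : ℝ) : ℂ)‖ ≤ s j + t * u j →
      ‖z ^ 2 - (((e (j + 1) - c) + t * v (j + 1) : ℝ) : ℂ)‖ <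
        (s (j + 1) - r) + t * u (j + 1)) ∧
      (∀ j ∈ Finset.range p, 0 < s j + t * u j) ∧
      0 < (s 0 + t * u 0) - |e 0 + t * v 0| := by
    refine ((Filter.eventually_all_finset _).2 fun j _ => hpert j).and
      (((Filter.eventually_all_finset _).2 fun j _ => hspos j).and hz0)
  obtain ⟨t, h1, h2, h3⟩ := hall.exists
  -- margins
  have hex : ∀ j ∈ Finset.range p, ∃ δ : ℝ, 0 < δ ∧ ∀ z : ℂ,
      ‖z - ((e j + t * v j : ℝ) : ℂ)‖ ≤ s j + t * u j →
      ‖z ^ 2 - (((e (j + 1) - c) + t * v (j + 1) : ℝ) : ℂ)‖ + δ ≤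
        (s (j + 1) - r) + t * u (j + 1) := fun j hj =>
    kkt_margin _ _ _ _ (h2 j hj) (h1 j hj)
  choose! δ hδ0 hδ using hex
  obtain ⟨i, hi, hmin⟩ := Finset.exists_min_image (Finset.range p) δ
    ⟨0, Finset.mem_range.2 hp⟩
  have hmax := hO.max (r + δ i) (fun j => e j + t * v j) (fun j => s j + t * u j)
    { pe := fun j => by simp only [hF.pe j, hv j]
      ps := fun j => by simp only [hF.ps j, hu j]
      nn := fun j => by
        obtain ⟨a1, -⟩ := kkt_succ_periodic hF.ps j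
        obtain ⟨a2, -⟩ := kkt_succ_periodic hu j
        have := h2 (j % p) (Finset.mem_range.2 (Nat.mod_lt _ hp))
        rw [a1, a2] at this
        exact this.le
      z0 := by linarith
      step := fun j z hz => by
        obtain ⟨a1, b1⟩ := kkt_succ_periodic hF.ps j
        obtain ⟨a2, b2⟩ := kkt_succ_periodic hu j
        obtain ⟨a3, b3⟩ := kkt_succ_periodic hF.pe j
        obtain ⟨a4, b4⟩ := kkt_succ_periodic hv j
        have hj : j % p ∈ Finset.range p := Finset.mem_range.2 (Nat.mod_lt _ hp)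
        have h4 := hδ (j % p) hj z
        rw [a1, a2, a3, a4, b1, b2, b3, b4] at h4
        have h5 := h4 hz
        have h6 := hmin (j % p) hj
        have h7 : z ^ 2 - (((e (j + 1) - c) + t * v (j + 1) : ℝ) : ℂ) =
            z ^ 2 + c - ((e (j + 1) + t * v (j + 1) : ℝ) : ℂ) := by
          push_cast
          ring
        rw [h7] at h5
        linarith }
  have := hδ0 i hi
  linarith

end Pool.Agent.Helper56.RB
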