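import Pool.Agent.Helper56.RB.Base

namespace Pool.Agent.Helper56.RB

variable {c : ℝ} {p : ℕ} {r : ℝ} {e s : ℕ → ℝ}

/-- position of `j` in the cycle which starts at `i + 1` -/
private def mpos (p i j : ℕ) : ℕ := (j + (p - 1) * (i + 1)) % p

private theorem mpos_per (p i j : ℕ) : mpos p i (j + p) = mpos p i j := by
  unfold mpos
  rw [show j + p + (p - 1) * (i + 1) = j + (p - 1) * (i + 1) + p by ring, Nat.add_mod_right]

private theorem mpos_lt (hp : 1 ≤ p) (i j : ℕ) : mpos p i j < p := Nat.mod_lt _ hp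

private theorem mpos_succ_of_eq (hp : 1 ≤ p) {i j : ℕ} (h : mpos p i j = p - 1) :
    mpos p i (j + 1) = 0 := by
  unfold mpos at *
  have h1 := Nat.div_add_mod (j + (p - 1) * (i + 1)) p
  rw [h] at h1
  have h2 : j + 1 + (p - 1) * (i + 1) = p * ((j + (p - 1) * (i + 1)) / p) + p := by omega
  rw [h2, Nat.add_mod_right, Nat.mul_mod_right]

private theorem mpos_succ_of_ne (hp : 1 ≤ p) {i j : ℕ} (h : mpos p i j ≠ p - 1) :
    mpos p i (j + 1) = mpos p i j + 1 := by
  have hlt := mpos_lt hp i j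
  unfold mpos at *
  have h1 := Nat.div_add_mod (j + (p - 1) * (i + 1)) p
  have h2 : j + 1 + (p - 1) * (i + 1) = p * ((j + (p - 1) * (i + 1)) / p) +
      ((j + (p - 1) * (i + 1)) % p + 1) := by omega
  rw [h2, Nat.mul_add_mod]
  exact Nat.mod_eq_of_lt (by omega)

private theorem mpos_first (hp : 1 ≤ p) (i : ℕ) : mpos p i (i + 1) = 0 := by
  unfold mpos
  obtain ⟨q, rfl⟩ : ∃ q, p = q + 1 := ⟨p - 1, by omega⟩
  have : i + 1 + (q + 1 - 1) * (i + 1) = (q + 1) * (i + 1) := by
    rw [Nat.add_sub_cancel]; ring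
  rw [this, Nat.mul_mod_right]

private theorem mpos_last (hp : 1 ≤ p) (i : ℕ) : mpos p i i = p - 1 := by
  by_contra h
  have h1 := mpos_succ_of_ne hp h
  rw [mpos_first hp] at h1
  omega

private theorem mpos_inj (_hp : 1 ≤ p) {i j j' : ℕ} (h : mpos p i j = mpos p i j') :
    j % p = j' % p := by
  unfold mpos at h
  exact Nat.ModEq.add_right_cancel' _ h

private theorem tch_mod (_hp : 1 ≤ p) (pe : ∀ j, e (j + p) = e j) (ps : ∀ j, s (j + p) = s j)
    {j j' : ℕ} (h : j % p = j' % p) {z ν ν' : ℂ} (ht : Tch c r e s j z ν ν') :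
    Tch c r e s j' z ν ν' := by
  have he : Function.Periodic e p := pe
  have hs : Function.Periodic s p := ps
  have h1 : e j = e j' := by rw [← he.map_mod_nat j, h, he.map_mod_nat]
  have h2 : s j = s j' := by rw [← hs.map_mod_nat j, h, hs.map_mod_nat]
  have h' : (j + 1) % p = (j' + 1) % p := Nat.ModEq.add_right 1 h
  have h3 : e (j + 1) = e (j' + 1) := by rw [← he.map_mod_nat (j + 1), h', he.map_mod_nat]
  have h4 : s (j + 1) = s (j' + 1) := by rw [← hs.map_mod_nat (j + 1), h', hs.map_mod_nat]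
  exact ⟨ht.nν, ht.nν', by rw [← h1, ← h2]; exact ht.hz, by rw [← h3, ← h4]; exact ht.hz', ht.tan⟩

theorem exists_tch (hp : 1 ≤ p) (pe : ∀ j, e (j + p) = e j) (ps : ∀ j, s (j + p) = s j)
    (hK : KKT c p r e s)
    (hb : ∀ (j : ℕ) (z ν ν' : ℂ), Tch c r e s j z ν ν' → 2 * ‖z‖ ≤ 4) (i : ℕ) :
    ∃ z ν ν' : ℂ, Tch c r e s i z ν ν' := by
  obtain ⟨j, z, ν, ν', ht, hle⟩ := hK (fun j => 5 ^ mpos p i j) (fun _ => 0)
    (fun j => by rw [mpos_per]) (fun _ => rfl)
  have h4 := hb j z ν ν' ht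
  by_cases h : mpos p i j = p - 1
  · exact ⟨z, ν, ν', tch_mod hp pe ps (mpos_inj hp (h.trans (mpos_last hp i).symm)) ht⟩
  · exfalso
    simp only [mpos_succ_of_ne hp h, pow_succ, zero_mul, add_zero] at hle
    have h5 : (0 : ℝ) < 5 ^ mpos p i j := by positivity
    nlinarith

/-- the incoming and the outgoing touching directions agree -/
theorem matching (hp : 2 ≤ p) (pe : ∀ j, e (j + p) = e j) (ps : ∀ j, s (j + p) = s j)
    (hK : KKT c p r e s)
    (hb : ∀ (j : ℕ) (z ν ν' : ℂ), Tch c r e s j z ν ν' → 2 * ‖z‖ ≤ 4) (i : ℕ) (x x' : ℝ)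
    (hx : ∀ z ν ν' : ℂ, Tch c r e s (i + 1) z ν ν' → ν.re = x)
    (hx' : ∀ z ν ν' : ℂ, Tch c r e s i z ν ν' → ν'.re = x') : x = x' := by
  by_contra hne
  have hp1 : 1 ≤ p := by omega
  have hd : x' - x ≠ 0 := sub_ne_zero.2 (Ne.symm hne)
  set V : ℝ := 5 ^ p / (x' - x) with hV
  obtain ⟨j, z, ν, ν', ht, hle⟩ := hK
    (fun j => if mpos p i j = 0 then -V * x else 5 ^ (mpos p i j - 1))
    (fun j => if mpos p i j = 0 then V else 0)
    (fun j => by rw [mpos_per]) (fun j => by rw [mpos_per])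
  have h4 := hb j z ν ν' ht
  have hz := norm_nonneg z
  by_cases h0 : mpos p i j = 0
  · -- outgoing
    have h1 : mpos p i j ≠ p - 1 := by omega
    have h2 := mpos_succ_of_ne hp1 h1
    have h3 : ν.re = x :=
      hx z ν ν' (tch_mod hp1 pe ps (mpos_inj hp1 (h0.trans (mpos_first hp1 i).symm)) ht)
    rw [h2, h0, if_neg (by omega), if_neg (by omega), if_pos rfl, if_pos rfl, h3] at hle
    simp only [zero_add, Nat.sub_self, pow_zero, zero_mul, add_zero] at hle
    have h5 : -V * x + V * x = 0 := by ring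
    rw [h5, mul_zero] at hle
    linarith
  · by_cases h1 : mpos p i j = p - 1
    · -- incoming
      have h2 := mpos_succ_of_eq hp1 h1
      have h3 : ν'.re = x' :=
        hx' z ν ν' (tch_mod hp1 pe ps (mpos_inj hp1 (h1.trans (mpos_last hp1 i).symm)) ht)
      rw [h2, if_pos rfl, if_pos rfl, if_neg h0, if_neg h0, h3, h1] at hle
      have h5 : -V * x + V * x' = 5 ^ p := by
        rw [hV]
        field_simp
        ring
      rw [h5, zero_mul, add_zero] at hle
      obtain ⟨q, rfl⟩ : ∃ q, p = q + 2 := ⟨p - 2, by omega⟩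
      have h6 : q + 2 - 1 - 1 = q := by omega
      rw [h6, pow_add] at hle
      have h7 : (0 : ℝ) < 5 ^ q := by positivity
      nlinarith
    · have h2 := mpos_succ_of_ne hp1 h1
      rw [h2, if_neg (by omega), if_neg (by omega), if_neg h0, if_neg h0] at hle
      obtain ⟨q, hq⟩ : ∃ q, mpos p i j = q + 1 := ⟨mpos p i j - 1, by omega⟩
      rw [hq] at hle
      simp only [Nat.add_sub_cancel, pow_succ, zero_mul, add_zero] at hle
      have h7 : (0 : ℝ) < 5 ^ q := by positivity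
      nlinarith

end Pool.Agent.Helper56.RB
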