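import Pool.Agent.Helper56.RB.Base

namespace Pool.Agent.Helper56.RB

theorem prod_no_strict {c : ℝ} {p : ℕ} {r : ℝ} {e s : ℕ → ℝ}
    (hK : KKT c p r e s) (κ : ℕ → ℝ)
    (hT : ∀ (j : ℕ) (z ν ν' : ℂ), Tch c r e s j z ν ν' → 2 * ‖z‖ = κ j) (u : ℕ → ℝ)
    (hu : ∀ j, u (j + p) = u j) (h : ∀ j, κ j * u j < u (j + 1)) : False := by
  obtain ⟨j, z, ν, ν', ht, hle⟩ := hK u (fun _ => 0) hu (fun _ => rfl)
  rw [hT j z ν ν' ht] at hle
  have := h j
  simp only [zero_mul, add_zero] at hle
  linarith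

theorem prod_no_strict' {c : ℝ} {p : ℕ} {r : ℝ} {e s : ℕ → ℝ} (hp : 1 ≤ p)
    (hK : KKT c p r e s) (κ : ℕ → ℝ) (hκ : ∀ j, κ (j + p) = κ j)
    (hT : ∀ (j : ℕ) (z ν ν' : ℂ), Tch c r e s j z ν ν' → 2 * ‖z‖ = κ j) (U : ℕ → ℝ)
    (h1 : ∀ n, n + 1 < p → κ n * U n < U (n + 1))
    (h2 : ∀ n, n + 1 = p → κ n * U n < U 0) : False := by
  refine prod_no_strict hK κ hT (fun j => U (j % p)) (fun j => by simp) fun j => ?_
  have hκm : κ (j % p) = κ j := Function.Periodic.map_mod_nat hκ j
  have hlt : j % p < p := Nat.mod_lt j hp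
  have hm : (j + 1) % p = (j % p + 1) % p := (Nat.mod_add_mod j p 1).symm
  rcases Nat.lt_or_ge (j % p + 1) p with hh | hh
  · rw [hm, Nat.mod_eq_of_lt hh, ← hκm]
    exact h1 _ hh
  · have he : j % p + 1 = p := by omega
    rw [hm, he, Nat.mod_self, ← hκm]
    exact h2 _ he

theorem prod_eq_one {c : ℝ} {p : ℕ} {r : ℝ} {e s : ℕ → ℝ} (hp : 1 ≤ p)
    (hK : KKT c p r e s) (κ : ℕ → ℝ) (hκ : ∀ j, κ (j + p) = κ j) (hκ0 : ∀ j, 0 ≤ κ j)
    (hT : ∀ (j : ℕ) (z ν ν' : ℂ), Tch c r e s j z ν ν' → 2 * ‖z‖ = κ j) :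
    ∏ j ∈ Finset.range p, κ j = 1 := by
  rcases lt_trichotomy (∏ j ∈ Finset.range p, κ j) 1 with h | h | h
  · exfalso
    -- perturb upwards
    have hcont : Continuous (fun δ : ℝ => ∏ j ∈ Finset.range p, (κ j + δ)) :=
      continuous_finsetProd _ fun j _ => continuous_const.add continuous_id
    have hev : ∀ᶠ δ in nhds (0 : ℝ), ∏ j ∈ Finset.range p, (κ j + δ) < 1 := by
      apply hcont.continuousAt.eventually_lt continuousAt_const
      simpa using h
    obtain ⟨ε, hε, hball⟩ := Metric.eventually_nhds_iff.1 hev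
    have hδ : ∏ j ∈ Finset.range p, (κ j + ε / 2) < 1 := by
      apply hball
      rw [Real.dist_eq, sub_zero, abs_of_pos (by linarith)]
      linarith
    have hpos : ∀ n, 0 < ∏ j ∈ Finset.range n, (κ j + ε / 2) := fun n =>
      Finset.prod_pos fun j _ => by have := hκ0 j; linarith
    refine prod_no_strict' hp hK κ hκ hT (fun n => ∏ j ∈ Finset.range n, (κ j + ε / 2)) ?_ ?_
    · intro n _
      simp only [Finset.prod_range_succ]
      have := hpos n
      nlinarith
    · intro n hn
      have h3 : ∏ j ∈ Finset.range (n + 1), (κ j + ε / 2) < 1 := by rw [hn]; exact hδ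
      rw [Finset.prod_range_succ] at h3
      simp only [Finset.range_zero, Finset.prod_empty]
      have := hpos n
      nlinarith
  · exact h
  · exfalso
    have hκpos : ∀ j, j < p → 0 < κ j := by
      intro j hj
      rcases (hκ0 j).lt_or_eq with h0 | h0
      · exact h0
      · exfalso
        have : ∏ j ∈ Finset.range p, κ j = 0 :=
          Finset.prod_eq_zero (Finset.mem_range.2 hj) h0.symm
        linarith
    have hcont : Continuous (fun δ : ℝ => ∏ j ∈ Finset.range p, (κ j * (1 - δ))) :=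
      continuous_finsetProd _ fun j _ => continuous_const.mul (continuous_const.sub continuous_id)
    have hev : ∀ᶠ δ in nhds (0 : ℝ), 1 < ∏ j ∈ Finset.range p, (κ j * (1 - δ)) := by
      apply continuousAt_const.eventually_lt hcont.continuousAt
      simpa using h
    obtain ⟨ε, hε, hball⟩ := Metric.eventually_nhds_iff.1 hev
    set δ : ℝ := min (ε / 2) (1 / 2) with hδdef
    have hδ0 : 0 < δ := lt_min (by linarith) (by norm_num)
    have hδ1 : δ ≤ 1 / 2 := min_le_right _ _
    have hδ : 1 < ∏ j ∈ Finset.range p, (κ j * (1 - δ)) := by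
      apply hball
      rw [Real.dist_eq, sub_zero, abs_of_pos hδ0]
      have : δ ≤ ε / 2 := min_le_left _ _
      linarith
    have hpos : ∀ n, n ≤ p → 0 < ∏ j ∈ Finset.range n, (κ j * (1 - δ)) := fun n hn =>
      Finset.prod_pos fun j hj => by
        have h1 := hκpos j (by have := Finset.mem_range.1 hj; omega)
        have h2 : 0 < 1 - δ := by linarith
        positivity
    refine prod_no_strict' hp hK κ hκ hT (fun n => -∏ j ∈ Finset.range n, (κ j * (1 - δ))) ?_ ?_
    · intro n hn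
      simp only [Finset.prod_range_succ]
      have h1 := hpos n (by omega)
      have h2 := hκpos n (by omega)
      have h3 : 0 < (∏ j ∈ Finset.range n, (κ j * (1 - δ))) * κ n * δ := by positivity
      nlinarith
    · intro n hn
      have h3 : 1 < ∏ j ∈ Finset.range (n + 1), (κ j * (1 - δ)) := by rw [hn]; exact hδ
      rw [Finset.prod_range_succ] at h3
      simp only [Finset.range_zero, Finset.prod_empty]
      have h1 := hpos n (by omega)
      have h2 := hκpos n (by omega)
      have h4 : 0 < (∏ j ∈ Finset.range n, (κ j * (1 - δ))) * κ n * δ := by positivity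
      nlinarith

end Pool.Agent.Helper56.RB
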