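import Pool.Agent.Helper56.RB.Base

namespace Pool.Agent.Helper56.RB

theorem quad_nsq (z : ℂ) (b : ℝ) :
    ‖z ^ 2 - b‖ ^ 2 = (z.re ^ 2 + z.im ^ 2) ^ 2 - 2 * b * (z.re ^ 2 - z.im ^ 2) + b ^ 2 := by
  rw [← Complex.normSq_eq_norm_sq, Complex.normSq_apply]
  simp [pow_two]
  ring

theorem quad_nse (z : ℂ) (e : ℝ) : ‖z - e‖ ^ 2 = (z.re - e) ^ 2 + z.im ^ 2 := by
  rw [← Complex.normSq_eq_norm_sq, Complex.normSq_apply]
  simp [pow_two]

/-- `‖z ^ 2 - b‖ ^ 2` on the circle as a quadratic of `x` -/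
noncomputable def quadQ (e s b x : ℝ) : ℝ :=
  (e ^ 2 + s ^ 2 + b) ^ 2 - 4 * b * e ^ 2 + 4 * (e ^ 2 + s ^ 2 - b) * e * s * x
    + 4 * s ^ 2 * (e ^ 2 - b) * x ^ 2

theorem quad_eq {e s b : ℝ} (hs : 0 < s) {z : ℂ} (hz : ‖z - e‖ = s) :
    ‖z ^ 2 - b‖ ^ 2 = quadQ e s b ((z.re - e) / s) := by
  have h1 := quad_nse z e
  rw [hz] at h1
  rw [quad_nsq]
  have hx : z.re = e + s * ((z.re - e) / s) := by field_simp; ring
  have him : z.im ^ 2 = s ^ 2 - (s * ((z.re - e) / s)) ^ 2 := by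
    have : s * ((z.re - e) / s) = z.re - e := by field_simp
    rw [this]; linarith
  rw [him]
  set x := (z.re - e) / s
  rw [hx]
  unfold quadQ
  ring

theorem quad_le {e s b M : ℝ} (hs : 0 < s)
    (hmax : ∀ z : ℂ, ‖z - e‖ ≤ s → ‖z ^ 2 - b‖ ≤ M) {t : ℝ} (ht : t ^ 2 ≤ 1) :
    quadQ e s b t ≤ M ^ 2 := by
  have h1 : ‖(⟨e + s * t, s * Real.sqrt (1 - t ^ 2)⟩ : ℂ) - e‖ = s := by
    have h2 := quad_nse (⟨e + s * t, s * Real.sqrt (1 - t ^ 2)⟩ : ℂ) e
    simp only at h2
    have h3 : Real.sqrt (1 - t ^ 2) ^ 2 = 1 - t ^ 2 := Real.sq_sqrt (by linarith)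
    have h4 : ‖(⟨e + s * t, s * Real.sqrt (1 - t ^ 2)⟩ : ℂ) - e‖ ^ 2 = s ^ 2 := by
      rw [h2, mul_pow, h3]; ring
    have h5 := (sq_eq_sq₀ (norm_nonneg _) hs.le).1 h4
    exact h5
  have h2 := quad_eq (b := b) hs h1
  have h3 : ((⟨e + s * t, s * Real.sqrt (1 - t ^ 2)⟩ : ℂ).re - e) / s = t := by
    simp only
    field_simp
    ring
  rw [h3] at h2
  rw [← h2]
  exact pow_le_pow_left₀ (norm_nonneg _) (hmax _ h1.le) 2

theorem quad_x {e s : ℝ} (hs : 0 < s) {z : ℂ} (hz : ‖z - e‖ = s) :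
    ((z.re - e) / s) ^ 2 ≤ 1 ∧ (z.im ≠ 0 → ((z.re - e) / s) ^ 2 < 1) := by
  have h1 := quad_nse z e
  rw [hz] at h1
  rw [div_pow]
  constructor
  · rw [div_le_one (by positivity)]
    nlinarith [sq_nonneg z.im]
  · intro him
    rw [div_lt_one (by positivity)]
    have := sq_pos_of_ne_zero him
    linarith

theorem touch_re_eq {e s b M : ℝ} (hs : 0 < s)
    (hmax : ∀ z : ℂ, ‖z - e‖ ≤ s → ‖z ^ 2 - b‖ ≤ M) (hne : e ≠ 0 ∨ 0 < b) {z w : ℂ}
    (hz : ‖z - e‖ = s) (hzM : ‖z ^ 2 - b‖ = M) (hw : ‖w - e‖ = s) (hwM : ‖w ^ 2 - b‖ = M) :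
    z.re = w.re := by
  have hqx := quad_eq (b := b) hs hz
  have hqy := quad_eq (b := b) hs hw
  rw [hzM] at hqx
  rw [hwM] at hqy
  have hx1 := (quad_x hs hz).1
  have hy1 := (quad_x hs hw).1
  have hle : ∀ t : ℝ, t ^ 2 ≤ 1 → quadQ e s b t ≤ M ^ 2 := fun t ht => quad_le hs hmax ht
  set x := (z.re - e) / s with hx
  set y := (w.re - e) / s with hy
  have key : x = y := by
    by_contra hxy
    have hA : 4 * (e ^ 2 + s ^ 2 - b) * e * s + 4 * s ^ 2 * (e ^ 2 - b) * (x + y) = 0 := by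
      have h1 : quadQ e s b x = quadQ e s b y := by rw [← hqx, ← hqy]
      unfold quadQ at h1
      have h2 : (x - y) * (4 * (e ^ 2 + s ^ 2 - b) * e * s
          + 4 * s ^ 2 * (e ^ 2 - b) * (x + y)) = 0 := by linarith
      rcases mul_eq_zero.1 h2 with h | h
      · exact absurd (sub_eq_zero.1 h) hxy
      · exact h
    rcases lt_or_ge (e ^ 2) b with hb | hb
    · -- strictly concave
      have hm : ((x + y) / 2) ^ 2 ≤ 1 := by nlinarith [sq_nonneg (x - y)]
      have h3 := hle _ hm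
      have h4 : quadQ e s b ((x + y) / 2)
          = (quadQ e s b x + quadQ e s b y) / 2 - s ^ 2 * (e ^ 2 - b) * (x - y) ^ 2 := by
        unfold quadQ; ring
      rw [h4, ← hqx, ← hqy] at h3
      have h5 : 0 < s ^ 2 * (b - e ^ 2) * (x - y) ^ 2 := by
        have : 0 < (x - y) ^ 2 := sq_pos_of_ne_zero (sub_ne_zero.2 hxy)
        have : 0 < b - e ^ 2 := by linarith
        positivity
      nlinarith
    · have hB : 4 * (e ^ 2 + s ^ 2 - b) * e * s = 0 := by
        rcases hb.lt_or_eq with hb' | hb'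
        · have hC : 0 < 4 * s ^ 2 * (e ^ 2 - b) := by
            have : 0 < e ^ 2 - b := by linarith
            positivity
          set C := 4 * s ^ 2 * (e ^ 2 - b) with hCdef
          set B := 4 * (e ^ 2 + s ^ 2 - b) * e * s with hBdef
          have hxa : -1 ≤ x ∧ x ≤ 1 := abs_le.1 (by
            have := hx1; nlinarith [sq_abs x, abs_nonneg x])
          have hya : -1 ≤ y ∧ y ≤ 1 := abs_le.1 (by
            have := hy1; nlinarith [sq_abs y, abs_nonneg y])
          have q1 : quadQ e s b (-1) ≤ quadQ e s b x := by rw [← hqx]; exact hle _ (by norm_num)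
          have q2 : quadQ e s b 1 ≤ quadQ e s b y := by rw [← hqy]; exact hle _ (by norm_num)
          have e1 : quadQ e s b x - quadQ e s b (-1) = (1 + x) * (B + C * (x - 1)) := by
            rw [hBdef, hCdef]; unfold quadQ; ring
          have e2 : quadQ e s b y - quadQ e s b 1 = (y - 1) * (B + C * (y + 1)) := by
            rw [hBdef, hCdef]; unfold quadQ; ring
          have e3 : B = -C * (x + y) := by linarith
          rw [e3] at e1 e2
          have f1 : C * ((1 + x) * (1 + y)) ≤ 0 := by nlinarith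
          have f2 : C * ((1 - x) * (1 - y)) ≤ 0 := by nlinarith
          have g1 : (1 + x) * (1 + y) ≤ 0 := by
            by_contra hh
            have := mul_pos hC (not_le.1 hh)
            linarith
          have g2 : (1 - x) * (1 - y) ≤ 0 := by
            by_contra hh
            have := mul_pos hC (not_le.1 hh)
            linarith
          have g1' : (1 + x) * (1 + y) = 0 :=
            le_antisymm g1 (mul_nonneg (by linarith [hxa.1]) (by linarith [hya.1]))
          have g2' : (1 - x) * (1 - y) = 0 :=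
            le_antisymm g2 (mul_nonneg (by linarith [hxa.2]) (by linarith [hya.2]))
          have h0 : x + y = 0 := by nlinarith
          rw [e3, h0, mul_zero]
        · rw [← hb', sub_self] at hA
          have : 4 * (e ^ 2 + s ^ 2 - b) * e * s = 0 := by
            rw [← hb']
            linarith
          exact this
      have hSb : 0 < e ^ 2 + s ^ 2 - b := by nlinarith [pow_pos hs 2]
      have he : e = 0 := by
        have h1 : 4 * (e ^ 2 + s ^ 2 - b) * s ≠ 0 := by positivity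
        have h2 : (4 * (e ^ 2 + s ^ 2 - b) * s) * e = 0 := by linarith
        exact (mul_eq_zero.1 h2).resolve_left h1
      rcases hne with h | h
      · exact h he
      · rw [he] at hb
        norm_num at hb
        linarith
  have h1 : z.re = e + s * x := by rw [hx]; field_simp; ring
  have h2 : w.re = e + s * y := by rw [hy]; field_simp; ring
  rw [h1, h2, key]

theorem touch_im_zero {s b M : ℝ} (hs : 0 < s)
    (hmax : ∀ z : ℂ, ‖z‖ ≤ s → ‖z ^ 2 - b‖ ≤ M) (hb : b < 0) {z : ℂ}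
    (hz : ‖z‖ = s) (hzM : ‖z ^ 2 - b‖ = M) : z.im = 0 := by
  have h1 : ‖(s : ℂ)‖ = s := by rw [Complex.norm_real, Real.norm_of_nonneg hs.le]
  have h2 := hmax (s : ℂ) h1.le
  have h3 := quad_nsq (s : ℂ) b
  have h4 := quad_nsq z b
  have h5 : z.re ^ 2 + z.im ^ 2 = s ^ 2 := by
    rw [← hz, ← Complex.normSq_eq_norm_sq, Complex.normSq_apply]; ring
  rw [hzM] at h4
  simp only [Complex.ofReal_re, Complex.ofReal_im] at h3
  have h6 : ‖(s : ℂ) ^ 2 - b‖ ^ 2 ≤ M ^ 2 := pow_le_pow_left₀ (norm_nonneg _) h2 2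
  rw [h3, h4, h5] at h6
  have h7 : z.re ^ 2 = s ^ 2 - z.im ^ 2 := by linarith
  rw [h7] at h6
  have h8 : 0 ≤ b * z.im ^ 2 := by nlinarith
  have h9 : z.im ^ 2 ≤ 0 := by
    by_contra hh
    have := mul_neg_of_neg_of_pos hb (not_le.1 hh)
    linarith
  exact pow_eq_zero_iff (two_ne_zero) |>.1 (le_antisymm h9 (sq_nonneg _))

theorem touch_interior {e s b M : ℝ} (hs : 0 < s)
    (hmax : ∀ z : ℂ, ‖z - e‖ ≤ s → ‖z ^ 2 - b‖ ≤ M) (he : e ≠ 0) {z : ℂ}
    (hz : ‖z - e‖ = s) (hzM : ‖z ^ 2 - b‖ = M) (him : z.im ≠ 0) : e ^ 2 < b := by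
  by_contra hcon
  have hcon' : b ≤ e ^ 2 := not_lt.1 hcon
  have hqx := quad_eq (b := b) hs hz
  rw [hzM] at hqx
  have hx1 := (quad_x hs hz).2 him
  have hle : ∀ t : ℝ, t ^ 2 ≤ 1 → quadQ e s b t ≤ M ^ 2 := fun t ht => quad_le hs hmax ht
  set x := (z.re - e) / s with hx
  set C := 4 * s ^ 2 * (e ^ 2 - b) with hCdef
  set B := 4 * (e ^ 2 + s ^ 2 - b) * e * s with hBdef
  have hC : 0 ≤ C := by
    have : 0 ≤ e ^ 2 - b := by linarith
    positivity
  have hxa : -1 < x ∧ x < 1 := abs_lt.1 (by nlinarith [sq_abs x, abs_nonneg x])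
  have q1 : quadQ e s b (-1) ≤ quadQ e s b x := by rw [← hqx]; exact hle _ (by norm_num)
  have q2 : quadQ e s b 1 ≤ quadQ e s b x := by rw [← hqx]; exact hle _ (by norm_num)
  have e1 : quadQ e s b x - quadQ e s b (-1) = (1 + x) * (B + C * (x - 1)) := by
    rw [hBdef, hCdef]; unfold quadQ; ring
  have e2 : quadQ e s b x - quadQ e s b 1 = -((1 - x) * (B + C * (x + 1))) := by
    rw [hBdef, hCdef]; unfold quadQ; ring
  have f1 : 0 ≤ B + C * (x - 1) := by
    by_contra hh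
    have := mul_neg_of_pos_of_neg (show 0 < 1 + x by linarith [hxa.1]) (not_le.1 hh)
    linarith
  have f2 : B + C * (x + 1) ≤ 0 := by
    by_contra hh
    have := mul_pos (show 0 < 1 - x by linarith [hxa.2]) (not_le.1 hh)
    linarith
  have hC0 : C = 0 := le_antisymm (by nlinarith) hC
  have hB0 : B = 0 := by rw [hC0] at f1 f2; linarith
  have hbe : e ^ 2 - b = 0 := by
    have h1 : (4 * s ^ 2) * (e ^ 2 - b) = 0 := by rw [← hCdef]; exact hC0
    exact (mul_eq_zero.1 h1).resolve_left (by positivity)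
  have h2 : (e ^ 2 + s ^ 2 - b) = s ^ 2 := by linarith
  rw [hBdef, h2] at hB0
  have h3 : (4 * s ^ 2 * s) * e = 0 := by linarith
  exact he ((mul_eq_zero.1 h3).resolve_left (by positivity))

end Pool.Agent.Helper56.RB
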