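import Pool.Agent.Helper56.RB.Zero
import Pool.Agent.Helper56.RB.Quad
import Pool.Agent.Helper56.RB.Kkt
import Pool.Agent.Helper56.RB.Prod
import Pool.Agent.Helper56.RB.Mat
import Pool.Agent.Helper56.RB.Deg

namespace Pool.Agent.Helper56.RB

open ComplexConjugate

variable {c : ℝ} {p : ℕ} {r : ℝ} {e s : ℕ → ℝ}

lemma OrbEx_unit_cases {a b : ℂ} (ha : ‖a‖ = 1) (hb : ‖b‖ = 1) (h : a.re = b.re) :
    b = a ∨ b = conj a := by
  have h1 : a.re ^ 2 + a.im ^ 2 = 1 := by
    have := Complex.sq_norm a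
    rw [ha, Complex.normSq_apply] at this
    nlinarith
  have h2 : b.re ^ 2 + b.im ^ 2 = 1 := by
    have := Complex.sq_norm b
    rw [hb, Complex.normSq_apply] at this
    nlinarith
  have h3 : (b.im - a.im) * (b.im + a.im) = 0 := by rw [h] at h1; nlinarith
  rcases mul_eq_zero.1 h3 with h4 | h4
  · left
    exact Complex.ext h.symm (by linarith)
  · right
    refine Complex.ext (by simp [h]) ?_
    rw [Complex.conj_im]
    linarith

lemma OrbEx_unit_real {a : ℂ} (ha : ‖a‖ = 1) (h : a.re ^ 2 = 1) : a = (a.re : ℂ) := by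
  have h1 : a.re ^ 2 + a.im ^ 2 = 1 := by
    have := Complex.sq_norm a
    rw [ha, Complex.normSq_apply] at this
    nlinarith
  have h2 : a.im = 0 := by
    have : a.im ^ 2 = 0 := by linarith
    exact pow_eq_zero_iff (two_ne_zero) |>.1 this
  exact Complex.ext rfl (by simp [h2])

lemma OrbEx_re_sq_le {a : ℂ} (ha : ‖a‖ = 1) : a.re ^ 2 ≤ 1 := by
  have := Complex.sq_norm a
  rw [ha, Complex.normSq_apply] at this
  nlinarith [sq_nonneg a.im]

lemma OrbEx_per (pe : ∀ j, e (j + p) = e j) (j : ℕ) : e (j % p) = e j ∧ e (j % p + 1) = e (j + 1) := by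
  have h1 : Function.Periodic e p := pe
  have h2 : Function.Periodic (fun k => e (k + 1)) p := by
    intro k
    show e (k + p + 1) = e (k + 1)
    rw [show k + p + 1 = (k + 1) + p by ring, pe]
  exact ⟨h1.map_mod_nat j, h2.map_mod_nat j⟩

lemma OrbEx_tch_mod (pe : ∀ j, e (j + p) = e j) (ps : ∀ j, s (j + p) = s j) (j : ℕ) {z ν ν' : ℂ} :
    Tch c r e s (j % p) z ν ν' ↔ Tch c r e s j z ν ν' := by
  obtain ⟨h1, h2⟩ := OrbEx_per pe j
  obtain ⟨h3, h4⟩ := OrbEx_per ps j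
  constructor
  · rintro ⟨a, b, d, f, g⟩
    rw [h1, h3] at d
    rw [h2, h4] at f
    exact ⟨a, b, d, f, g⟩
  · rintro ⟨a, b, d, f, g⟩
    rw [← h1, ← h3] at d
    rw [← h2, ← h4] at f
    exact ⟨a, b, d, f, g⟩

lemma OrbEx_tch_conj {j : ℕ} {z ν ν' : ℂ} (h : Tch c r e s j z ν ν') :
    Tch c r e s j (conj z) (conj ν) (conj ν') := by
  refine ⟨by rw [RCLike.norm_conj]; exact h.nν, by rw [RCLike.norm_conj]; exact h.nν', ?_, ?_, ?_⟩
  · have := congrArg conj h.hz
    simpa using this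
  · have := congrArg conj h.hz'
    simpa using this
  · have := congrArg conj h.tan
    simpa using this

/-- the next direction -/
noncomputable def OrbEx_N (c r : ℝ) (e s : ℕ → ℝ) (j : ℕ) (ν : ℂ) : ℂ :=
  (((e j + s j * ν) ^ 2 + c - e (j + 1)) / (s (j + 1) - r) : ℂ)

lemma OrbEx_N_eq (hsr : ∀ j, 0 < s (j + 1) - r) {j : ℕ} {z ν ν' : ℂ}
    (h : Tch c r e s j z ν ν') : OrbEx_N c r e s j ν = ν' := by
  have h1 : ((s (j + 1) : ℂ) - r) ≠ 0 := by
    have := (hsr j).ne'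
    exact_mod_cast this
  rw [OrbEx_N, ← h.hz, h.hz', mul_div_cancel_left₀ _ h1]

lemma OrbEx_N_conj (j : ℕ) (ν : ℂ) : OrbEx_N c r e s j (conj ν) = conj (OrbEx_N c r e s j ν) := by
  simp [OrbEx_N]

lemma OrbEx_N_per (pe : ∀ j, e (j + p) = e j) (ps : ∀ j, s (j + p) = s j) (j : ℕ) (ν : ℂ) :
    OrbEx_N c r e s (j + p) ν = OrbEx_N c r e s j ν := by
  have h1 : e (j + p + 1) = e (j + 1) := by rw [show j + p + 1 = (j + 1) + p by ring, pe]
  have h2 : s (j + p + 1) = s (j + 1) := by rw [show j + p + 1 = (j + 1) + p by ring, ps]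
  rw [OrbEx_N, OrbEx_N, h1, h2, pe, ps]

/-- the sequence of directions -/
noncomputable def OrbEx_ν (c r : ℝ) (e s : ℕ → ℝ) (ν₀ : ℂ) : ℕ → ℂ
  | 0 => ν₀
  | j + 1 => OrbEx_N c r e s j (OrbEx_ν c r e s ν₀ j)

theorem OrbEx_consistent (pe : ∀ j, e (j + p) = e j) (ps : ∀ j, s (j + p) = s j)
    (hsr : ∀ j, 0 < s (j + 1) - r) (x : ℕ → ℝ) (hx : ∀ j, x (j + p) = x j) (hx1 : x 0 ^ 2 ≤ 1)
    (hQ : ∀ (j : ℕ) (ν : ℂ), ‖ν‖ = 1 → ν.re = x j →
      ∃ ν', Tch c r e s j (e j + s j * ν) ν ν' ∧ ν'.re = x (j + 1))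
    (κ : ℕ → ℝ) (hκ : ∀ j, κ (j + p) = κ j)
    (hκT : ∀ (j : ℕ) (z ν ν' : ℂ), Tch c r e s j z ν ν' → 2 * ‖z‖ = κ j)
    (hprod : ∏ j ∈ Finset.range p, κ j = 1) : ∃ w ν : ℕ → ℂ, Orb c r e s p w ν := by
  set ν₀ : ℂ := ⟨x 0, Real.sqrt (1 - x 0 ^ 2)⟩ with hν₀
  have hν₀n : ‖ν₀‖ = 1 := by
    have h1 : ‖ν₀‖ ^ 2 = 1 := by
      rw [Complex.sq_norm, Complex.normSq_apply]
      show x 0 * x 0 + Real.sqrt (1 - x 0 ^ 2) * Real.sqrt (1 - x 0 ^ 2) = 1
      rw [Real.mul_self_sqrt (by linarith)]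
      ring
    have h2 : 0 ≤ ‖ν₀‖ := norm_nonneg _
    nlinarith
  set ν : ℕ → ℂ := OrbEx_ν c r e s ν₀ with hν
  have hν0 : ν 0 = ν₀ := rfl
  have hνs : ∀ j, ν (j + 1) = OrbEx_N c r e s j (ν j) := fun j => rfl
  have hall : ∀ j, ‖ν j‖ = 1 ∧ (ν j).re = x j := by
    intro j
    induction j with
    | zero => exact ⟨hν₀n, rfl⟩
    | succ j ih =>
      obtain ⟨ν', h1, h2⟩ := hQ j (ν j) ih.1 ih.2
      have h3 : ν (j + 1) = ν' := by rw [hνs, OrbEx_N_eq hsr h1]
      rw [h3]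
      exact ⟨h1.nν', h2⟩
  have hT : ∀ j, Tch c r e s j (e j + s j * ν j) (ν j) (ν (j + 1)) := by
    intro j
    obtain ⟨ν', h1, h2⟩ := hQ j (ν j) (hall j).1 (hall j).2
    have h3 : ν (j + 1) = ν' := by rw [hνs, OrbEx_N_eq hsr h1]
    rw [h3]
    exact h1
  have hper : ∀ j, ν (j + 2 * p) = ν j := by
    have hp0 : ν p = ν 0 ∨ ν p = conj (ν 0) := by
      apply OrbEx_unit_cases (hall 0).1 (hall p).1
      rw [(hall 0).2, (hall p).2]
      have := hx 0
      rw [zero_add] at this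
      exact this.symm
    rcases hp0 with h1 | h1
    · have h2 : ∀ j, ν (j + p) = ν j := by
        intro j
        induction j with
        | zero => rw [zero_add]; exact h1
        | succ j ih =>
          rw [show j + 1 + p = (j + p) + 1 by ring, hνs, ih, OrbEx_N_per pe ps, ← hνs]
      intro j
      rw [show j + 2 * p = (j + p) + p by ring, h2, h2]
    · have h2 : ∀ j, ν (j + p) = conj (ν j) := by
        intro j
        induction j with
        | zero => rw [zero_add]; exact h1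
        | succ j ih =>
          rw [show j + 1 + p = (j + p) + 1 by ring, hνs, ih, OrbEx_N_per pe ps, OrbEx_N_conj,
            ← hνs]
      intro j
      rw [show j + 2 * p = (j + p) + p by ring, h2, h2, Complex.conj_conj]
  refine ⟨fun j => e j + s j * ν j, ν, ⟨fun j => (hall j).1, fun j => rfl, fun j => (hT j).hz',
    fun j => (hT j).tan, hper, ?_⟩⟩
  have h1 : ∀ j, 2 * ‖(e j : ℂ) + s j * ν j‖ = κ j := fun j => hκT j _ _ _ (hT j)
  simp only [h1]
  rw [two_mul, Finset.prod_range_add, hprod, one_mul]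
  rw [← hprod]
  refine Finset.prod_congr rfl fun j _ => ?_
  rw [add_comm, hκ]

/-- the touching data of the disc `j` -/
structure OrbEx_Data (c : ℝ) (p : ℕ) (r : ℝ) (e s : ℕ → ℝ) : Prop where
  p2 : 2 ≤ p
  pe : ∀ j, e (j + p) = e j
  ps : ∀ j, s (j + p) = s j
  sp : ∀ j, 0 < s j
  sg : ∀ j, 0 < s (j + 1) - r
  hmax : ∀ j, ∀ z : ℂ, ‖z - e j‖ ≤ s j → ‖z ^ 2 - ((e (j + 1) - c : ℝ) : ℂ)‖ ≤ s (j + 1) - r
  ne : ∀ j, 1 ≤ j → j < p → e j ≠ 0
  hK : KKT c p r e s
  hb : ∀ (j : ℕ) (z ν ν' : ℂ), Tch c r e s j z ν ν' → 2 * ‖z‖ ≤ 4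

lemma OrbEx_data (hT : Tip c p) (hO : Opt c p r e s) : OrbEx_Data c p r e s := by
  have hp : 1 ≤ p := by have := hT.two_le; omega
  have hc2 : |c| ≤ 2 := by rw [abs_of_neg hT.neg]; linarith [hT.ge]
  refine ⟨hT.two_le, hO.feas.pe, hO.feas.ps, feas_spos hp hT.zero hO.pos hO.feas,
    feas_gap hp hT.zero hO.pos hO.feas, ?_, ?_, kkt_of_opt hp hc2 hT.zero hO, ?_⟩
  · intro j z hz
    have h1 := hO.feas.step j z hz
    have h2 : z ^ 2 - ((e (j + 1) - c : ℝ) : ℂ) = z ^ 2 + c - e (j + 1) := by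
      push_cast
      ring
    rw [h2]
    linarith
  · intro j hj hjp h0
    have h1 := zero_not_mem hp hT.zero hO.pos hO.feas (fun i hi hip => by
      rcases Nat.lt_or_ge i 2 with h2 | h2
      · have : i = 1 := by omega
        subst this
        have : orb c 1 = c := by simp [orb]
        rw [this]
        exact hT.neg.ne
      · exact (hT.posj i h2 hip).ne') j hj hjp
    rw [h0, abs_zero] at h1
    exact absurd h1 (not_lt.2 (hO.feas.nn j))
  · intro j z ν ν' h
    have h1 := feas_bound hp hc2 hO.pos.le hO.feas j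
    have h2 : ‖z‖ ≤ |e j| + s j := by
      rw [h.hz]
      refine (norm_add_le _ _).trans ?_
      rw [norm_mul, h.nν, Complex.norm_real, Complex.norm_real, mul_one, Real.norm_eq_abs,
        Real.norm_eq_abs, abs_of_nonneg (hO.feas.nn j)]
    linarith

section
variable (D : OrbEx_Data c p r e s)
include D

lemma OrbEx_circ {j : ℕ} {z ν ν' : ℂ} (h : Tch c r e s j z ν ν') :
    ‖z - e j‖ = s j ∧ ‖z ^ 2 - ((e (j + 1) - c : ℝ) : ℂ)‖ = s (j + 1) - r := by
  constructor
  · rw [h.hz, add_sub_cancel_left, norm_mul, h.nν, Complex.norm_real, Real.norm_eq_abs,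
      abs_of_pos (D.sp j), mul_one]
  · have h2 : z ^ 2 - ((e (j + 1) - c : ℝ) : ℂ) = z ^ 2 + c - e (j + 1) := by
      push_cast
      ring
    rw [h2, h.hz', norm_mul, h.nν', mul_one, ← Complex.ofReal_sub, Complex.norm_real,
      Real.norm_eq_abs, abs_of_pos (D.sg j)]

/-- uniqueness up to conjugation -/
lemma OrbEx_uniq {j : ℕ} (hj : e j ≠ 0 ∨ 0 < e (j + 1) - c) {z ν ν' w μ μ' : ℂ}
    (h : Tch c r e s j z ν ν') (h' : Tch c r e s j w μ μ') :
    μ = ν ∧ w = z ∧ μ' = ν' ∨ μ = conj ν ∧ w = conj z ∧ μ' = conj ν' := by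
  obtain ⟨h1, h2⟩ := OrbEx_circ D h
  obtain ⟨h3, h4⟩ := OrbEx_circ D h'
  have h5 := touch_re_eq (D.sp j) (D.hmax j) hj h1 h2 h3 h4
  have h6 : ν.re = μ.re := by
    rw [h.hz, h'.hz] at h5
    simp at h5
    rcases h5 with h5 | h5
    · exact h5
    · exact absurd h5 (D.sp j).ne'
  rcases OrbEx_unit_cases h.nν h'.nν h6 with h7 | h7
  · left
    refine ⟨h7, by rw [h.hz, h'.hz, h7], ?_⟩
    rw [← OrbEx_N_eq D.sg h, ← OrbEx_N_eq D.sg h', h7]
  · right
    refine ⟨h7, ?_, ?_⟩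
    · rw [h.hz, h'.hz, h7]
      simp
    · rw [← OrbEx_N_eq D.sg h, ← OrbEx_N_eq D.sg h', h7, OrbEx_N_conj]

lemma OrbEx_uniq' {j : ℕ} (hj : e j ≠ 0 ∨ 0 < e (j + 1) - c) {z ν ν' w μ μ' : ℂ}
    (h : Tch c r e s j z ν ν') (h' : Tch c r e s j w μ μ') :
    μ.re = ν.re ∧ ‖w‖ = ‖z‖ ∧ μ'.re = ν'.re := by
  rcases OrbEx_uniq D hj h h' with ⟨h1, h2, h3⟩ | ⟨h1, h2, h3⟩
  · rw [h1, h2, h3]
    exact ⟨rfl, rfl, rfl⟩
  · rw [h1, h2, h3]
    simp

omit D in
/-- every unit direction with the right real part is a touching direction -/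
lemma OrbEx_dir {j : ℕ} {z ν ν' μ : ℂ} (h : Tch c r e s j z ν ν') (hμ : ‖μ‖ = 1)
    (hr : μ.re = ν.re) : ∃ μ', Tch c r e s j (e j + s j * μ) μ μ' ∧ μ'.re = ν'.re := by
  rcases OrbEx_unit_cases h.nν hμ hr.symm with h1 | h1
  · refine ⟨ν', ?_, rfl⟩
    rw [h1, ← h.hz]
    exact h
  · refine ⟨conj ν', ?_, by simp⟩
    have h2 := OrbEx_tch_conj h
    have h3 : (e j : ℂ) + s j * μ = conj z := by
      rw [h1, h.hz]
      simp
    rw [h3, h1]
    exact h2

lemma OrbEx_ne_mod {j : ℕ} (hj : j % p ≠ 0) : e j ≠ 0 := by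
  have hp := D.p2
  rw [← (OrbEx_per D.pe j).1]
  exact D.ne _ (Nat.one_le_iff_ne_zero.2 hj) (Nat.mod_lt _ (by omega))

/-- a real touching direction is followed by a real one -/
lemma OrbEx_real {j : ℕ} {z ν ν' : ℂ} (h : Tch c r e s j z ν ν') (hν : ν.re ^ 2 = 1) :
    ν'.re ^ 2 = 1 := by
  have h1 := OrbEx_unit_real h.nν hν
  have h2 : ν' = OrbEx_N c r e s j ν := (OrbEx_N_eq D.sg h).symm
  have h3 : conj ν' = ν' := by
    rw [h2, ← OrbEx_N_conj]
    congr 1
    rw [h1]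
    simp
  have h4 : ν'.im = 0 := Complex.conj_eq_iff_im.1 h3
  have := Complex.sq_norm ν'
  rw [h.nν', Complex.normSq_apply, h4] at this
  nlinarith

end

/-- the non-degenerate case -/
theorem OrbEx_nondeg (D : OrbEx_Data c p r e s) (h0 : e 0 ≠ 0 ∨ 0 < e 1 - c) :
    ∃ w ν : ℕ → ℂ, Orb c r e s p w ν := by
  have hp := D.p2
  have hU : ∀ j, e j ≠ 0 ∨ 0 < e (j + 1) - c := by
    intro j
    by_cases hj : j % p = 0
    · have h1 := OrbEx_per D.pe j
      rw [hj, zero_add] at h1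
      rwa [← h1.1, ← h1.2]
    · exact Or.inl (OrbEx_ne_mod D hj)
  have hex := exists_tch (by omega) D.pe D.ps D.hK D.hb
  choose Z N N' hZ using hex
  have hall : ∀ (j : ℕ) (z ν ν' : ℂ), Tch c r e s j z ν ν' →
      ν.re = (N (j % p)).re ∧ ‖z‖ = ‖Z (j % p)‖ ∧ ν'.re = (N' (j % p)).re := by
    intro j z ν ν' h
    have h1 := (OrbEx_tch_mod D.pe D.ps j).2 h
    exact OrbEx_uniq' D (hU (j % p)) (hZ (j % p)) h1
  have hmatch : ∀ j, (N' (j % p)).re = (N ((j + 1) % p)).re := by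
    intro j
    symm
    exact matching hp D.pe D.ps D.hK D.hb j _ _ (fun z ν ν' h => (hall (j + 1) z ν ν' h).1)
      (fun z ν ν' h => (hall j z ν ν' h).2.2)
  have hκT : ∀ (j : ℕ) (z ν ν' : ℂ), Tch c r e s j z ν ν' → 2 * ‖z‖ = 2 * ‖Z (j % p)‖ :=
    fun j z ν ν' h => by rw [(hall j z ν ν' h).2.1]
  refine OrbEx_consistent D.pe D.ps D.sg (fun j => (N (j % p)).re) (fun j => by simp)
    (OrbEx_re_sq_le (hZ _).nν) ?_ (fun j => 2 * ‖Z (j % p)‖) (fun j => by simp) hκT
    (prod_eq_one (by omega) D.hK _ (fun j => by simp) (fun j => by positivity) hκT)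
  intro j ν hν hνr
  obtain ⟨μ', h1, h2⟩ := OrbEx_dir ((OrbEx_tch_mod D.pe D.ps j).1 (hZ (j % p))) hν hνr
  exact ⟨μ', h1, by rw [h2, hmatch]⟩

/-- the degenerate case, given that the outgoing direction at `1` is real -/
theorem OrbEx_deg (D : OrbEx_Data c p r e s) (h0 : e 0 = 0) (ε : ℝ) (hε : ε ^ 2 = 1)
    (h1 : ∀ z ν ν' : ℂ, Tch c r e s 1 z ν ν' → ν.re = 1)
    (hlast : ∀ z ν ν' : ℂ, Tch c r e s (p - 1) z ν ν' → ν'.re = ε)
    (hfirst : Tch c r e s 0 (e 0 + s 0 * ε) ε 1) :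
    ∃ w ν : ℕ → ℂ, Orb c r e s p w ν := by
  have hp := D.p2
  have hex := exists_tch (by omega) D.pe D.ps D.hK D.hb
  choose Z N N' hZ using hex
  have hall : ∀ j : ℕ, j % p ≠ 0 → ∀ (z ν ν' : ℂ), Tch c r e s j z ν ν' →
      ν.re = (N (j % p)).re ∧ ‖z‖ = ‖Z (j % p)‖ ∧ ν'.re = (N' (j % p)).re := by
    intro j hj z ν ν' h
    have h1 := (OrbEx_tch_mod D.pe D.ps j).2 h
    have h2 : e (j % p) ≠ 0 := by
      rw [(OrbEx_per D.pe j).1]
      exact OrbEx_ne_mod D hj
    exact OrbEx_uniq' D (Or.inl h2) (hZ (j % p)) h1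
  -- norms at the disc 0
  have hnorm0 : ∀ j : ℕ, j % p = 0 → ∀ (z ν ν' : ℂ), Tch c r e s j z ν ν' → ‖z‖ = s 0 := by
    intro j hj z ν ν' h
    have h2 := (OrbEx_tch_mod D.pe D.ps j).2 h
    rw [hj] at h2
    have := (OrbEx_circ D h2).1
    rwa [h0, Complex.ofReal_zero, sub_zero] at this
  set x : ℕ → ℝ := fun j => if j % p = 0 then ε else (N (j % p)).re with hx
  set κ : ℕ → ℝ := fun j => if j % p = 0 then 2 * s 0 else 2 * ‖Z (j % p)‖ with hκ
  have hκT : ∀ (j : ℕ) (z ν ν' : ℂ), Tch c r e s j z ν ν' → 2 * ‖z‖ = κ j := by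
    intro j z ν ν' h
    by_cases hj : j % p = 0
    · rw [hκ]
      simp only [if_pos hj]
      rw [hnorm0 j hj z ν ν' h]
    · rw [hκ]
      simp only [if_neg hj]
      rw [(hall j hj z ν ν' h).2.1]
  have hκ0 : ∀ j, 0 ≤ κ j := by
    intro j
    rw [hκ]
    by_cases hj : j % p = 0
    · simp only [if_pos hj]
      have := D.sp 0
      positivity
    · simp only [if_neg hj]
      positivity
  have hκp : ∀ j, κ (j + p) = κ j := fun j => by rw [hκ]; simp
  refine OrbEx_consistent D.pe D.ps D.sg x (fun j => by rw [hx]; simp) ?_ ?_ κ hκp hκT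
    (prod_eq_one (by omega) D.hK κ hκp hκ0 hκT)
  · rw [hx]
    simp [hε]
  · intro j ν hν hνr
    by_cases hj : j % p = 0
    · -- at the disc 0
      have hxj : x j = ε := by rw [hx]; simp only [if_pos hj]
      rw [hxj] at hνr
      have hνε : ν = (ε : ℂ) := by
        have := OrbEx_unit_real hν (by rw [hνr]; exact hε)
        rw [this, hνr]
      refine ⟨1, ?_, ?_⟩
      · have h2 := (OrbEx_tch_mod (c := c) (r := r) D.pe D.ps j (z := e j + s j * ν)
          (ν := ν) (ν' := 1)).1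
        apply h2
        rw [hj, hνε]
        have h3 := OrbEx_per D.pe j
        have h4 := OrbEx_per D.ps j
        rw [hj] at h3 h4
        rw [← h3.1, ← h4.1]
        exact hfirst
      · have h5 : (j + 1) % p = 1 := by
          rw [Nat.add_mod, hj, zero_add, Nat.mod_mod, Nat.mod_eq_of_lt (by omega)]
        rw [hx]
        simp only [h5, one_ne_zero, if_false]
        rw [h1 _ _ _ (hZ 1)]
        simp
    · have hxj : x j = (N (j % p)).re := by rw [hx]; simp only [if_neg hj]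
      rw [hxj] at hνr
      obtain ⟨μ', h2, h3⟩ := OrbEx_dir ((OrbEx_tch_mod D.pe D.ps j).1 (hZ (j % p))) hν hνr
      refine ⟨μ', h2, ?_⟩
      rw [h3]
      by_cases hj1 : (j + 1) % p = 0
      · have h4 : x (j + 1) = ε := by rw [hx]; simp only [if_pos hj1]
        rw [h4]
        have h5 : j % p = p - 1 := by
          have h6 : j % p < p := Nat.mod_lt _ (by omega)
          have h7 : (j % p + 1) % p = 0 := by rw [← hj1, Nat.add_mod, Nat.mod_mod, ← Nat.add_mod]
          by_contra h8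
          rw [Nat.mod_eq_of_lt (by omega)] at h7
          omega
        have h6 := hZ (j % p)
        rw [h5] at h6 ⊢
        exact hlast _ _ _ h6
      · have h4 : x (j + 1) = (N ((j + 1) % p)).re := by rw [hx]; simp only [if_neg hj1]
        rw [h4]
        symm
        exact matching hp D.pe D.ps D.hK D.hb j _ _
          (fun z ν ν' h => (hall (j + 1) hj1 z ν ν' h).1)
          (fun z ν ν' h => (hall j hj z ν ν' h).2.2)

/-- real directions propagate up to the last disc -/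
lemma OrbEx_prop (D : OrbEx_Data c p r e s) (i : ℕ) (hi : 1 ≤ i) (hip : i < p) {z ν ν' : ℂ}
    (h : Tch c r e s i z ν ν') (hν : ν.re ^ 2 = 1) :
    ∃ ε : ℝ, ε ^ 2 = 1 ∧ ∀ z ν ν' : ℂ, Tch c r e s (p - 1) z ν ν' → ν'.re = ε := by
  have hp := D.p2
  -- claim: for every k ≥ i, k < p, all touching directions are real
  have key : ∀ k, i ≤ k → k < p → ∀ z ν ν' : ℂ, Tch c r e s k z ν ν' → ν.re ^ 2 = 1 := by
    intro k hik
    induction k, hik using Nat.le_induction with
    | base =>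
      intro _ w μ μ' h'
      rw [(OrbEx_uniq' D (Or.inl (D.ne i hi hip)) h h').1]
      exact hν
    | succ k hik ih =>
      intro hkp w μ μ' h'
      have hk : k < p := by omega
      obtain ⟨z₁, ν₁, ν₁', h1⟩ := exists_tch (by omega) D.pe D.ps D.hK D.hb k
      have hm := matching hp D.pe D.ps D.hK D.hb k μ.re ν₁'.re
        (fun z ν ν' h2 => (OrbEx_uniq' D (Or.inl (D.ne (k + 1) (by omega) hkp)) h' h2).1)
        (fun z ν ν' h2 => (OrbEx_uniq' D (Or.inl (D.ne k (by omega) hk)) h1 h2).2.2)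
      rw [hm]
      exact OrbEx_real D h1 (ih hk _ _ _ h1)
  obtain ⟨z₁, ν₁, ν₁', h1⟩ := exists_tch (by omega) D.pe D.ps D.hK D.hb (p - 1)
  refine ⟨ν₁'.re, OrbEx_real D h1 (key (p - 1) (by omega) (by omega) _ _ _ h1), ?_⟩
  intro z ν ν' h2
  exact (OrbEx_uniq' D (Or.inl (D.ne (p - 1) (by omega) (by omega))) h1 h2).2.2

theorem exists_orb {c : ℝ} {p : ℕ} {r : ℝ} {e s : ℕ → ℝ} (hT : Tip c p)
    (hO : Opt c p r e s) : ∃ w ν : ℕ → ℂ, Orb c r e s p w ν := by
  have D := OrbEx_data hT hO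
  have hp := D.p2
  by_cases hnd : e 0 ≠ 0 ∨ 0 < e 1 - c
  · exact OrbEx_nondeg D hnd
  push Not at hnd
  obtain ⟨he0, hb0⟩ := hnd
  have hs0 := D.sp 0
  have hg0 := D.sg 0
  rw [zero_add] at hg0
  obtain ⟨z₀, ν₀, ν₀', hz₀⟩ := exists_tch (by omega) D.pe D.ps D.hK D.hb 0
  -- facts on the touching points of the disc 0
  have hz0 : ∀ z ν ν' : ℂ, Tch c r e s 0 z ν ν' → z = s 0 * ν ∧ ‖z‖ = s 0 ∧
      z ^ 2 - ((e 1 - c : ℝ) : ℂ) = ((s 1 - r : ℝ) : ℂ) * ν' := by
    intro z ν ν' h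
    have h1 := h.hz
    rw [he0, Complex.ofReal_zero, zero_add] at h1
    refine ⟨h1, ?_, ?_⟩
    · have := (OrbEx_circ D h).1
      rwa [he0, Complex.ofReal_zero, sub_zero] at this
    · have := h.hz'
      rw [zero_add] at this
      push_cast
      rw [← this]
      ring
  have hre1 : ∀ {a : ℂ}, ‖a‖ = 1 → a.re = 1 → a = 1 := by
    intro a ha h
    have := OrbEx_unit_real ha (by rw [h]; norm_num)
    rw [this, h]
    simp
  rcases hb0.lt_or_eq with hb | hb
  · -- b₀ < 0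
    have hmax0 : ∀ z : ℂ, ‖z‖ ≤ s 0 → ‖z ^ 2 - ((e 1 - c : ℝ) : ℂ)‖ ≤ s 1 - r := by
      intro z hz
      have := D.hmax 0 z (by rw [he0, Complex.ofReal_zero, sub_zero]; exact hz)
      rwa [zero_add] at this
    -- the size of the maximum
    have hfact : ∀ z ν ν' : ℂ, Tch c r e s 0 z ν ν' → ν ^ 2 = 1 ∧ ν' = 1 ∧
        s 1 - r = s 0 ^ 2 - (e 1 - c) := by
      intro z ν ν' h
      obtain ⟨h1, h2, h3⟩ := hz0 z ν ν' h
      have h4 := (OrbEx_circ D h).2
      rw [zero_add] at h4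
      have him := touch_im_zero hs0 hmax0 hb h2 h4
      have hνim : ν.im = 0 := by
        rw [h1] at him
        simp at him
        rcases him with h5 | h5
        · exact absurd h5 hs0.ne'
        · exact h5
      have hν2 : ν ^ 2 = 1 := by
        have h6 := Complex.sq_norm ν
        rw [h.nν, Complex.normSq_apply, hνim] at h6
        apply Complex.ext
        · simp [sq, hνim]
          nlinarith
        · simp [sq, hνim]
      have h7 : ((s 0 ^ 2 - (e 1 - c) : ℝ) : ℂ) = ((s 1 - r : ℝ) : ℂ) * ν' := by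
        rw [← h3, h1, mul_pow, hν2]
        push_cast
        ring
      have hpos : 0 < s 0 ^ 2 - (e 1 - c) := by nlinarith
      have h8 : s 1 - r = s 0 ^ 2 - (e 1 - c) := by
        have := congrArg norm h7
        rw [norm_mul, h.nν', mul_one, Complex.norm_real, Complex.norm_real, Real.norm_eq_abs,
          Real.norm_eq_abs, abs_of_pos hpos, abs_of_pos hg0] at this
        exact this.symm
      refine ⟨hν2, ?_, h8⟩
      rw [h8] at h7
      have hne : ((s 0 ^ 2 - (e 1 - c) : ℝ) : ℂ) ≠ 0 := by exact_mod_cast hpos.ne'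
      have := mul_left_cancel₀ hne (h7.symm.trans (mul_one _).symm)
      exact this
    obtain ⟨z₁, ν₁, ν₁', hz₁⟩ := exists_tch (by omega) D.pe D.ps D.hK D.hb 1
    have hU1 := fun (z ν ν' : ℂ) (h : Tch c r e s 1 z ν ν') =>
      (OrbEx_uniq' D (Or.inl (D.ne 1 le_rfl (by omega))) hz₁ h).1
    have hx1 : ν₁.re = 1 := matching hp D.pe D.ps D.hK D.hb 0 ν₁.re 1
      (fun z ν ν' h => hU1 z ν ν' (by simpa using h))
      (fun z ν ν' h => by rw [(hfact z ν ν' h).2.1]; simp)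
    obtain ⟨ε, hε, hlast⟩ := OrbEx_prop D 1 le_rfl (by omega) hz₁ (by rw [hx1]; norm_num)
    refine OrbEx_deg D he0 ε hε (fun z ν ν' h => by rw [hU1 z ν ν' h, hx1]) hlast ?_
    have h8 := (hfact _ _ _ hz₀).2.2
    have hε2 : (ε : ℂ) ^ 2 = 1 := by exact_mod_cast hε
    have hεn : |ε| = 1 := by
      have : |ε| ^ 2 = 1 := by rw [sq_abs]; exact hε
      nlinarith [abs_nonneg ε]
    refine ⟨by rw [Complex.norm_real, Real.norm_eq_abs, hεn], norm_one, rfl, ?_, ?_⟩
    · rw [he0, zero_add, Complex.ofReal_zero, zero_add, mul_pow, hε2]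
      have : ((s 1 : ℂ) - r) = ((s 1 - r : ℝ) : ℂ) := by push_cast; ring
      rw [this, h8]
      push_cast
      ring
    · rw [he0, Complex.ofReal_zero, zero_add, norm_mul, Complex.norm_real, Complex.norm_real,
        Real.norm_eq_abs, Real.norm_eq_abs, abs_of_pos hs0, hεn, mul_assoc, ← sq, hε2]
      simp
  · -- b₀ = 0
    have he1 : e 1 = c := by linarith
    have hfact : ∀ z ν ν' : ℂ, Tch c r e s 0 z ν ν' → ν' = ν ^ 2 ∧ s 1 - r = s 0 ^ 2 := by
      intro z ν ν' h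
      obtain ⟨h1, h2, h3⟩ := hz0 z ν ν' h
      rw [hb, Complex.ofReal_zero, sub_zero, h1, mul_pow] at h3
      have h8 : s 1 - r = s 0 ^ 2 := by
        have := congrArg norm h3
        rw [norm_mul, norm_mul, norm_pow, norm_pow, h.nν', h.nν, one_pow, mul_one, mul_one,
          Complex.norm_real, Complex.norm_real, Real.norm_eq_abs, Real.norm_eq_abs,
          abs_of_pos hs0, abs_of_pos hg0] at this
        exact this.symm
      refine ⟨?_, h8⟩
      rw [h8] at h3
      push_cast at h3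
      have hne : ((s 0 : ℂ) ^ 2) ≠ 0 := by
        have := hs0.ne'
        exact pow_ne_zero 2 (by exact_mod_cast this)
      exact (mul_left_cancel₀ hne h3).symm
    -- some touching direction is real
    have hreal : ∃ i, 1 ≤ i ∧ i < p ∧ ∃ z ν ν' : ℂ, Tch c r e s i z ν ν' ∧ z.im = 0 := by
      by_contra hcon
      push Not at hcon
      have hgt : ∀ i, 1 ≤ i → i < p → e i ^ 2 + c < e (i + 1) := by
        intro i hi hip
        obtain ⟨z, ν, ν', h⟩ := exists_tch (by omega) D.pe D.ps D.hK D.hb i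
        obtain ⟨h1, h2⟩ := OrbEx_circ D h
        have := touch_interior (D.sp i) (D.hmax i) (D.ne i hi hip) h1 h2
          (hcon i hi hip z ν ν' h)
        linarith
      have hind : ∀ i, 2 ≤ i → i ≤ p → orb c i < e i := by
        intro i hi
        induction i, hi using Nat.le_induction with
        | base =>
          intro _
          have h1 := hgt 1 le_rfl (by omega)
          rw [he1] at h1
          have h2 : orb c 2 = c ^ 2 + c := by simp [orb]
          rw [h2]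
          exact h1
        | succ i hi ih =>
          intro hip
          have h1 := hgt i (by omega) (by omega)
          have h2 := ih (by omega)
          have h3 := hT.posj i hi (by omega)
          have h4 : orb c (i + 1) = orb c i ^ 2 + c := rfl
          rw [h4]
          nlinarith
      have h1 := hind p hp le_rfl
      have h2 : e p = 0 := by
        have := D.pe 0
        rw [zero_add] at this
        rw [this, he0]
      rw [hT.zero, h2] at h1
      exact lt_irrefl _ h1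
    obtain ⟨i, hi, hip, z, ν, ν', hTi, him⟩ := hreal
    have hνim : ν.im = 0 := by
      rw [hTi.hz] at him
      simp at him
      rcases him with h5 | h5
      · exact absurd h5 (D.sp i).ne'
      · exact h5
    have hν2 : ν.re ^ 2 = 1 := by
      have h6 := Complex.sq_norm ν
      rw [hTi.nν, Complex.normSq_apply, hνim] at h6
      nlinarith
    obtain ⟨ε, hε, hlast⟩ := OrbEx_prop D i hi hip hTi hν2
    obtain ⟨z₁, ν₁, ν₁', hz₁⟩ := exists_tch (by omega) D.pe D.ps D.hK D.hb 1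
    have hU1 := fun (z ν ν' : ℂ) (h : Tch c r e s 1 z ν ν') =>
      (OrbEx_uniq' D (Or.inl (D.ne 1 le_rfl (by omega))) hz₁ h).1
    have h1le : 1 ≤ ν₁.re := matching_deg hp D.pe D.ps D.hK D.hb (2 * s 0) (by positivity)
      (fun z ν ν' h => by
        refine ⟨by rw [(hz0 z ν ν' h).2.1], ?_⟩
        rw [(hfact z ν ν' h).1, sq, Complex.mul_re]
        have h6 := Complex.sq_norm ν
        rw [h.nν, Complex.normSq_apply] at h6
        nlinarith) ν₁.re ε hU1 hε hlast
    have hx1 : ν₁.re = 1 := by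
      have := OrbEx_re_sq_le hz₁.nν
      nlinarith
    refine OrbEx_deg D he0 ε hε (fun z ν ν' h => by rw [hU1 z ν ν' h, hx1]) hlast ?_
    have h8 := (hfact _ _ _ hz₀).2
    have hε2 : (ε : ℂ) ^ 2 = 1 := by exact_mod_cast hε
    have hεn : |ε| = 1 := by
      have : |ε| ^ 2 = 1 := by rw [sq_abs]; exact hε
      nlinarith [abs_nonneg ε]
    refine ⟨by rw [Complex.norm_real, Real.norm_eq_abs, hεn], norm_one, rfl, ?_, ?_⟩
    · rw [he0, zero_add, Complex.ofReal_zero, zero_add, mul_pow, hε2, he1]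
      have : ((s 1 : ℂ) - r) = ((s 1 - r : ℝ) : ℂ) := by push_cast; ring
      rw [this, h8]
      push_cast
      ring
    · rw [he0, Complex.ofReal_zero, zero_add, norm_mul, Complex.norm_real, Complex.norm_real,
        Real.norm_eq_abs, Real.norm_eq_abs, abs_of_pos hs0, hεn, mul_assoc, ← sq, hε2]
      simp

end Pool.Agent.Helper56.RB
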