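import Pool.Agent.Helper56.RB.Tan

namespace Pool.Agent.Helper56.RB

open Filter Topology

/-- first order perturbation of one disc inclusion -/
theorem pert {e s b M u v u' v' : ℝ} (hs : 0 < s) (hM : 0 < M)
    (hmax : ∀ z : ℂ, ‖z - e‖ ≤ s → ‖z ^ 2 - b‖ ≤ M)
    (h : ∀ z ν ν' : ℂ, ‖ν‖ = 1 → ‖ν'‖ = 1 → z = e + s * ν → z ^ 2 - b = M * ν' →
      z * ν = ‖z‖ * ν' → 2 * ‖z‖ * (u + v * ν.re) < u' + v' * ν'.re) :
    ∀ᶠ t in 𝓝[>] (0 : ℝ), ∀ z : ℂ, ‖z - ((e + t * v : ℝ) : ℂ)‖ ≤ s + t * u →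
      ‖z ^ 2 - ((b + t * v' : ℝ) : ℂ)‖ < M + t * u' := by
  let z0 : ℂ → ℂ := fun x => e + s * x
  let w : ℂ → ℂ := fun x => v + u * x
  let A : ℂ → ℂ := fun x => z0 x ^ 2 - b
  let Y : ℝ × ℂ → ℂ := fun p => 2 * z0 p.2 * w p.2 - v' + p.1 * w p.2 ^ 2
  let G : ℝ × ℂ → ℝ := fun p => 2 * (A p.2 * (starRingEnd ℂ) (Y p)).re + p.1 * ‖Y p‖ ^ 2
    - 2 * M * u' - p.1 * u' ^ 2
  have hz0c : Continuous z0 := by fun_prop
  have hwc : Continuous w := by fun_prop
  have hAc : Continuous A := by fun_prop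
  have hYc : Continuous Y := by fun_prop
  have hGc : Continuous G := by
    have h1 : Continuous fun p : ℝ × ℂ => A p.2 * (starRingEnd ℂ) (Y p) :=
      (hAc.comp continuous_snd).mul (Complex.continuous_conj.comp hYc)
    have h2 : Continuous fun p : ℝ × ℂ => (A p.2 * (starRingEnd ℂ) (Y p)).re :=
      Complex.continuous_re.comp h1
    have h3 : Continuous fun p : ℝ × ℂ => ‖Y p‖ := hYc.norm
    fun_prop
  -- the expansion
  have hexp : ∀ p : ℝ × ℂ, ‖(z0 p.2 + p.1 * w p.2) ^ 2 - ((b + p.1 * v' : ℝ) : ℂ)‖ ^ 2 -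
      (M + p.1 * u') ^ 2 = (‖A p.2‖ ^ 2 - M ^ 2) + p.1 * G p := by
    intro p
    have h1 : (z0 p.2 + p.1 * w p.2) ^ 2 - ((b + p.1 * v' : ℝ) : ℂ) = A p.2 + p.1 * Y p := by
      simp only [A, Y]
      push_cast
      ring
    rw [h1]
    have h2 : ‖A p.2 + p.1 * Y p‖ ^ 2 = ‖A p.2‖ ^ 2 +
        2 * p.1 * (A p.2 * (starRingEnd ℂ) (Y p)).re + p.1 ^ 2 * ‖Y p‖ ^ 2 := by
      rw [Complex.sq_norm, Complex.sq_norm, Complex.sq_norm, Complex.normSq_add,
        Complex.normSq_mul, Complex.normSq_ofReal]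
      have h3 : (A p.2 * (starRingEnd ℂ) (p.1 * Y p)).re =
          p.1 * (A p.2 * (starRingEnd ℂ) (Y p)).re := by
        rw [map_mul, Complex.conj_ofReal]
        have : A p.2 * (p.1 * (starRingEnd ℂ) (Y p)) = p.1 * (A p.2 * (starRingEnd ℂ) (Y p)) := by
          ring
        rw [this, Complex.re_ofReal_mul]
      rw [h3]
      ring
    rw [h2]
    simp only [G]
    ring
  have hball : ∀ x : ℂ, ‖x‖ ≤ 1 → ‖A x‖ ≤ M := by
    intro x hx
    apply hmax
    simp only [z0]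
    rw [add_sub_cancel_left, norm_mul, Complex.norm_real, Real.norm_eq_abs, abs_of_pos hs]
    nlinarith
  have hloc : ∀ x ∈ Metric.closedBall (0 : ℂ) 1, ∀ᶠ p : ℝ × ℂ in 𝓝 ((0 : ℝ), x),
      0 < p.1 → ‖p.2‖ ≤ 1 → ‖(z0 p.2 + p.1 * w p.2) ^ 2 - ((b + p.1 * v' : ℝ) : ℂ)‖ ^ 2 -
      (M + p.1 * u') ^ 2 < 0 := by
    intro x hx
    rw [mem_closedBall_zero_iff] at hx
    rcases (hball x hx).lt_or_eq with hlt | heq
    · have hc : Continuous fun p : ℝ × ℂ => (‖A p.2‖ ^ 2 - M ^ 2) + p.1 * G p := by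
        have := (hAc.comp (continuous_snd (X := ℝ) (Y := ℂ))).norm
        simp only [Function.comp_def] at this
        fun_prop
      have h0 : (‖A ((0 : ℝ), x).2‖ ^ 2 - M ^ 2) + ((0 : ℝ), x).1 * G ((0 : ℝ), x) < 0 := by
        simp only [zero_mul, add_zero]
        have : ‖A x‖ ^ 2 < M ^ 2 := pow_lt_pow_left₀ hlt (norm_nonneg _) two_ne_zero
        linarith
      filter_upwards [hc.continuousAt.eventually_lt_const h0] with p hp _ _
      rw [hexp]
      exact hp
    · have h0 : G ((0 : ℝ), x) < 0 := by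
        obtain ⟨ν, ν', hν, hν', hz, hA, ht⟩ := touch_tangent hs hM hmax (z := z0 x)
          (by
            simp only [z0]
            rw [add_sub_cancel_left, norm_mul, Complex.norm_real, Real.norm_eq_abs, abs_of_pos hs]
            nlinarith) heq
        have hsC : (s : ℂ) ≠ 0 := by exact_mod_cast hs.ne'
        have hxν : x = ν := by
          have h1 : (s : ℂ) * x = s * ν := by
            have h2 : (e : ℂ) + s * x = e + s * ν := hz
            exact add_left_cancel h2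
          exact mul_left_cancel₀ hsC h1
        have h1 := h (z0 x) ν ν' hν hν' hz hA ht
        have hνν : ν * (starRingEnd ℂ) ν = 1 := by
          rw [Complex.mul_conj, Complex.normSq_eq_norm_sq, hν]; simp
        have hνν' : (starRingEnd ℂ) ν' * ν' = 1 := by
          rw [mul_comm, Complex.mul_conj, Complex.normSq_eq_norm_sq, hν']; simp
        -- conj ν' * z0 = ‖z0‖ conj ν
        have h2 : (starRingEnd ℂ) ν' * z0 x = ‖z0 x‖ * (starRingEnd ℂ) ν := by
          have h3 : z0 x = ‖z0 x‖ * ν' * (starRingEnd ℂ) ν := by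
            rw [← ht, mul_assoc, hνν, mul_one]
          calc (starRingEnd ℂ) ν' * z0 x = (starRingEnd ℂ) ν' * (‖z0 x‖ * ν' * (starRingEnd ℂ) ν) := by
                rw [← h3]
            _ = ((starRingEnd ℂ) ν' * ν') * (‖z0 x‖ * (starRingEnd ℂ) ν) := by ring
            _ = _ := by rw [hνν', one_mul]
        have h4 : (A x * (starRingEnd ℂ) (Y ((0 : ℝ), x))).re =
            M * (2 * ‖z0 x‖ * (u + v * ν.re) - v' * ν'.re) := by
          have h5 : Y ((0 : ℝ), x) = 2 * z0 x * (v + u * ν) - v' := by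
            simp only [Y, w]
            rw [← hxν]
            push_cast
            ring
          have h6 : (A x * (starRingEnd ℂ) (Y ((0 : ℝ), x))).re =
              ((starRingEnd ℂ) (A x) * Y ((0 : ℝ), x)).re := by
            rw [← Complex.conj_re, map_mul, Complex.conj_conj]
          have hA' : A x = M * ν' := hA
          rw [h6, h5, hA', map_mul, Complex.conj_ofReal]
          have h7 : (M : ℂ) * (starRingEnd ℂ) ν' * (2 * z0 x * (v + u * ν) - v') =
              M * (2 * (((starRingEnd ℂ) ν' * z0 x) * (v + u * ν)) - v' * (starRingEnd ℂ) ν') := by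
            ring
          rw [h7, h2]
          have h8 : (‖z0 x‖ : ℂ) * (starRingEnd ℂ) ν * (v + u * ν) =
              ‖z0 x‖ * (v * (starRingEnd ℂ) ν + u) := by
            calc (‖z0 x‖ : ℂ) * (starRingEnd ℂ) ν * (v + u * ν) =
                ‖z0 x‖ * (v * (starRingEnd ℂ) ν + u * (ν * (starRingEnd ℂ) ν)) := by ring
              _ = _ := by rw [hνν, mul_one]
          rw [h8, Complex.re_ofReal_mul, Complex.sub_re, Complex.re_ofReal_mul, Complex.conj_re]
          have h9 : (2 * ((‖z0 x‖ : ℂ) * (v * (starRingEnd ℂ) ν + u))).re =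
              2 * (‖z0 x‖ * (v * ν.re + u)) := by
            have : (2 * ((‖z0 x‖ : ℂ) * (v * (starRingEnd ℂ) ν + u))) =
                ((2 * ‖z0 x‖ : ℝ) : ℂ) * (v * (starRingEnd ℂ) ν + u) := by
              push_cast; ring
            rw [this, Complex.re_ofReal_mul, Complex.add_re, Complex.re_ofReal_mul,
              Complex.conj_re, Complex.ofReal_re]
            ring
          rw [h9]
          ring
        show 2 * (A x * (starRingEnd ℂ) (Y ((0 : ℝ), x))).re + 0 * ‖Y ((0 : ℝ), x)‖ ^ 2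
          - 2 * M * u' - 0 * u' ^ 2 < 0
        rw [h4]
        nlinarith
      filter_upwards [hGc.continuousAt.eventually_lt_const h0] with p hp hp0 hp1
      rw [hexp]
      have h1 := hball p.2 hp1
      have h2 : ‖A p.2‖ ^ 2 ≤ M ^ 2 := pow_le_pow_left₀ (norm_nonneg _) h1 2
      nlinarith
  have hev : ∀ᶠ t in 𝓝 (0 : ℝ), ∀ x ∈ Metric.closedBall (0 : ℂ) 1, 0 < t → ‖x‖ ≤ 1 →
      ‖(z0 x + t * w x) ^ 2 - ((b + t * v' : ℝ) : ℂ)‖ ^ 2 - (M + t * u') ^ 2 < 0 :=
    (isCompact_closedBall (0 : ℂ) 1).eventually_forall_of_forall_eventually hloc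
  have h1 : ∀ᶠ t in 𝓝 (0 : ℝ), 0 < M + t * u' := by
    have hc : Continuous fun t : ℝ => M + t * u' := by fun_prop
    exact hc.continuousAt.eventually_const_lt (by simpa using hM)
  have h2 : ∀ᶠ t in 𝓝 (0 : ℝ), 0 < s + t * u := by
    have hc : Continuous fun t : ℝ => s + t * u := by fun_prop
    exact hc.continuousAt.eventually_const_lt (by simpa using hs)
  filter_upwards [mem_nhdsWithin_of_mem_nhds hev, mem_nhdsWithin_of_mem_nhds h1,
    mem_nhdsWithin_of_mem_nhds h2, self_mem_nhdsWithin] with t ht1 ht2 ht3 ht4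
  intro z hz
  have ht4' : 0 < t := ht4
  have hSC : ((s + t * u : ℝ) : ℂ) ≠ 0 := by exact_mod_cast ht3.ne'
  set x : ℂ := (z - ((e + t * v : ℝ) : ℂ)) / ((s + t * u : ℝ) : ℂ) with hx
  have hx1 : ‖x‖ ≤ 1 := by
    rw [hx, norm_div, Complex.norm_real, Real.norm_eq_abs, abs_of_pos ht3]
    exact (div_le_one ht3).2 hz
  have hzx : z = z0 x + t * w x := by
    have h3 : ((s + t * u : ℝ) : ℂ) * x = z - ((e + t * v : ℝ) : ℂ) := by
      rw [hx]; field_simp
    have h4 : z = ((e + t * v : ℝ) : ℂ) + ((s + t * u : ℝ) : ℂ) * x := by rw [h3]; ring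
    rw [h4]
    simp only [z0, w]
    push_cast
    ring
  have h5 := ht1 x (mem_closedBall_zero_iff.2 hx1) ht4' hx1
  rw [← hzx] at h5
  exact lt_of_pow_lt_pow_left₀ 2 ht2.le (by linarith)

end Pool.Agent.Helper56.RB
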