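import Pool.Agent.Helper56.RB.Base

namespace Pool.Agent.Helper56.RB

/-- first order condition at a maximum point -/
private theorem tan_key {e s b M : ℝ}
    (hmax : ∀ z : ℂ, ‖z - e‖ ≤ s → ‖z ^ 2 - b‖ ≤ M) {z : ℂ}
    (hzM : ‖z ^ 2 - b‖ = M) (h : ℂ) {δ : ℝ} (hδ : 0 < δ)
    (hd : ∀ t : ℝ, 0 < t → t < δ → ‖z + t * h - e‖ ≤ s) :
    ((starRingEnd ℂ) (z ^ 2 - b) * z * h).re ≤ 0 := by
  by_contra hcon
  push Not at hcon
  set w : ℂ := z ^ 2 - b with hw
  set A := ((starRingEnd ℂ) w * z * h).re with hA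
  set B := ((starRingEnd ℂ) w * h ^ 2).re with hB
  have hB1 : 0 < |B| + 1 := by positivity
  have hineq : ∀ t : ℝ, 0 < t → t < δ → 2 * A + t * B ≤ 0 := by
    intro t ht htδ
    have h1 := hmax _ (hd t ht htδ)
    have h2 : (z + t * h) ^ 2 - b = w + t * (2 * z * h + t * h ^ 2) := by
      rw [hw]
      ring
    rw [h2, ← hzM] at h1
    have h3 : Complex.normSq (w + t * (2 * z * h + t * h ^ 2)) ≤ Complex.normSq w := by
      rw [← Complex.sq_norm, ← Complex.sq_norm]
      exact pow_le_pow_left₀ (norm_nonneg _) h1 2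
    rw [Complex.normSq_add] at h3
    have h4 := Complex.normSq_nonneg (t * (2 * z * h + t * h ^ 2))
    have h5 : (w * (starRingEnd ℂ) (t * (2 * z * h + t * h ^ 2))).re = t * (2 * A + t * B) := by
      have h6 : w * (starRingEnd ℂ) (t * (2 * z * h + t * h ^ 2)) =
          (starRingEnd ℂ) (t * (2 * ((starRingEnd ℂ) w * z * h) +
            t * ((starRingEnd ℂ) w * h ^ 2))) := by
        simp only [map_mul, map_add, map_pow, Complex.conj_conj]
        ring
      rw [h6, Complex.conj_re, Complex.re_ofReal_mul, Complex.add_re, Complex.re_ofReal_mul,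
        ← hB]
      have h7 : (2 * ((starRingEnd ℂ) w * z * h)).re = 2 * A := by
        rw [hA]
        simp
      rw [h7]
    rw [h5] at h3
    have h8 : t * (2 * A + t * B) ≤ 0 := by linarith
    by_contra h9
    push Not at h9
    have := mul_pos ht h9
    linarith
  set t := min (δ / 2) (A / (|B| + 1)) with ht
  have ht0 : 0 < t := lt_min (by linarith) (div_pos hcon hB1)
  have ht1 : t < δ := lt_of_le_of_lt (min_le_left _ _) (by linarith)
  have ht2 : t * (|B| + 1) ≤ A := by
    have := min_le_right (δ / 2) (A / (|B| + 1))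
    rw [← ht, le_div_iff₀ hB1] at this
    exact this
  have h3 := hineq t ht0 ht1
  have h4 : -(t * |B|) ≤ t * B := by
    have := neg_abs_le B
    nlinarith
  nlinarith

/-- a maximum point of `|z ^ 2 - b|` over a closed disc is on the circle, and the normals
correspond -/
theorem touch_tangent {e s b M : ℝ} (hs : 0 < s) (hM : 0 < M)
    (hmax : ∀ z : ℂ, ‖z - e‖ ≤ s → ‖z ^ 2 - b‖ ≤ M) {z : ℂ} (hz : ‖z - e‖ ≤ s)
    (hzM : ‖z ^ 2 - b‖ = M) :
    ∃ ν ν' : ℂ, ‖ν‖ = 1 ∧ ‖ν'‖ = 1 ∧ z = e + s * ν ∧ z ^ 2 - b = M * ν' ∧ z * ν = ‖z‖ * ν' := by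
  set w : ℂ := z ^ 2 - b with hw
  have hw0 : w ≠ 0 := by
    rw [← norm_pos_iff, hzM]
    exact hM
  have hsc : (s : ℂ) ≠ 0 := Complex.ofReal_ne_zero.2 hs.ne'
  have hMc : (M : ℂ) ≠ 0 := Complex.ofReal_ne_zero.2 hM.ne'
  -- the point is on the circle
  have hon : ‖z - e‖ = s := by
    by_contra hne
    have hlt : ‖z - e‖ < s := lt_of_le_of_ne hz hne
    have hin : ∀ h : ℂ, ∃ δ : ℝ, 0 < δ ∧ ∀ t : ℝ, 0 < t → t < δ → ‖z + t * h - e‖ ≤ s := by
      intro h
      refine ⟨(s - ‖z - e‖) / (‖h‖ + 1), div_pos (by linarith) (by positivity), ?_⟩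
      intro t ht ht1
      rw [lt_div_iff₀ (by positivity)] at ht1
      have h1 : z + t * h - e = (z - e) + t * h := by ring
      have h2 : ‖(t : ℂ) * h‖ = t * ‖h‖ := by
        rw [norm_mul, Complex.norm_real, Real.norm_eq_abs, abs_of_pos ht]
      rw [h1]
      refine (norm_add_le _ _).trans ?_
      rw [h2]
      nlinarith
    have hz0 : z = 0 := by
      obtain ⟨δ, hδ, hd⟩ := hin ((starRingEnd ℂ) ((starRingEnd ℂ) w * z))
      have h1 := tan_key hmax hzM _ hδ hd
      rw [← hw, Complex.mul_conj, Complex.ofReal_re] at h1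
      have h2 : (starRingEnd ℂ) w * z = 0 := by
        rw [← Complex.normSq_eq_zero]
        exact le_antisymm h1 (Complex.normSq_nonneg _)
      rcases mul_eq_zero.1 h2 with h3 | h3
      · exact absurd ((map_eq_zero _).1 h3) hw0
      · exact h3
    obtain ⟨h, hh⟩ := IsAlgClosed.exists_pow_nat_eq w (n := 2) (by norm_num)
    obtain ⟨δ, hδ, hd⟩ := hin h
    have h1 := hmax _ (hd (δ / 2) (by linarith) (by linarith))
    have h2 : (z + ((δ / 2 : ℝ) : ℂ) * h) ^ 2 - b = ((1 + (δ / 2) ^ 2 : ℝ) : ℂ) * w := by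
      have : (z + ((δ / 2 : ℝ) : ℂ) * h) ^ 2 - b =
          w + ((δ / 2 : ℝ) : ℂ) ^ 2 * h ^ 2 + 2 * z * ((δ / 2 : ℝ) : ℂ) * h := by
        rw [hw]
        ring
      rw [this, hh, hz0]
      push_cast
      ring
    rw [h2, norm_mul, Complex.norm_real, Real.norm_eq_abs, abs_of_pos (by positivity), hzM] at h1
    have : 0 < (δ / 2) ^ 2 * M := by positivity
    nlinarith
  set ν : ℂ := (z - e) / s with hν
  have hν1 : ‖ν‖ = 1 := by
    rw [hν, norm_div, hon, Complex.norm_real, Real.norm_eq_abs, abs_of_pos hs, div_self hs.ne']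
  have hze : z - e = s * ν := by
    rw [hν]
    field_simp
  have hνν : ν * (starRingEnd ℂ) ν = 1 := by
    rw [Complex.mul_conj, ← Complex.sq_norm, hν1]
    simp
  -- admissible directions
  have hdir : ∀ g : ℂ, g.re < 0 → ((starRingEnd ℂ) w * z * ν * g).re ≤ 0 := by
    intro g hg
    have hG : 0 < Complex.normSq g + 1 := by
      have := Complex.normSq_nonneg g
      linarith
    have h1 := tan_key hmax hzM (ν * g) (δ := -(2 * s * g.re) / (Complex.normSq g + 1))
      (div_pos (by nlinarith) hG) (by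
        intro t ht ht1
        rw [lt_div_iff₀ hG] at ht1
        have h2 : z + t * (ν * g) - e = ν * (s + t * g) := by
          have : z + t * (ν * g) - e = (z - e) + t * (ν * g) := by ring
          rw [this, hze]
          ring
        rw [h2, norm_mul, hν1, one_mul]
        apply le_of_sq_le_sq _ hs.le
        rw [Complex.sq_norm, Complex.normSq_add, Complex.normSq_ofReal, Complex.normSq_mul,
          Complex.normSq_ofReal]
        have h3 : ((s : ℂ) * (starRingEnd ℂ) (t * g)).re = s * t * g.re := by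
          simp
          ring
        rw [h3]
        have h4 := Complex.normSq_nonneg g
        have h5 : t * (t * Complex.normSq g + 2 * s * g.re) ≤ 0 := by
          apply mul_nonpos_of_nonneg_of_nonpos ht.le
          nlinarith
        nlinarith)
    rw [← hw] at h1
    convert h1 using 2
    ring
  set A : ℂ := (starRingEnd ℂ) w * z * ν with hA
  have hAre : 0 ≤ A.re := by
    have := hdir (-1) (by simp)
    simp at this
    exact this
  have hAim : A.im = 0 := by
    by_contra hne
    have := hdir ⟨-1, (A.re + 1) / A.im⟩ (by simp)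
    rw [Complex.mul_re] at this
    simp only at this
    rw [mul_div_cancel₀ _ hne] at this
    have h2 := hdir ⟨-1, -(A.re + 1) / A.im⟩ (by simp)
    rw [Complex.mul_re] at h2
    simp only at h2
    rw [mul_div_cancel₀ _ hne] at h2
    linarith
  have hAn : A = ((M * ‖z‖ : ℝ) : ℂ) := by
    have h1 : ‖A‖ = M * ‖z‖ := by
      rw [hA, norm_mul, norm_mul, RCLike.norm_conj, hzM, hν1, mul_one]
    have h2 : A = (A.re : ℂ) := by
      apply Complex.ext
      · simp
      · simp [hAim]
    have h3 : ‖A‖ = A.re := by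
      rw [h2, Complex.norm_real, Real.norm_eq_abs, Complex.ofReal_re, abs_of_nonneg hAre]
    rw [← h1, h3]
    exact h2
  refine ⟨ν, w / M, hν1, ?_, ?_, ?_, ?_⟩
  · rw [norm_div, hzM, Complex.norm_real, Real.norm_eq_abs, abs_of_pos hM, div_self hM.ne']
  · rw [← hze]
    ring
  · field_simp
  · have h1 : w * (starRingEnd ℂ) w = (M : ℂ) ^ 2 := by
      rw [Complex.mul_conj, ← Complex.sq_norm, hzM]
      push_cast
      ring
    have h2 : (M : ℂ) ^ 2 * (z * ν) = M * (‖z‖ * w) := by
      have : w * A = (M : ℂ) ^ 2 * (z * ν) := by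
        rw [hA, ← h1]
        ring
      rw [← this, hAn]
      push_cast
      ring
    have h3 : (M : ℂ) * (M * (z * ν)) = M * (‖z‖ * w) := by
      rw [← h2]
      ring
    have h4 := mul_left_cancel₀ hMc h3
    apply mul_left_cancel₀ hMc
    rw [h4]
    field_simp

end Pool.Agent.Helper56.RB
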