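import Pool.Agent.Helper56.RB.FB
import Pool.Agent.Helper56.RB.SP

namespace Pool.Agent.Helper56.RB

open ComplexConjugate

/-- the elementary inequality behind the uniqueness of fixed points -/
theorem zero_ineq {q : ℝ} (hq : 0 < q) (hq1 : q < 1) {w : ℂ} (hw : ‖w‖ ≤ q ^ 2) :
    ‖(q : ℂ) - w / q‖ < ‖1 - w‖ := by
  have hq0 : (q : ℝ) ≠ 0 := hq.ne'
  have h1 : ‖(q : ℂ) - w / q‖ ^ 2 = (q - w.re / q) ^ 2 + (w.im / q) ^ 2 := by
    rw [Complex.sq_norm, Complex.normSq_apply]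
    simp only [Complex.sub_re, Complex.sub_im, Complex.div_ofReal_re, Complex.div_ofReal_im,
      Complex.ofReal_re, Complex.ofReal_im]
    ring
  have h2 : ‖1 - w‖ ^ 2 = (1 - w.re) ^ 2 + w.im ^ 2 := by
    rw [Complex.sq_norm, Complex.normSq_apply]
    simp only [Complex.sub_re, Complex.sub_im, Complex.one_re, Complex.one_im]
    ring
  have h3 : ‖w‖ ^ 2 = w.re ^ 2 + w.im ^ 2 := by
    rw [Complex.sq_norm, Complex.normSq_apply]
    ring
  have h4 : ‖w‖ ^ 2 ≤ (q ^ 2) ^ 2 := pow_le_pow_left₀ (norm_nonneg _) hw 2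
  have h5 : ‖1 - w‖ ^ 2 - ‖(q : ℂ) - w / q‖ ^ 2 = (1 - q ^ 2) * (1 - ‖w‖ ^ 2 / q ^ 2) := by
    rw [h1, h2, h3]
    field_simp
    ring
  have h6 : ‖w‖ ^ 2 / q ^ 2 < 1 := by
    rw [div_lt_one (by positivity)]
    have h7 : 0 < q ^ 2 * (1 - q ^ 2) := mul_pos (by positivity) (by nlinarith)
    nlinarith
  have h7 : 0 < (1 - q ^ 2) * (1 - ‖w‖ ^ 2 / q ^ 2) := by
    apply mul_pos
    · nlinarith
    · linarith
  exact lt_of_pow_lt_pow_left₀ 2 (norm_nonneg _) (by linarith)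

/-- two fixed points in a disc mapped strictly into itself coincide -/
theorem fixed_unique {f : ℂ → ℂ} (hd : Differentiable ℂ f) {e s r : ℝ} (hr : 0 < r)
    (hm : ∀ z : ℂ, ‖z - e‖ ≤ s → ‖f z - e‖ + r ≤ s) {a b : ℂ} (ha : ‖a - e‖ ≤ s)
    (hb : ‖b - e‖ ≤ s) (hfa : f a = a) (hfb : f b = b) : a = b := by
  have ha1 := hm a ha
  have hb1 := hm b hb
  rw [hfa] at ha1
  rw [hfb] at hb1
  have hs : 0 < s := by
    have := norm_nonneg (a - (e : ℂ))
    linarith
  have hs0 : (s : ℂ) ≠ 0 := by exact_mod_cast hs.ne'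
  by_cases hsr : s = r
  · have h1 : ‖a - (e : ℂ)‖ ≤ 0 := by linarith
    have h2 : ‖b - (e : ℂ)‖ ≤ 0 := by linarith
    rw [sub_eq_zero.1 (norm_le_zero_iff.1 h1), sub_eq_zero.1 (norm_le_zero_iff.1 h2)]
  have hsr' : r < s := by
    have := norm_nonneg (a - (e : ℂ))
    exact lt_of_le_of_ne (by linarith) (Ne.symm hsr)
  by_contra hab
  have hqs : 0 < s - r := by linarith
  have hq0 : ((s - r : ℝ) : ℂ) ≠ 0 := by exact_mod_cast hqs.ne'
  -- the normalised map
  have hsn : ‖(s : ℂ)‖ = s := by rw [Complex.norm_real, Real.norm_eq_abs, abs_of_pos hs]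
  have hqn : ‖((s - r : ℝ) : ℂ)‖ = s - r := by
    rw [Complex.norm_real, Real.norm_eq_abs, abs_of_pos hqs]
  have hz : ‖(a - e) / (s : ℂ)‖ < 1 := by
    rw [norm_div, hsn, div_lt_one hs]
    linarith
  have hw : ‖(b - e) / (s : ℂ)‖ < 1 := by
    rw [norm_div, hsn, div_lt_one hs]
    linarith
  have hSP := schwarz_pick (f := fun x : ℂ => (f (e + s * x) - e) / ((s - r : ℝ) : ℂ)) (by
      apply Differentiable.differentiableOn
      refine Differentiable.div_const ?_ _
      refine Differentiable.sub_const ?_ _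
      exact hd.comp (by fun_prop)) (by
      intro x hx
      have h1 := hm (e + s * x) (by
        rw [add_sub_cancel_left, norm_mul, hsn]
        nlinarith [norm_nonneg x])
      rw [norm_div, hqn, div_le_one hqs]
      linarith) hz hw
  have ea : (e : ℂ) + s * ((a - e) / s) = a := by
    rw [mul_div_cancel₀ _ hs0]
    ring
  have eb : (e : ℂ) + s * ((b - e) / s) = b := by
    rw [mul_div_cancel₀ _ hs0]
    ring
  simp only [ea, eb, hfa, hfb] at hSP
  -- rewrite in terms of q and w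
  set q : ℝ := (s - r) / s with hq
  have hqpos : 0 < q := div_pos hqs hs
  have hq1 : q < 1 := by
    rw [hq, div_lt_one hs]
    linarith
  have hqc : (q : ℂ) ≠ 0 := by exact_mod_cast hqpos.ne'
  have hsrq : ((s - r : ℝ) : ℂ) = q * s := by
    rw [hq]
    push_cast
    field_simp
  set w : ℂ := conj ((b - e) / (s : ℂ)) * ((a - e) / s) with hwdef
  have hwn : ‖w‖ ≤ q ^ 2 := by
    rw [hwdef, norm_mul, RCLike.norm_conj, norm_div, norm_div, hsn, sq]
    have h1 : ‖b - (e : ℂ)‖ / s ≤ q := by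
      rw [hq]
      exact div_le_div_of_nonneg_right (by linarith) hs.le
    have h2 : ‖a - (e : ℂ)‖ / s ≤ q := by
      rw [hq]
      exact div_le_div_of_nonneg_right (by linarith) hs.le
    exact mul_le_mul h1 h2 (by positivity) hqpos.le
  have hineq := zero_ineq hqpos hq1 hwn
  have e1 : (a - e) / ((s - r : ℝ) : ℂ) - (b - e) / ((s - r : ℝ) : ℂ) =
      ((a - e) / s - (b - e) / s) / q := by
    rw [hsrq]
    field_simp
  have e2 : 1 - conj ((b - e) / ((s - r : ℝ) : ℂ)) * ((a - e) / ((s - r : ℝ) : ℂ)) =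
      ((q : ℂ) - w / q) / q := by
    rw [hwdef, hsrq]
    simp only [map_div₀, map_mul, Complex.conj_ofReal]
    field_simp
  rw [e1, e2, norm_div, norm_div] at hSP
  have hqn' : ‖(q : ℂ)‖ = q := by rw [Complex.norm_real, Real.norm_eq_abs, abs_of_pos hqpos]
  rw [hqn'] at hSP
  have hdpos : 0 < ‖(a - e) / (s : ℂ) - (b - e) / s‖ := by
    rw [norm_pos_iff]
    intro h
    apply hab
    have h1 : (a - e) / (s : ℂ) - (b - e) / s = (a - b) / s := by ring
    rw [h1, div_eq_zero_iff] at h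
    rcases h with h | h
    · exact sub_eq_zero.1 h
    · exact absurd h hs0
  have h3 : ‖(a - e) / (s : ℂ) - (b - e) / s‖ * ‖1 - w‖ ≤
      ‖(a - e) / (s : ℂ) - (b - e) / s‖ * ‖(q : ℂ) - w / q‖ := by
    have h4 : ‖(a - e) / (s : ℂ) - (b - e) / s‖ / q * ‖1 - w‖ =
        (‖(a - e) / (s : ℂ) - (b - e) / s‖ * ‖1 - w‖) / q := by ring
    have h5 : ‖(a - e) / (s : ℂ) - (b - e) / s‖ * (‖(q : ℂ) - w / q‖ / q) =
        (‖(a - e) / (s : ℂ) - (b - e) / s‖ * ‖(q : ℂ) - w / q‖) / q := by ring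
    rw [h4, h5] at hSP
    exact (div_le_div_iff_of_pos_right hqpos).1 hSP
  have h4 := le_of_mul_le_mul_left h3 hdpos
  linarith

theorem zero_per {c : ℝ} {p : ℕ} (h0 : orb c p = 0) (n : ℕ) : orb c (n + p) = orb c n := by
  induction n with
  | zero => rw [zero_add, h0, orb]
  | succ n ih =>
    have : n + 1 + p = n + p + 1 := by ring
    rw [this, orb, ih, orb]

theorem zero_iter {c : ℝ} (n : ℕ) : ∀ j : ℕ,
    (fun z : ℂ => z ^ 2 + c)^[n] ((orb c j : ℝ) : ℂ) = ((orb c (j + n) : ℝ) : ℂ) := by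
  induction n with
  | zero => intro j; rfl
  | succ n ih =>
    intro j
    rw [Function.iterate_succ_apply]
    have h1 : ((orb c j : ℝ) : ℂ) ^ 2 + c = ((orb c (j + 1) : ℝ) : ℂ) := by
      rw [orb]
      push_cast
      ring
    rw [h1, ih]
    congr 2
    ring

theorem zero_margin {c : ℝ} {p : ℕ} {r : ℝ} {e s : ℕ → ℝ} (hr : 0 < r) (h : Feas c p r e s)
    (n : ℕ) : ∀ (j : ℕ) (z : ℂ), ‖z - e j‖ ≤ s j →
      ‖(fun z : ℂ => z ^ 2 + c)^[n + 1] z - e (j + (n + 1))‖ + r ≤ s (j + (n + 1)) := by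
  induction n with
  | zero =>
    intro j z hz
    exact h.step j z hz
  | succ n ih =>
    intro j z hz
    have h1 := h.step j z hz
    have h2 := ih (j + 1) (z ^ 2 + c) (by linarith)
    rw [Function.iterate_succ_apply]
    have h3 : j + (n + 1 + 1) = j + 1 + (n + 1) := by ring
    rw [h3]
    exact h2

/-- the other discs do not contain `0` -/
theorem zero_not_mem {c : ℝ} {p : ℕ} {r : ℝ} {e s : ℕ → ℝ} (hp : 1 ≤ p) (h0 : orb c p = 0)
    (hr : 0 < r) (h : Feas c p r e s) (hne : ∀ j, 1 ≤ j → j < p → orb c j ≠ 0) (j : ℕ)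
    (hj : 1 ≤ j) (hjp : j < p) : s j < |e j| := by
  by_contra hcon
  push Not at hcon
  have hd : Differentiable ℂ (fun z : ℂ => z ^ 2 + c)^[p] := by
    apply Differentiable.iterate
    fun_prop
  have hm : ∀ z : ℂ, ‖z - e j‖ ≤ s j →
      ‖(fun z : ℂ => z ^ 2 + c)^[p] z - e j‖ + r ≤ s j := by
    intro z hz
    obtain ⟨q, rfl⟩ : ∃ q, p = q + 1 := ⟨p - 1, by omega⟩
    have := zero_margin hr h q j z hz
    rwa [h.pe, h.ps] at this
  have h1 := fixed_unique hd hr hm (a := 0) (b := ((orb c j : ℝ) : ℂ)) (by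
      rw [zero_sub, norm_neg, Complex.norm_real, Real.norm_eq_abs]
      exact hcon) (by
      rw [← Complex.ofReal_sub, Complex.norm_real, Real.norm_eq_abs]
      exact fb_orb0 h hr.le j) (by
      have := zero_iter (c := c) p 0
      rw [zero_add, h0] at this
      simpa [orb] using this) (by
      rw [zero_iter, zero_per h0])
  have h2 : orb c j = 0 := by exact_mod_cast h1.symm
  exact hne j hj hjp h2

end Pool.Agent.Helper56.RB
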